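import Pool.Agent.Work.MP_db9399_dn.Interface

/-! Block ML of THEOREM DENSE, part A: the obstruction from Tutte's theorem. -/

set_option autoImplicit false

namespace Pool.Agent.Work.MP_db9399_dn.ML

open Finset Classical
open Pool.Agent.Work.MP_db9399_all (nb)

universe u

theorem mem_nb {V : Type u} [Fintype V] {G : SimpleGraph V} {v w : V} :
    w ∈ nb G v ↔ G.Adj v w := by
  simp [nb]

section
variable {V : Type u} (G : SimpleGraph V) (U L : Finset V) (p : ℕ)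

/-- left vertices in `L` -/
def lp : V ⊕ Fin p → Prop := fun a => ∃ x ∈ L, a = Sum.inl x

/-- the auxiliary graph -/
def FF : SimpleGraph (V ⊕ Fin p) where
  Adj a b := a ≠ b ∧ ((∃ x y, a = Sum.inl x ∧ b = Sum.inl y ∧ x ∈ U ∧ y ∈ U ∧ G.Adj x y) ∨
    (¬ lp L p a ∧ ¬ lp L p b))
  symm := ⟨by
    rintro a b ⟨h1, h2⟩
    refine ⟨h1.symm, ?_⟩
    rcases h2 with ⟨x, y, h3, h4, h5, h6, h7⟩ | ⟨h3, h4⟩
    · exact Or.inl ⟨y, x, h4, h3, h6, h5, h7.symm⟩
    · exact Or.inr ⟨h4, h3⟩⟩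
  loopless := ⟨fun a h => h.1 rfl⟩

end

theorem of_perfect {V : Type u} [Fintype V] (G : SimpleGraph V) (U L : Finset V) (p : ℕ)
    (P : (FF G U L p).Subgraph) (hP : P.IsPerfectMatching) :
    ∃ M : SimpleGraph V, M ≤ G ∧ IsMat M ∧ (∀ v w, M.Adj v w → v ∈ U) ∧
      ∀ v ∈ L, (nb M v).Nonempty := by
  classical
  let M : SimpleGraph V :=
    { Adj := fun v w => v ∈ U ∧ w ∈ U ∧ G.Adj v w ∧ P.Adj (Sum.inl v) (Sum.inl w)
      symm := ⟨by
        rintro v w ⟨h1, h2, h3, h4⟩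
        exact ⟨h2, h1, h3.symm, h4.symm⟩⟩
      loopless := ⟨by
        rintro v ⟨_, _, h, _⟩
        exact G.loopless.irrefl v h⟩ }
  refine ⟨M, fun v w h => h.2.2.1, ?_, fun v w h => h.1, ?_⟩
  · intro v
    rw [Finset.card_le_one]
    intro x hx y hy
    rw [mem_nb] at hx hy
    obtain ⟨_, _, _, h1⟩ := hx
    obtain ⟨_, _, _, h2⟩ := hy
    have h3 := (hP.1 (hP.2 (Sum.inl v))).unique h1 h2
    exact Sum.inl_injective h3
  · intro v hv
    obtain ⟨b, hb, _⟩ := hP.1 (hP.2 (Sum.inl v))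
    have h1 := P.adj_sub hb
    obtain ⟨h2, h3⟩ := h1
    rcases h3 with ⟨x, y, h4, h5, h6, h7, h8⟩ | ⟨h4, _⟩
    · have hvx : v = x := Sum.inl_injective h4
      subst hvx
      subst h5
      exact ⟨y, mem_nb.mpr ⟨h6, h7, h8, hb⟩⟩
    · exact absurd ⟨v, hv, rfl⟩ h4

theorem tutte_fam {V : Type u} [Fintype V] (G : SimpleGraph V) (U L : Finset V)
    (hLU : L ⊆ U) (hno : ¬ ∃ M : SimpleGraph V, M ≤ G ∧ IsMat M ∧ (∀ v w, M.Adj v w → v ∈ U) ∧
      ∀ v ∈ L, (nb M v).Nonempty) :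
    ∃ (S : Finset V) (XX : Finset (Finset V)), S ⊆ U ∧ S.card + 1 ≤ XX.card ∧
      (∀ X ∈ XX, X ⊆ L ∧ Odd X.card ∧ Disjoint X S ∧ ∀ x ∈ X, nb G x ∩ U ⊆ X ∪ S) ∧
      ∀ X ∈ XX, ∀ Y ∈ XX, X ≠ Y → Disjoint X Y := by
  classical
  obtain ⟨p, hp⟩ : ∃ p : ℕ, p = Fintype.card V % 2 := ⟨_, rfl⟩
  obtain ⟨F, hF⟩ : ∃ F : SimpleGraph (V ⊕ Fin p), F = FF G U L p := ⟨_, rfl⟩
  have hcard : Even (Nat.card (V ⊕ Fin p)) := by
    rw [Nat.card_eq_fintype_card, Fintype.card_sum, Fintype.card_fin, hp]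
    rw [Nat.even_iff]
    omega
  have hFadj : ∀ a b, F.Adj a b ↔ a ≠ b ∧ ((∃ x y, a = Sum.inl x ∧ b = Sum.inl y ∧ x ∈ U ∧
      y ∈ U ∧ G.Adj x y) ∨ (¬ lp L p a ∧ ¬ lp L p b)) := by
    intro a b
    rw [hF]
    exact Iff.rfl
  have hnoP : ¬ ∃ P : F.Subgraph, P.IsPerfectMatching := by
    rintro ⟨P, hP⟩
    subst hF
    exact hno (of_perfect G U L p P hP)
  rw [SimpleGraph.tutte] at hnoP
  push Not at hnoP
  obtain ⟨u, hu⟩ := hnoP
  rw [SimpleGraph.IsTutteViolator] at hu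
  obtain ⟨D, hD⟩ : ∃ D : F.Subgraph, D = (⊤ : F.Subgraph).deleteVerts u := ⟨_, rfl⟩
  rw [← hD] at hu
  have hDv : ∀ a, a ∈ D.verts ↔ a ∉ u := by
    intro a
    rw [hD]
    simp
  have hDa : ∀ a b, a ∉ u → b ∉ u → F.Adj a b → D.Adj a b := by
    intro a b ha hb hab
    rw [hD, SimpleGraph.Subgraph.deleteVerts_adj]
    exact ⟨trivial, ha, trivial, hb, hab⟩
  -- parity
  have hpar := SimpleGraph.odd_ncard_oddComponents (G := D.coe)
  have hcv : Nat.card D.verts = Nat.card (V ⊕ Fin p) - u.ncard := by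
    have h1 : D.verts = uᶜ := by
      ext a
      rw [hDv]
      rfl
    rw [Nat.card_coe_set_eq, h1, Set.ncard_compl]
  have hule : u.ncard ≤ Nat.card (V ⊕ Fin p) := by
    rw [← Set.ncard_univ]
    exact Set.ncard_le_ncard (Set.subset_univ u)
  have h2 : u.ncard + 2 ≤ D.coe.oddComponents.ncard := by
    rw [hcv] at hpar
    by_contra hlt
    have h3 : D.coe.oddComponents.ncard = u.ncard + 1 := by omega
    rw [h3] at hpar
    rw [Nat.odd_iff, Nat.odd_iff] at hpar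
    rw [Nat.even_iff] at hcard
    omega
  have hsame : ∀ a b : D.verts, ¬ lp L p a.1 → ¬ lp L p b.1 →
      D.coe.connectedComponentMk a = D.coe.connectedComponentMk b := by
    intro a b ha hb
    by_cases hab : a = b
    · rw [hab]
    · rw [SimpleGraph.ConnectedComponent.eq]
      apply SimpleGraph.Adj.reachable
      have h3 : F.Adj a.1 b.1 :=
        (hFadj _ _).mpr ⟨fun h => hab (Subtype.ext h), Or.inr ⟨ha, hb⟩⟩
      exact hDa _ _ ((hDv _).mp a.2) ((hDv _).mp b.2) h3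
  obtain ⟨O', hO'⟩ : ∃ O' : Finset D.coe.ConnectedComponent, ∀ c, c ∈ O' ↔
      c ∈ D.coe.oddComponents ∧ ∀ a ∈ c.supp, lp L p a.1 := by
    refine ⟨univ.filter (fun c => c ∈ D.coe.oddComponents ∧ ∀ a ∈ c.supp, lp L p a.1), ?_⟩
    intro c
    simp only [mem_filter, mem_univ, true_and]
  have hO'c : D.coe.oddComponents.ncard ≤ O'.card + 1 := by
    have h3 : D.coe.oddComponents.ncard ≤ (D.coe.oddComponents \ (O' : Set _)).ncard +
        (O' : Set D.coe.ConnectedComponent).ncard :=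
      Set.ncard_le_ncard_sdiff_add_ncard _ _
    rw [Set.ncard_coe_finset] at h3
    have h4 : (D.coe.oddComponents \ (O' : Set _)).ncard ≤ 1 := by
      rw [Set.ncard_le_one]
      intro c hc c' hc'
      have hex : ∀ c : D.coe.ConnectedComponent, c ∈ D.coe.oddComponents \ (O' : Set _) →
          ∃ a : D.verts, a ∈ c.supp ∧ ¬ lp L p a.1 := by
        intro c hc
        by_contra hcon
        push Not at hcon
        apply hc.2
        rw [Finset.mem_coe, hO']
        exact ⟨hc.1, hcon⟩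
      obtain ⟨a, ha, hla⟩ := hex c hc
      obtain ⟨b, hb, hlb⟩ := hex c' hc'
      rw [SimpleGraph.ConnectedComponent.mem_supp_iff] at ha hb
      rw [← ha, ← hb]
      exact hsame a b hla hlb
    omega
  let XC : D.coe.ConnectedComponent → Finset V := fun c =>
    univ.filter (fun v => ∃ h : (Sum.inl v : V ⊕ Fin p) ∈ D.verts,
      (⟨Sum.inl v, h⟩ : D.verts) ∈ c.supp)
  have hXC : ∀ c v, v ∈ XC c ↔ ∃ h : (Sum.inl v : V ⊕ Fin p) ∈ D.verts,
      (⟨Sum.inl v, h⟩ : D.verts) ∈ c.supp := by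
    intro c v
    simp only [XC, mem_filter, mem_univ, true_and]
  have hXdisj : ∀ c c' v, v ∈ XC c → v ∈ XC c' → c = c' := by
    intro c c' v h3 h4
    obtain ⟨h5, h6⟩ := (hXC c v).mp h3
    obtain ⟨h7, h8⟩ := (hXC c' v).mp h4
    rw [SimpleGraph.ConnectedComponent.mem_supp_iff] at h6 h8
    rw [← h6, ← h8]
  have hXcard : ∀ c ∈ O', (XC c).card = c.supp.ncard := by
    intro c hc
    have hc' : ∀ a ∈ c.supp, ∃ x ∈ L, a.1 = Sum.inl x := ((hO' c).mp hc).2
    symm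
    rw [← Set.ncard_coe_finset (XC c)]
    have hval : ∀ a (ha : a ∈ c.supp), (Sum.inl (hc' a ha).choose : V ⊕ Fin p) = a.1 := by
      intro a ha
      exact (hc' a ha).choose_spec.2.symm
    refine Set.ncard_congr (fun a ha => (hc' a ha).choose) ?_ ?_ ?_
    · intro a ha
      rw [Finset.mem_coe, hXC]
      have h3 := hval a ha
      refine ⟨by rw [h3]; exact a.2, ?_⟩
      have h4 : (⟨Sum.inl (hc' a ha).choose, by rw [h3]; exact a.2⟩ : D.verts) = a :=
        Subtype.ext h3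
      rw [h4]
      exact ha
    · intro a b ha hb hab
      apply Subtype.ext
      rw [← hval a ha, ← hval b hb]
      have hab' : (hc' a ha).choose = (hc' b hb).choose := hab
      rw [hab']
    · intro v hv
      rw [Finset.mem_coe, hXC] at hv
      obtain ⟨h3, h4⟩ := hv
      refine ⟨_, h4, ?_⟩
      exact Sum.inl_injective (hval _ h4)
  obtain ⟨S, hS⟩ : ∃ S : Finset V, ∀ v, v ∈ S ↔ v ∈ U ∧ (Sum.inl v : V ⊕ Fin p) ∈ u := by
    refine ⟨univ.filter (fun v => v ∈ U ∧ (Sum.inl v : V ⊕ Fin p) ∈ u), ?_⟩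
    intro v
    simp only [mem_filter, mem_univ, true_and]
  have hSc : S.card ≤ u.ncard := by
    rw [← Set.ncard_coe_finset S]
    apply Set.ncard_le_ncard_of_injOn (fun v => (Sum.inl v : V ⊕ Fin p))
    · intro v hv
      exact ((hS v).mp (Finset.mem_coe.mp hv)).2
    · intro a _ b _ h
      exact Sum.inl_injective h
  have hinj : Set.InjOn XC (O' : Set D.coe.ConnectedComponent) := by
    intro c hc c' hc' h
    rw [Finset.mem_coe] at hc hc'
    have h3 : Odd (XC c).card := by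
      rw [hXcard c hc]
      exact ((hO' c).mp hc).1
    obtain ⟨v, hv⟩ := Finset.card_pos.mp h3.pos
    exact hXdisj c c' v hv (by rw [← h]; exact hv)
  refine ⟨S, O'.image XC, fun v hv => ((hS v).mp hv).1, ?_, ?_, ?_⟩
  · rw [Finset.card_image_of_injOn hinj]
    omega
  · intro X hX
    rw [mem_image] at hX
    obtain ⟨c, hc, rfl⟩ := hX
    have hcL : ∀ v ∈ XC c, v ∈ L := by
      intro v hv
      obtain ⟨h3, h4⟩ := (hXC c v).mp hv
      obtain ⟨x, hx, hxv⟩ := ((hO' c).mp hc).2 _ h4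
      have h5 : v = x := Sum.inl_injective hxv
      rw [h5]
      exact hx
    refine ⟨hcL, ?_, ?_, ?_⟩
    · rw [hXcard c hc]
      exact ((hO' c).mp hc).1
    · rw [Finset.disjoint_left]
      intro v hv hvS
      obtain ⟨h3, h4⟩ := (hXC c v).mp hv
      exact (hDv _).mp h3 ((hS v).mp hvS).2
    · intro x hx y hy
      rw [mem_inter, mem_nb] at hy
      rw [mem_union]
      by_cases hyu : (Sum.inl y : V ⊕ Fin p) ∈ u
      · exact Or.inr ((hS y).mpr ⟨hy.2, hyu⟩)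
      · left
        obtain ⟨h3, h4⟩ := (hXC c x).mp hx
        have hyD : (Sum.inl y : V ⊕ Fin p) ∈ D.verts := (hDv _).mpr hyu
        rw [hXC]
        refine ⟨hyD, ?_⟩
        rw [SimpleGraph.ConnectedComponent.mem_supp_iff] at h4 ⊢
        rw [← h4]
        rw [SimpleGraph.ConnectedComponent.eq]
        apply SimpleGraph.Adj.reachable
        exact hDa _ _ hyu ((hDv _).mp h3) ((hFadj _ _).mpr
          ⟨fun h => G.ne_of_adj hy.1.symm (Sum.inl_injective h),
            Or.inl ⟨y, x, rfl, rfl, hy.2, hLU (hcL x hx), hy.1.symm⟩⟩)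
  · intro X hX Y hY hne
    rw [mem_image] at hX hY
    obtain ⟨c, hc, rfl⟩ := hX
    obtain ⟨c', hc', rfl⟩ := hY
    rw [Finset.disjoint_left]
    intro v hv hv'
    exact hne (by rw [hXdisj c c' v hv hv'])

end Pool.Agent.Work.MP_db9399_dn.ML
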