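import Pool.Agent.Work.MP_db9399_dn.MLA

/-! Block ML of THEOREM DENSE, part B: the counting. -/

set_option autoImplicit false

namespace Pool.Agent.Work.MP_db9399_dn.ML

open Finset Classical
open Pool.Agent.Work.MP_db9399_all (nb)

universe u

/-- the numbers -/
theorem numbers (η p1 p2 s : ℝ) (hη : 0 < η) (hη1 : η ≤ 1) (h1 : (1 + η) * p1 ≤ s)
    (h2 : p1 * (1 - η / 8) + 3 / 2 * p2 ≤ s) (hs : 0 ≤ s) : p1 + p2 ≤ (1 - η / 8) * s := by
  have h3 : p1 ≤ s / (1 + η) := by
    rw [le_div_iff₀ (by linarith)]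
    linarith
  have h4 : s / (1 + η) ≤ s * (1 - η / 2) := by
    rw [div_le_iff₀ (by linarith)]
    nlinarith [mul_nonneg hs hη.le, mul_nonneg hs (mul_nonneg hη.le (sub_nonneg.mpr hη1))]
  have h5 : p1 * (1 / 2 + η / 8) ≤ s * (1 - η / 2) * (1 / 2 + η / 8) :=
    mul_le_mul_of_nonneg_right (h3.trans h4) (by linarith)
  nlinarith [mul_nonneg hs hη.le, mul_nonneg hs (mul_nonneg hη.le hη.le)]

/-- edges into `S` -/
theorem dcount {V : Type u} [Fintype V] (G : SimpleGraph V) (d : ℕ) (S Y : Finset V)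
    (hd : ∀ v, (nb G v).card ≤ d) : ∑ x ∈ Y, (nb G x ∩ S).card ≤ d * S.card := by
  classical
  have h1 : ∀ x, (nb G x ∩ S).card = ∑ s ∈ S, if G.Adj x s then 1 else 0 := by
    intro x
    rw [Finset.sum_boole, Nat.cast_id]
    congr 1
    ext s
    simp [mem_nb, and_comm]
  calc ∑ x ∈ Y, (nb G x ∩ S).card = ∑ x ∈ Y, ∑ s ∈ S, (if G.Adj x s then 1 else 0) :=
        Finset.sum_congr rfl (fun x _ => h1 x)
    _ = ∑ s ∈ S, ∑ x ∈ Y, (if G.Adj x s then 1 else 0) := Finset.sum_comm
    _ ≤ ∑ _s ∈ S, d := by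
        apply Finset.sum_le_sum
        intro s _
        rw [Finset.sum_boole, Nat.cast_id]
        refine le_trans (Finset.card_le_card ?_) (hd s)
        intro x hx
        rw [mem_filter] at hx
        exact mem_nb.mpr hx.2.symm
    _ = d * S.card := by
        rw [Finset.sum_const, smul_eq_mul, mul_comm]

theorem stmt_ML : Stmt_ML.{u} := by
  classical
  intro η ρ C hη hη1 hρ
  obtain ⟨C', hC'⟩ : ∃ C' : ℝ, C' = max C 1 := ⟨_, rfl⟩
  have hC1 : 1 ≤ C' := by
    rw [hC']
    exact le_max_right _ _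
  have hCC : C ≤ C' := by
    rw [hC']
    exact le_max_left _ _
  obtain ⟨K, hK⟩ : ∃ K : ℝ, K = 16 * C' / η := ⟨_, rfl⟩
  have hK0 : 0 < K := by
    rw [hK]
    positivity
  have hKη : η * K = 16 * C' := by
    rw [hK]
    field_simp
  refine ⟨⌈4 * K + K / ρ⌉₊ + 17, ?_⟩
  intro V _ G d U L hd0 hLU hU hdeg hL hNB hcut hLe
  have hdR : 4 * K + K / ρ + 17 ≤ (d : ℝ) := by
    have h1 := Nat.le_ceil (4 * K + K / ρ)
    have h2 : ((⌈4 * K + K / ρ⌉₊ + 17 : ℕ) : ℝ) ≤ (d : ℝ) := by
      exact_mod_cast hd0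
    push_cast at h2
    linarith
  have hKρ : 0 < K / ρ := by positivity
  have hd17 : (17 : ℝ) ≤ d := by linarith
  have hU' : (U.card : ℝ) ≤ C' * d :=
    hU.trans (mul_le_mul_of_nonneg_right hCC (Nat.cast_nonneg _))
  by_contra hno
  obtain ⟨S, XX, hSU, hcard, hXX, hdisj⟩ := tutte_fam G U L hLU hno
  -- lower bound for the degree into `S`
  have hlow : ∀ X ∈ XX, ∀ x ∈ X, (1 - η / 8) * d ≤ ((nb G x ∩ S).card : ℝ) + X.card - 1 := by
    intro X hX x hx
    obtain ⟨hXL, _, _, hN⟩ := hXX X hX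
    have h1 := hL x (hXL hx)
    have h2 : (nb G x ∩ U).card ≤ (nb G x ∩ S).card + (X.erase x).card := by
      refine le_trans (Finset.card_le_card ?_) (Finset.card_union_le _ _)
      intro y hy
      have h3 := hN x hx hy
      rw [mem_inter] at hy
      rw [mem_union] at h3 ⊢
      rw [mem_inter, mem_erase]
      rcases h3 with h3 | h3
      · right
        refine ⟨?_, h3⟩
        rintro rfl
        exact G.loopless.irrefl _ (mem_nb.mp hy.1)
      · exact Or.inl ⟨hy.1, h3⟩
    rw [Finset.card_erase_of_mem hx] at h2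
    have h4 : 1 ≤ X.card := Finset.card_pos.mpr ⟨x, hx⟩
    have h5 : (nb G x ∩ U).card + 1 ≤ (nb G x ∩ S).card + X.card := by omega
    have h6 : ((nb G x ∩ U).card : ℝ) + 1 ≤ (nb G x ∩ S).card + X.card := by exact_mod_cast h5
    linarith
  have hpd : (XX : Set (Finset V)).PairwiseDisjoint id := by
    intro X hX Y hY hne
    exact hdisj X hX Y hY hne
  have hbU : ∀ ZZ ⊆ XX, (∑ X ∈ ZZ, (∑ x ∈ X, (nb G x ∩ S).card)) ≤ d * S.card := by
    intro ZZ hZZ
    have h1 : (∑ X ∈ ZZ, (∑ x ∈ X, (nb G x ∩ S).card)) =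
        ∑ x ∈ ZZ.biUnion id, (nb G x ∩ S).card := by
      rw [Finset.sum_biUnion]
      · rfl
      · intro X hX Y hY hne
        exact hdisj X (hZZ hX) Y (hZZ hY) hne
    rw [h1]
    exact dcount G d S _ hdeg
  obtain ⟨X1, hX1⟩ : ∃ X1 : Finset (Finset V), X1 = XX.filter (fun X => X.card = 1) := ⟨_, rfl⟩
  obtain ⟨X2, hX2⟩ : ∃ X2 : Finset (Finset V),
    X2 = XX.filter (fun X => X.card ≠ 1 ∧ (X.card : ℝ) < d / 2) := ⟨_, rfl⟩
  obtain ⟨X3, hX3⟩ : ∃ X3 : Finset (Finset V),
    X3 = XX.filter (fun X => (d : ℝ) / 2 ≤ X.card) := ⟨_, rfl⟩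
  have hsum : XX.card ≤ X1.card + X2.card + X3.card := by
    have h1 : XX ⊆ X1 ∪ X2 ∪ X3 := by
      intro X hX
      rw [mem_union, mem_union, hX1, hX2, hX3, mem_filter, mem_filter, mem_filter]
      by_cases h1 : X.card = 1
      · exact Or.inl (Or.inl ⟨hX, h1⟩)
      · rcases lt_or_ge (X.card : ℝ) (d / 2) with h2 | h2
        · exact Or.inl (Or.inr ⟨hX, h1, h2⟩)
        · exact Or.inr ⟨hX, h2⟩
    have h2 := Finset.card_le_card h1
    have h3 := Finset.card_union_le (X1 ∪ X2) X3
    have h4 := Finset.card_union_le X1 X2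
    omega
  -- singletons
  have hs1 : (1 + η) * (X1.card : ℝ) ≤ S.card := by
    have h1 : (X1.biUnion id).card = X1.card := by
      rw [Finset.card_biUnion]
      · rw [Finset.card_eq_sum_ones]
        apply Finset.sum_congr rfl
        intro X hX
        rw [hX1, mem_filter] at hX
        exact hX.2
      · intro X hX Y hY hne
        rw [Finset.mem_coe, hX1, mem_filter] at hX hY
        exact hdisj X hX.1 Y hY.1 hne
    have h2 := hNB S (X1.biUnion id) hSU ?_ ?_ ?_
    · rw [h1] at h2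
      exact h2
    · intro x hx
      rw [mem_biUnion] at hx
      obtain ⟨X, hX, hxX⟩ := hx
      rw [hX1, mem_filter] at hX
      exact (hXX X hX.1).1 hxX
    · rw [Finset.disjoint_right]
      intro x hx
      rw [mem_biUnion] at hx
      obtain ⟨X, hX, hxX⟩ := hx
      rw [hX1, mem_filter] at hX
      exact Finset.disjoint_left.mp (hXX X hX.1).2.2.1 hxX
    · intro x hx y hy
      rw [mem_biUnion] at hx
      obtain ⟨X, hX, hxX⟩ := hx
      rw [hX1, mem_filter] at hX
      have h3 := (hXX X hX.1).2.2.2 x hxX hy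
      rw [mem_union] at h3
      rcases h3 with h3 | h3
      · exfalso
        have h4 := Finset.card_le_one.mp hX.2.le x hxX y h3
        rw [mem_inter, mem_nb, h4] at hy
        exact G.loopless.irrefl _ hy.1
      · exact h3
  -- edges into S
  have hs2 : (X1.card : ℝ) * (1 - η / 8) + 3 / 2 * X2.card ≤ S.card := by
    have h1 := hbU (X1 ∪ X2) (by
      rw [hX1, hX2]
      exact Finset.union_subset (Finset.filter_subset _ _) (Finset.filter_subset _ _))
    rw [Finset.sum_union] at h1
    · have h2 : (X1.card : ℝ) * ((1 - η / 8) * d) ≤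
          ∑ X ∈ X1, (∑ x ∈ X, ((nb G x ∩ S).card : ℝ)) := by
        rw [← nsmul_eq_mul, ← Finset.sum_const]
        apply Finset.sum_le_sum
        intro X hX
        rw [hX1, mem_filter] at hX
        obtain ⟨x, hx⟩ := Finset.card_pos.mp (by omega : 0 < X.card)
        have h3 := hlow X hX.1 x hx
        have h4 : ((nb G x ∩ S).card : ℝ) ≤ ∑ x ∈ X, ((nb G x ∩ S).card : ℝ) :=
          Finset.single_le_sum (f := fun x => ((nb G x ∩ S).card : ℝ))
            (fun _ _ => Nat.cast_nonneg _) hx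
        rw [hX.2] at h3
        push_cast at h3
        linarith
      have h3 : (X2.card : ℝ) * (3 / 2 * d) ≤
          ∑ X ∈ X2, (∑ x ∈ X, ((nb G x ∩ S).card : ℝ)) := by
        rw [← nsmul_eq_mul, ← Finset.sum_const]
        apply Finset.sum_le_sum
        intro X hX
        rw [hX2, mem_filter] at hX
        have h4 : (X.card : ℝ) * ((1 - η / 8) * d - X.card + 1) ≤
            ∑ x ∈ X, ((nb G x ∩ S).card : ℝ) := by
          rw [← nsmul_eq_mul, ← Finset.sum_const]
          apply Finset.sum_le_sum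
          intro x hx
          have := hlow X hX.1 x hx
          linarith
        refine le_trans ?_ h4
        obtain ⟨l, hl⟩ := (hXX X hX.1).2.1
        have h7 : (7 / 8 : ℝ) * d ≤ (1 - η / 8) * d :=
          mul_le_mul_of_nonneg_right (by linarith) (Nat.cast_nonneg _)
        rcases Nat.lt_or_ge l 2 with hl2 | hl2
        · have h5 : X.card = 3 := by
            have := hX.2.1
            omega
          rw [h5]
          push_cast
          linarith
        · have h5 : (5 : ℝ) ≤ X.card := by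
            exact_mod_cast (by omega : 5 ≤ X.card)
          have h6 : (3 / 8 : ℝ) * d ≤ (1 - η / 8) * d - X.card + 1 := by
            linarith [hX.2.2]
          calc (3 / 2 : ℝ) * d ≤ 5 * (3 / 8 * d) := by linarith
            _ ≤ X.card * ((1 - η / 8) * d - X.card + 1) :=
                mul_le_mul h5 h6 (by positivity) (by positivity)
      have h4 : ((∑ X ∈ X1, (∑ x ∈ X, (nb G x ∩ S).card) : ℕ) : ℝ) +
          ((∑ X ∈ X2, (∑ x ∈ X, (nb G x ∩ S).card) : ℕ) : ℝ) ≤ d * S.card := by
        exact_mod_cast h1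
      push_cast at h4
      have h5 : ((X1.card : ℝ) * (1 - η / 8) + 3 / 2 * X2.card) * d ≤ (S.card : ℝ) * d := by
        linarith
      exact le_of_mul_le_mul_right h5 (by linarith)
    · rw [Finset.disjoint_left]
      intro X h3 h4
      rw [hX1, mem_filter] at h3
      rw [hX2, mem_filter] at h4
      exact h4.2.1 h3.2
  have hp12 := numbers η X1.card X2.card S.card hη hη1 hs1 hs2 (Nat.cast_nonneg _)
  -- large components
  have hp3 : (X3.card : ℝ) ≤ 2 * C' := by
    have h1 : (X3.card : ℝ) * (d / 2) ≤ ∑ X ∈ X3, (X.card : ℝ) := by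
      rw [← nsmul_eq_mul, ← Finset.sum_const]
      apply Finset.sum_le_sum
      intro X hX
      rw [hX3, mem_filter] at hX
      exact hX.2
    have h2 : ∑ X ∈ X3, X.card ≤ U.card := by
      have h3 : ∑ X ∈ X3, X.card = (X3.biUnion id).card := by
        rw [Finset.card_biUnion]
        · rfl
        · intro X hX Y hY hne
          rw [Finset.mem_coe, hX3, mem_filter] at hX hY
          exact hdisj X hX.1 Y hY.1 hne
      rw [h3]
      apply Finset.card_le_card
      intro x hx
      rw [mem_biUnion] at hx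
      obtain ⟨X, hX, hxX⟩ := hx
      rw [hX3, mem_filter] at hX
      exact hLU ((hXX X hX.1).1 hxX)
    have h3 : ∑ X ∈ X3, (X.card : ℝ) ≤ U.card := by exact_mod_cast h2
    have h4 : (X3.card : ℝ) * (d / 2) ≤ (2 * C') * (d / 2) := by linarith
    exact le_of_mul_le_mul_right h4 (by linarith)
  have hSK : (S.card : ℝ) ≤ K := by
    have h1 : (S.card : ℝ) + 1 ≤ X1.card + X2.card + X3.card := by
      exact_mod_cast hcard.trans hsum
    have h2 : η / 8 * (S.card : ℝ) ≤ 2 * C' := by linarith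
    have h3 : η * (S.card : ℝ) ≤ η * K := by linarith
    exact le_of_mul_le_mul_left h3 hη
  -- all components are large
  have hall : ∀ X ∈ XX, (d : ℝ) / 2 ≤ X.card := by
    intro X hX
    obtain ⟨x, hx⟩ := Finset.card_pos.mp (hXX X hX).2.1.pos
    have h1 := hlow X hX x hx
    have h2 : ((nb G x ∩ S).card : ℝ) ≤ S.card := by
      exact_mod_cast Finset.card_le_card Finset.inter_subset_right
    have h3 : (7 / 8 : ℝ) * d ≤ (1 - η / 8) * d :=
      mul_le_mul_of_nonneg_right (by linarith) (Nat.cast_nonneg _)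
    linarith
  obtain ⟨Y, hY⟩ := Finset.card_pos.mp (by omega : 0 < XX.card)
  obtain ⟨hYL, hYodd, hYS, hYN⟩ := hXX Y hY
  rcases le_or_gt ((d : ℝ) / 2) ((U \ Y).card : ℝ) with h1 | h1
  · have h2 := hcut Y hYL (hall Y hY) h1
    have h3 : ∑ x ∈ Y, ((nb G x ∩ (U \ Y)).card : ℝ) ≤ d * S.card := by
      have h4 := dcount G d S Y hdeg
      have h5 : ∑ x ∈ Y, (nb G x ∩ (U \ Y)).card ≤ ∑ x ∈ Y, (nb G x ∩ S).card := by
        apply Finset.sum_le_sum
        intro x hx
        apply Finset.card_le_card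
        intro y hy
        rw [mem_inter, mem_sdiff] at hy
        have h6 := hYN x hx (mem_inter.mpr ⟨hy.1, hy.2.1⟩)
        rw [mem_union] at h6
        rcases h6 with h6 | h6
        · exact absurd h6 hy.2.2
        · exact mem_inter.mpr ⟨hy.1, h6⟩
      exact_mod_cast h5.trans h4
    have h4 : ρ * (d : ℝ) ^ 2 ≤ d * K := by
      refine h2.trans (h3.trans ?_)
      exact mul_le_mul_of_nonneg_left hSK (Nat.cast_nonneg _)
    have h5 : K < ρ * d := by
      have h6 : K / ρ < d := by linarith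
      rw [div_lt_iff₀ hρ] at h6
      linarith
    have h6 : d * K < (d : ℝ) * (ρ * d) := mul_lt_mul_of_pos_left h5 (by linarith)
    have h7 : (d : ℝ) * (ρ * d) = ρ * d ^ 2 := by ring
    linarith
  · have h2 : ∀ Z ∈ XX, Z = Y := by
      intro Z hZ
      by_contra hne
      have h3 : Z ⊆ U \ Y := by
        intro z hz
        rw [mem_sdiff]
        exact ⟨hLU ((hXX Z hZ).1 hz), Finset.disjoint_left.mp (hdisj Z hZ Y hY hne) hz⟩
      have h4 : (Z.card : ℝ) ≤ (U \ Y).card := by exact_mod_cast Finset.card_le_card h3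
      linarith [hall Z hZ]
    have h3 : XX.card ≤ 1 := by
      rw [Finset.card_le_one]
      intro a ha b hb
      rw [h2 a ha, h2 b hb]
    have hS0 : S = ∅ := by
      rw [← Finset.card_eq_zero]
      omega
    have hLY : L = Y := by
      apply Finset.Subset.antisymm _ hYL
      intro y hy
      by_contra hyY
      have h4 := hL y hy
      have h5 : nb G y ∩ U ⊆ U \ Y := by
        intro x hx
        rw [mem_inter, mem_nb] at hx
        rw [mem_sdiff]
        refine ⟨hx.2, ?_⟩
        intro hxY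
        have h6 := hYN x hxY (mem_inter.mpr ⟨mem_nb.mpr hx.1.symm, hLU hy⟩)
        rw [hS0, Finset.union_empty] at h6
        exact hyY h6
      have h6 : ((nb G y ∩ U).card : ℝ) ≤ (U \ Y).card := by
        exact_mod_cast Finset.card_le_card h5
      have h7 : (7 / 8 : ℝ) * d ≤ (1 - η / 8) * d :=
        mul_le_mul_of_nonneg_right (by linarith) (Nat.cast_nonneg _)
      linarith
    rw [hLY] at hLe
    exact (Nat.not_even_iff_odd.mpr hYodd) hLe

end Pool.Agent.Work.MP_db9399_dn.ML
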