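import Pool.Agent.Work.MP_db9399_dn.Interface
import Pool.Agent.Work.MP_db9399_all_helper34.VIZ

/-!
# CORE: if the vertices of degree `κ` are independent, then `κ` colours suffice for the edges
-/

set_option autoImplicit false

namespace Pool.Agent.Work.MP_db9399_dn.CORE

open Finset Classical
open Pool.Agent.Work.MP_db9399_all (nb)
open Pool.Agent.Work.MP_db9399_all.VIZ (EC del main_ind mem_nb)

universe u

theorem stmt_CORE : Stmt_CORE.{u} := by
  intro V _ G κ W h1 h2 h3
  let GS : Finset V → SimpleGraph V := fun S =>
    { Adj := fun x y => G.Adj x y ∧ x ∈ S ∧ y ∈ S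
      symm := ⟨fun _ _ h => ⟨h.1.symm, h.2.2, h.2.1⟩⟩
      loopless := ⟨fun x h => G.loopless.irrefl x h.1⟩ }
  have hle : ∀ S w, (nb (GS S) w).card ≤ (nb G w).card := by
    intro S w
    refine Finset.card_le_card ?_
    intro y hy
    exact mem_nb.mpr (mem_nb.mp hy).1
  have hdel : ∀ S : Finset V, ∀ v, v ∉ S → del (GS (insert v S)) v = GS S := by
    intro S v hv
    ext x y
    simp only [del, GS, Finset.mem_insert]
    constructor
    · rintro ⟨⟨h1, h2, h3⟩, h4, h5⟩
      exact ⟨h1, h2.resolve_left h4, h3.resolve_left h5⟩
    · rintro ⟨h1, h2, h3⟩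
      refine ⟨⟨h1, Or.inr h2, Or.inr h3⟩, ?_, ?_⟩
      · rintro rfl; exact hv h2
      · rintro rfl; exact hv h3
  have hall : ∀ v, (nb G v).card ≤ κ := by
    intro v
    by_cases hv : v ∈ W
    · exact h2 v hv
    · have := h1 v hv; omega
  have key1 : ∀ S : Finset V, (∀ v ∈ S, v ∉ W) → ∃ t, EC (GS S) (range κ) t := by
    intro S
    induction S using Finset.induction_on with
    | empty =>
      intro _
      refine ⟨fun _ _ => 0, fun _ _ _ => rfl, fun x y h => ?_, fun x y hy => ?_⟩
      · exact absurd h.2.1 (by simp)
      · exact absurd (mem_nb.mp hy).2.1 (by simp)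
    | insert v S hv ih =>
      intro hS
      apply main_ind κ (range κ) (by simp) (GS (insert v S)) v v
      · exact le_trans (hle _ _) (hall v)
      · intro w _
        exact le_trans (hle _ _) (hall w)
      · intro w hw _
        have hwS : w ∈ insert v S := (mem_nb.mp hw).2.2
        have := h1 w (hS w hwS)
        have := hle (insert v S) w
        omega
      · rw [hdel S v hv]
        exact ih (fun w hw => hS w (Finset.mem_insert_of_mem hw))
  have key2 : ∀ T : Finset V, T ⊆ W → ∃ t, EC (GS ((univ \ W) ∪ T)) (range κ) t := by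
    intro T
    induction T using Finset.induction_on with
    | empty =>
      intro _
      rw [Finset.union_empty]
      exact key1 _ (fun v hv => (Finset.mem_sdiff.mp hv).2)
    | insert v T hv ih =>
      intro hT
      have hvW : v ∈ W := hT (Finset.mem_insert_self _ _)
      have hins : (univ \ W) ∪ insert v T = insert v ((univ \ W) ∪ T) := by
        rw [Finset.union_insert]
      rw [hins]
      have hvn : v ∉ (univ \ W) ∪ T := by
        rw [Finset.mem_union, Finset.mem_sdiff]
        rintro (h | h)
        · exact h.2 hvW
        · exact hv h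
      apply main_ind κ (range κ) (by simp) (GS (insert v ((univ \ W) ∪ T))) v v
      · exact le_trans (hle _ _) (hall v)
      · intro w _
        exact le_trans (hle _ _) (hall w)
      · intro w hw _
        have hadj : G.Adj v w := (mem_nb.mp hw).1
        have hwW : w ∉ W := fun h => h3 v hvW w h hadj
        have := h1 w hwW
        have := hle (insert v ((univ \ W) ∪ T)) w
        omega
      · rw [hdel _ v hvn]
        exact ih (fun w hw => hT (Finset.mem_insert_of_mem hw))
  obtain ⟨t, ht⟩ := key2 W (Finset.Subset.refl _)
  have hU : GS ((univ \ W) ∪ W) = G := by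
    ext x y
    simp [GS]
  rw [hU] at ht
  refine ⟨fun v w => if G.Adj v w then t v w else 0, ?_, ?_, ?_⟩
  · intro v w
    by_cases h : G.Adj v w
    · simp only [if_pos h, if_pos h.symm]
      exact ht.sym v w h
    · simp only [if_neg h, if_neg (fun h' : G.Adj w v => h h'.symm)]
  · intro v w h
    simp only [if_pos h]
    exact Finset.mem_range.mp (ht.mem v w h)
  · intro v y hy z hz hyz
    have hy' : G.Adj v y := mem_nb.mp hy
    have hz' : G.Adj v z := mem_nb.mp hz
    simp only [if_pos hy', if_pos hz'] at hyz
    exact ht.inj v hy hz hyz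

end Pool.Agent.Work.MP_db9399_dn.CORE
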