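import Mathlib
import Pool.Agent.Work.MP_db9399_co.Defs
import Pool.Agent.Work.MP_db9399_all.Interface

/-!
# MP_db9399: Q1 for dense graphs with small chromatic number (owner helper43)

Definitions and the exact statement `Stmt_X` of every block. See `BLUEPRINT.md`.
-/

set_option autoImplicit false

namespace Pool.Agent.Work.MP_db9399_dn

open Finset Classical
open Pool.Agent.Work.MP_db9399_all (nb)
open _root_.MP_db9399_co

universe u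

section defs
variable {V : Type u} [Fintype V]

/-- `M` is a matching -/
def IsMat (M : SimpleGraph V) : Prop := ∀ v, (nb M v).card ≤ 1

/-- (NB): there is no almost bipartite almost component whose smaller side consists of vertices
of `L` -/
def NB (η : ℝ) (G : SimpleGraph V) (d : ℕ) (L : Finset V) : Prop :=
  ∀ S T : Finset V, Disjoint S T → T ⊆ L → (S.card : ℝ) ≤ (1 + η) * T.card →
    η * d * T.card ≤ ∑ t ∈ T, ((nb G t \ S).card : ℝ)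

/-- Partition `f` into pieces. `L` are the vertices of almost full degree, `T ⊆ L` the exceptional
ones, `B ⊆ T` those which are to be matched to vertices outside `L`. Parameters: `a` size of `T`,
`e` crossing degree, `γ` degree of the exceptional vertices into their piece, `g` size of a piece,
`ρ` connectivity of the pieces. -/
structure Pieces (G : SimpleGraph V) (d q : ℕ) (L : Finset V) (a e γ g ρ : ℝ) where
  f : V → Fin q
  T : Finset V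
  B : Finset V
  TL : T ⊆ L
  BT : B ⊆ T
  Tcard : (T.card : ℝ) ≤ a * d
  typ : ∀ v ∈ L, v ∉ T → (((nb G v).filter (fun w => f w ≠ f v)).card : ℝ) ≤ e * d
  exA : ∀ v ∈ T, v ∉ B →
    γ * d ≤ (((nb G v).filter (fun w => f w = f v ∧ w ∈ L ∧ w ∉ T)).card : ℝ)
  exB : ∀ v ∈ B, γ * d ≤ (((nb G v).filter (fun w => f w = f v ∧ w ∉ L)).card : ℝ)
  cut : ∀ (i : Fin q) (X : Finset V), (∀ x ∈ X, f x = i) → (d : ℝ) / 2 ≤ X.card →
    (d : ℝ) / 2 ≤ ((univ.filter (fun w => f w = i ∧ w ∉ X)).card : ℝ) →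
    ρ * d ^ 2 ≤ ∑ x ∈ X, (((nb G x).filter (fun w => f w = i ∧ w ∉ X)).card : ℝ)
  big : ∀ i : Fin q, (∀ v ∈ L, v ∉ T → f v ≠ i) ∨
    g * d ≤ ((L.filter (fun v => v ∉ T ∧ f v = i)).card : ℝ)

/-- One more matching can be found: `D` are the forbidden edges, `R` the forbidden vertices. -/
def StepProp {q : ℕ} (G : SimpleGraph V) (d : ℕ) (L B : Finset V) (f : V → Fin q) (δ : ℝ) : Prop :=
  ∀ (D : SimpleGraph V) (R : Finset V), (∀ v, ((nb D v).card : ℝ) ≤ δ * d) →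
    (R.card : ℝ) ≤ δ * d →
    (∀ i : Fin q, Even (L.filter (fun v => v ∉ B ∧ v ∉ R ∧ f v = i)).card) →
    ∃ M : SimpleGraph V, M ≤ G ∧ IsMat M ∧ (∀ v w, M.Adj v w → ¬ D.Adj v w ∧ v ∉ R) ∧
      ∀ v ∈ L, v ∉ R → (nb M v).Nonempty

/-- The vertex colouring `c` with colours in `Pal`, the forced edges `K b` of colour `b`, the missed
vertices `Miss b`, all in the reserved set `W`. `UH`, `c0`, `EH`, `t0` is the precolouring. -/
structure Plan {q : ℕ} (G : SimpleGraph V) (d k : ℕ) (L B : Finset V) (f : V → Fin q) (δ : ℝ)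
    (UH : Finset V) (c0 : V → Fin k) (EH : SimpleGraph V) (t0 : V → V → Fin k) where
  Pal : Finset (Fin k)
  c : V → Fin k
  K : Fin k → SimpleGraph V
  Miss : Fin k → Finset V
  W : Finset V
  palcard : (Pal.card : ℝ) ≤ δ * d
  cPal : ∀ v, c v ∈ Pal
  cadj : ∀ v w, G.Adj v w → c v ≠ c w
  cH : ∀ v ∈ UH, c v = c0 v
  Kle : ∀ b, K b ≤ G
  Kmat : ∀ b, IsMat (K b)
  Kc : ∀ b v w, (K b).Adj v w → c v ≠ b
  Kd : ∀ b b', b ≠ b' → ∀ v w, (K b).Adj v w → ¬ (K b').Adj v w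
  Kpal : ∀ b v w, (K b).Adj v w → b ∈ Pal
  KH : ∀ v w, EH.Adj v w → (K (t0 v w)).Adj v w
  KW : ∀ v ∈ W, ∀ w ∈ W, G.Adj v w → ∃ b, (K b).Adj v w
  MW : ∀ b, Miss b ⊆ W
  Mc : ∀ b, ∀ v ∈ Miss b, c v ≠ b ∧ ∀ w, ¬ (K b).Adj v w
  Md : ∀ b b', b ≠ b' → Disjoint (Miss b) (Miss b')
  Rcard : ∀ b ∈ Pal,
    ((univ.filter (fun v => c v = b ∨ v ∈ Miss b ∨ ∃ w, (K b).Adj v w)).card : ℝ) ≤ δ * d
  Rpar : ∀ b ∈ Pal, ∀ i : Fin q, Even (L.filter (fun v => v ∉ B ∧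
    v ∉ univ.filter (fun v => c v = b ∨ v ∈ Miss b ∨ ∃ w, (K b).Adj v w) ∧ f v = i)).card

/-- the matchings of the colours in `Pal` -/
structure Mats {q : ℕ} {G : SimpleGraph V} {d k : ℕ} {L B : Finset V} {f : V → Fin q} {δ : ℝ}
    {UH : Finset V} {c0 : V → Fin k} {EH : SimpleGraph V} {t0 : V → V → Fin k}
    (X : Plan G d k L B f δ UH c0 EH t0) where
  M : Fin k → SimpleGraph V
  Mle : ∀ b, M b ≤ G
  Mmat : ∀ b, IsMat (M b)
  MK : ∀ b, X.K b ≤ M b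
  Mpal : ∀ b v w, (M b).Adj v w → b ∈ X.Pal
  Mc : ∀ b v w, (M b).Adj v w → X.c v ≠ b
  Md : ∀ b b', b ≠ b' → ∀ v w, (M b).Adj v w → ¬ (M b').Adj v w
  Mcov : ∀ b ∈ X.Pal, ∀ v ∈ L, X.c v ≠ b → v ∉ X.Miss b → (nb (M b) v).Nonempty

/-- total colouring -/
def Tot {k : ℕ} (G : SimpleGraph V) (c : V → Fin k) (t : V → V → Fin k) : Prop :=
  (∀ v w, G.Adj v w → c v ≠ c w) ∧ (∀ v w, t v w = t w v) ∧
    (∀ v, Set.InjOn (t v) (nb G v : Set V)) ∧ ∀ v w, G.Adj v w → t v w ≠ c v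

end defs

/-! ## Blocks -/

/-- ML (from Tutte's theorem in Mathlib): matchings covering `L` inside `U`. -/
def Stmt_ML : Prop :=
  ∀ η ρ C : ℝ, 0 < η → η ≤ 1 → 0 < ρ → ∃ d0 : ℕ, ∀ {V : Type u} [Fintype V]
    (G : SimpleGraph V) (d : ℕ) (U L : Finset V), d0 ≤ d → L ⊆ U → (U.card : ℝ) ≤ C * d →
    (∀ v, (nb G v).card ≤ d) → (∀ v ∈ L, (1 - η / 8) * d ≤ ((nb G v ∩ U).card : ℝ)) →
    (∀ S T : Finset V, S ⊆ U → T ⊆ L → Disjoint S T → (∀ t ∈ T, nb G t ∩ U ⊆ S) →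
      (1 + η) * T.card ≤ (S.card : ℝ)) →
    (∀ X : Finset V, X ⊆ L → (d : ℝ) / 2 ≤ X.card → (d : ℝ) / 2 ≤ ((U \ X).card : ℝ) →
      ρ * d ^ 2 ≤ ∑ x ∈ X, ((nb G x ∩ (U \ X)).card : ℝ)) →
    Even L.card →
    ∃ M : SimpleGraph V, M ≤ G ∧ IsMat M ∧ (∀ v w, M.Adj v w → v ∈ U) ∧
      ∀ v ∈ L, (nb M v).Nonempty

/-- STEP (from ML): a piece partition gives `StepProp`. -/
def Stmt_STEP : Prop :=
  ∀ η γ ρ C : ℝ, 0 < η → η ≤ 1 → 0 < γ → 0 < ρ → 0 < C → ∃ (δ : ℝ) (d0 : ℕ), 0 < δ ∧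
    ∀ {V : Type u} [Fintype V] (G : SimpleGraph V) (d q : ℕ) (L : Finset V) (a e g : ℝ)
      (P : Pieces G d q L a e γ g ρ), d0 ≤ d → a ≤ δ → e ≤ δ → (Fintype.card V : ℝ) ≤ C * d →
      (∀ v, (nb G v).card ≤ d) → (∀ v ∈ L, (1 - η / 16) * d ≤ ((nb G v).card : ℝ)) →
      NB η G d L → StepProp G d L P.B P.f δ

/-- DEC: the partition into pieces, for every function `h` of the scale `ρ`. -/
def Stmt_DEC : Prop :=
  ∀ (C : ℝ) (h : ℝ → ℝ), 1 ≤ C → (∀ x, 0 < x → 0 < h x ∧ h x ≤ 1 / (32 * C)) →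
    ∃ (q0 : ℕ) (Rs : Finset ℝ) (d0 : ℕ), 0 < q0 ∧ (∀ ρ ∈ Rs, 0 < ρ) ∧
    ∀ {V : Type u} [Fintype V] (G : SimpleGraph V) (d : ℕ) (L : Finset V), d0 ≤ d →
      d ≤ Fintype.card V → (Fintype.card V : ℝ) ≤ C * d → (∀ v, (nb G v).card ≤ d) →
      (∀ v ∈ L, (3 : ℝ) / 4 * d ≤ ((nb G v).card : ℝ)) →
      ∃ ρ ∈ Rs, ∃ q ≤ q0, Nonempty (Pieces G d q L (h ρ) (h ρ / (64 * (q0 : ℝ) ^ 2))
        (1 / (16 * C)) (h ρ / (4 * q0)) ρ)

/-- CORE (from VIZ, `main_ind`): if the vertices of degree `κ` are independent, then `κ` colours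
suffice for the edges. -/
def Stmt_CORE : Prop :=
  ∀ {V : Type u} [Fintype V] (G : SimpleGraph V) (κ : ℕ) (W : Finset V),
    (∀ v, v ∉ W → (nb G v).card + 1 ≤ κ) → (∀ v ∈ W, (nb G v).card ≤ κ) →
    (∀ v ∈ W, ∀ w ∈ W, ¬ G.Adj v w) →
    ∃ t : V → V → ℕ, (∀ v w, t v w = t w v) ∧ (∀ v w, G.Adj v w → t v w < κ) ∧
      ∀ v, Set.InjOn (t v) (nb G v : Set V)

/-- CHOOSE (from VIZ): the plan exists. -/
def Stmt_CHOOSE : Prop :=
  ∀ (δ C g γ : ℝ) (q0 : ℕ), 0 < δ → 0 < C → 0 < g → 0 < γ → 0 < q0 →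
    ∃ (c : ℝ) (d0 : ℕ), 0 < c ∧
    ∀ {V : Type u} [Fintype V] (G : SimpleGraph V) (d q k : ℕ) (L : Finset V) (a e ρ : ℝ)
      (P : Pieces G d q L a e γ g ρ) (J : V → ℕ) (χ : ℕ) (UH : Finset V) (c0 : V → Fin k)
      (EH : SimpleGraph V) (t0 : V → V → Fin k), d0 ≤ d → d + 2 ≤ k → q ≤ q0 → e * (16 * q0) ≤ g →
      (Fintype.card V : ℝ) ≤ C * d → (∀ v, (nb G v).card ≤ d) →
      (χ : ℝ) ≤ c * d → (∀ v, J v < χ) → (∀ v w, G.Adj v w → J v ≠ J w) →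
      (UH.card : ℝ) ≤ c * d → (∀ v ∈ UH, ∀ w ∈ UH, G.Adj v w → c0 v ≠ c0 w) →
      EH ≤ G → IsMat EH →
      (∀ v w, EH.Adj v w → v ∈ UH ∧ t0 v w ≠ c0 v ∧ t0 v w = t0 w v) →
      Nonempty (Plan G d k L P.B P.f δ UH c0 EH t0)

/-- COL: the matchings, one after the other. -/
def Stmt_COL : Prop :=
  ∀ {V : Type u} [Fintype V] {q : ℕ} {G : SimpleGraph V} {d k : ℕ} {L B : Finset V}
    {f : V → Fin q} {δ : ℝ} {UH : Finset V} {c0 : V → Fin k} {EH : SimpleGraph V}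
    {t0 : V → V → Fin k} (X : Plan G d k L B f δ UH c0 EH t0), 0 < δ →
    StepProp G d L B f (2 * δ) → Nonempty (Mats X)

/-- ASM (from CORE): the total colouring. -/
def Stmt_ASM : Prop :=
  ∀ {V : Type u} [Fintype V] {q : ℕ} {G : SimpleGraph V} {d k : ℕ} {L B : Finset V}
    {f : V → Fin q} {δ : ℝ} {UH : Finset V} {c0 : V → Fin k} {EH : SimpleGraph V}
    {t0 : V → V → Fin k} (X : Plan G d k L B f δ UH c0 EH t0), Mats X → d + 2 ≤ k →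
    (∀ v, (nb G v).card ≤ d) → (∀ v, v ∉ L → (nb G v).card + X.Pal.card ≤ d + 1) →
    (∀ v w, EH.Adj v w → t0 v w = t0 w v) →
    ∃ t : V → V → Fin k, Tot G X.c t ∧ ∀ v w, EH.Adj v w → t v w = t0 v w

/-- THE THEOREM. -/
def Stmt_MAIN : Prop :=
  ∀ η : ℝ, 0 < η → ∃ (c : ℝ) (n0 : ℕ), 0 < c ∧ ∀ (V : Type u) [Fintype V] (G : SimpleGraph V)
    [DecidableRel G.Adj] (k m : ℕ), n0 ≤ Fintype.card V → η * Fintype.card V ≤ G.maxDegree →
    G.Colorable m → (m : ℝ) ≤ c * Fintype.card V →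
    (∀ S T : Finset V, Disjoint S T → (∀ t ∈ T, (1 - η) * G.maxDegree ≤ (G.degree t : ℝ)) →
      (S.card : ℝ) ≤ (1 + η) * T.card →
      η * G.maxDegree * T.card ≤ ((G.interedges T (univ \ S)).card : ℝ)) →
    G.maxDegree + 2 ≤ k →
    ∀ H : G.Subgraph, IsDistThreeMatching H → (H.edgeSet.ncard : ℝ) ≤ c * Fintype.card V →
      EveryTotalColoringExtends H (Fin k)

/-- FIND: the theorem from the blocks. -/
def Stmt_FIND : Prop := Stmt_STEP.{u} → Stmt_DEC.{u} → Stmt_CHOOSE.{u} → Stmt_COL.{u} →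
  Stmt_ASM.{u} → Stmt_MAIN.{u}

end Pool.Agent.Work.MP_db9399_dn
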