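import Pool.Agent.Work.MP_db9399_dn.CORE

/-!
# ASM: the total colouring from the matchings and CORE
-/

set_option autoImplicit false

namespace Pool.Agent.Work.MP_db9399_dn.ASM

open Finset Classical
open Pool.Agent.Work.MP_db9399_all (nb)
open Pool.Agent.Work.MP_db9399_all.VIZ (mem_nb)

universe u

section
variable {V : Type u} [Fintype V] {q : ℕ} {G : SimpleGraph V} {d k : ℕ} {L B : Finset V}
    {f : V → Fin q} {δ : ℝ} {UH : Finset V} {c0 : V → Fin k} {EH : SimpleGraph V}
    {t0 : V → V → Fin k}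

/-- the graph of the remaining edges -/
def rest {X : Plan G d k L B f δ UH c0 EH t0} (Y : Mats X) : SimpleGraph V where
  Adj x y := G.Adj x y ∧ ∀ b, ¬ (Y.M b).Adj x y
  symm := ⟨fun _ _ h => ⟨h.1.symm, fun b hb => h.2 b hb.symm⟩⟩
  loopless := ⟨fun x h => G.loopless.irrefl x h.1⟩

/-- degrees in the rest: every covering matching takes away one -/
theorem rest_deg {X : Plan G d k L B f δ UH c0 EH t0} (Y : Mats X) (v : V) (S : Finset (Fin k))
    (hS : ∀ b ∈ S, (nb (Y.M b) v).Nonempty) :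
    (nb (rest Y) v).card + S.card ≤ (nb G v).card := by
  have hdisj : ∀ b ∈ S, ∀ b' ∈ S, b ≠ b' → Disjoint (nb (Y.M b) v) (nb (Y.M b') v) := by
    intro b _ b' _ hbb
    rw [Finset.disjoint_left]
    intro w hw hw'
    exact Y.Md b b' hbb v w (mem_nb.mp hw) (mem_nb.mp hw')
  have h1 : S.card ≤ (S.biUnion (fun b => nb (Y.M b) v)).card := by
    rw [Finset.card_biUnion hdisj]
    calc S.card = ∑ _b ∈ S, 1 := by simp
      _ ≤ ∑ b ∈ S, (nb (Y.M b) v).card :=
        Finset.sum_le_sum fun b hb => Finset.card_pos.mpr (hS b hb)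
  have h2 : Disjoint (nb (rest Y) v) (S.biUnion (fun b => nb (Y.M b) v)) := by
    rw [Finset.disjoint_left]
    intro w hw hw'
    obtain ⟨b, _, hb⟩ := Finset.mem_biUnion.mp hw'
    exact (mem_nb.mp hw).2 b (mem_nb.mp hb)
  have h3 : nb (rest Y) v ∪ S.biUnion (fun b => nb (Y.M b) v) ⊆ nb G v := by
    intro w hw
    rcases Finset.mem_union.mp hw with h | h
    · exact mem_nb.mpr (mem_nb.mp h).1
    · obtain ⟨b, _, hb⟩ := Finset.mem_biUnion.mp h
      exact mem_nb.mpr (Y.Mle b (mem_nb.mp hb))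
  have h4 := Finset.card_le_card h3
  rw [Finset.card_union_of_disjoint h2] at h4
  omega

end

theorem stmt_ASM : Stmt_ASM.{u} := by
  intro V _ q G d k L B f δ UH c0 EH t0 X Y hdk hdeg hL _
  have hk : 0 < k := by omega
  have hPk : X.Pal.card ≤ k := by
    have := Finset.card_le_univ X.Pal
    rwa [Fintype.card_fin] at this
  set κ : ℕ := k - X.Pal.card with hκ
  -- degrees outside `W`
  have hd1 : ∀ v, v ∉ X.W → (nb (rest Y) v).card + 1 ≤ κ := by
    intro v hv
    by_cases hvL : v ∈ L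
    · have h1 := rest_deg Y v (X.Pal.erase (X.c v)) (by
        intro b hb
        rw [Finset.mem_erase] at hb
        exact Y.Mcov b hb.2 v hvL (fun h => hb.1 h.symm) (fun h => hv (X.MW b h)))
      rw [Finset.card_erase_of_mem (X.cPal v)] at h1
      have h2 : 0 < X.Pal.card := Finset.card_pos.mpr ⟨_, X.cPal v⟩
      have h3 := hdeg v
      omega
    · have h1 := rest_deg Y v ∅ (by simp)
      have h2 := hL v hvL
      rw [Finset.card_empty] at h1
      omega
  have hd2 : ∀ v ∈ X.W, (nb (rest Y) v).card ≤ κ := by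
    intro v hv
    by_cases hvL : v ∈ L
    · by_cases hm : ∃ b, v ∈ X.Miss b
      · obtain ⟨b0, hb0⟩ := hm
        have h1 := rest_deg Y v ((X.Pal.erase (X.c v)).erase b0) (by
          intro b hb
          rw [Finset.mem_erase, Finset.mem_erase] at hb
          refine Y.Mcov b hb.2.2 v hvL (fun h => hb.2.1 h.symm) (fun h => ?_)
          exact Finset.disjoint_left.mp (X.Md b b0 hb.1) h hb0)
        have h4 : (X.Pal.erase (X.c v)).card ≤ ((X.Pal.erase (X.c v)).erase b0).card + 1 :=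
          Nat.le_add_of_sub_le Finset.pred_card_le_card_erase
        rw [Finset.card_erase_of_mem (X.cPal v)] at h4
        have h2 : 0 < X.Pal.card := Finset.card_pos.mpr ⟨_, X.cPal v⟩
        have h3 := hdeg v
        omega
      · have h1 := rest_deg Y v (X.Pal.erase (X.c v)) (by
          intro b hb
          rw [Finset.mem_erase] at hb
          exact Y.Mcov b hb.2 v hvL (fun h => hb.1 h.symm) (fun h => hm ⟨b, h⟩))
        rw [Finset.card_erase_of_mem (X.cPal v)] at h1
        have h2 : 0 < X.Pal.card := Finset.card_pos.mpr ⟨_, X.cPal v⟩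
        have h3 := hdeg v
        omega
    · have h1 := rest_deg Y v ∅ (by simp)
      have h2 := hL v hvL
      rw [Finset.card_empty] at h1
      omega
  have hd3 : ∀ v ∈ X.W, ∀ w ∈ X.W, ¬ (rest Y).Adj v w := by
    intro v hv w hw h
    obtain ⟨b, hb⟩ := X.KW v hv w hw h.1
    exact h.2 b (Y.MK b hb)
  obtain ⟨t', hsym, hlt, hinj⟩ := CORE.stmt_CORE (rest Y) κ X.W hd1 hd2 hd3
  -- the colours outside the palette
  have hcard : (univ \ X.Pal : Finset (Fin k)).card = κ := by
    rw [Finset.card_sdiff_of_subset (Finset.subset_univ _), Finset.card_univ, Fintype.card_fin]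
  set φ : ℕ → Fin k := fun i => if h : i < κ then
    (((univ \ X.Pal).equivFinOfCardEq hcard).symm ⟨i, h⟩ : Fin k) else ⟨0, hk⟩ with hφ
  have hφP : ∀ i, i < κ → φ i ∉ X.Pal := by
    intro i hi
    simp only [hφ, dif_pos hi]
    exact (Finset.mem_sdiff.mp (((univ \ X.Pal).equivFinOfCardEq hcard).symm ⟨i, hi⟩).2).2
  have hφI : ∀ i j, i < κ → j < κ → φ i = φ j → i = j := by
    intro i j hi hj h
    simp only [hφ, dif_pos hi, dif_pos hj] at h
    have := ((univ \ X.Pal).equivFinOfCardEq hcard).symm.injective (Subtype.ext h)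
    simpa using this
  -- the colouring of the edges
  set t : V → V → Fin k := fun v w => if h : ∃ b, (Y.M b).Adj v w then h.choose else
    φ (t' v w) with ht
  have huniq : ∀ v w b b', (Y.M b).Adj v w → (Y.M b').Adj v w → b = b' := by
    intro v w b b' h h'
    by_contra hne
    exact Y.Md b b' hne v w h h'
  have htM : ∀ v w b, (Y.M b).Adj v w → t v w = b := by
    intro v w b h
    have he : ∃ b, (Y.M b).Adj v w := ⟨b, h⟩
    simp only [ht, dif_pos he]
    exact huniq v w _ _ he.choose_spec h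
  have htR : ∀ v w, (¬ ∃ b, (Y.M b).Adj v w) → t v w = φ (t' v w) := by
    intro v w h
    simp only [ht, dif_neg h]
  refine ⟨t, ⟨X.cadj, ?_, ?_, ?_⟩, ?_⟩
  · intro v w
    by_cases h : ∃ b, (Y.M b).Adj v w
    · obtain ⟨b, hb⟩ := h
      rw [htM v w b hb, htM w v b hb.symm]
    · have h' : ¬ ∃ b, (Y.M b).Adj w v := fun ⟨b, hb⟩ => h ⟨b, hb.symm⟩
      rw [htR v w h, htR w v h', hsym]
  · intro v y hy z hz hyz
    have hy' : G.Adj v y := mem_nb.mp hy
    have hz' : G.Adj v z := mem_nb.mp hz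
    by_cases h1 : ∃ b, (Y.M b).Adj v y
    · obtain ⟨b, hb⟩ := h1
      rw [htM v y b hb] at hyz
      by_cases h2 : ∃ b, (Y.M b).Adj v z
      · obtain ⟨b', hb'⟩ := h2
        rw [htM v z b' hb'] at hyz
        subst hyz
        exact Finset.card_le_one.mp (Y.Mmat b v) y (mem_nb.mpr hb) z (mem_nb.mpr hb')
      · rw [htR v z h2] at hyz
        have hz2 : (rest Y).Adj v z := ⟨hz', fun b' hb' => h2 ⟨b', hb'⟩⟩
        exact absurd (hyz ▸ Y.Mpal b v y hb) (hφP _ (hlt v z hz2))
    · have hy2 : (rest Y).Adj v y := ⟨hy', fun b' hb' => h1 ⟨b', hb'⟩⟩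
      rw [htR v y h1] at hyz
      by_cases h2 : ∃ b, (Y.M b).Adj v z
      · obtain ⟨b', hb'⟩ := h2
        rw [htM v z b' hb'] at hyz
        exact absurd (hyz ▸ Y.Mpal b' v z hb') (hφP _ (hlt v y hy2))
      · rw [htR v z h2] at hyz
        have hz2 : (rest Y).Adj v z := ⟨hz', fun b' hb' => h2 ⟨b', hb'⟩⟩
        exact hinj v (mem_nb.mpr hy2) (mem_nb.mpr hz2) (hφI _ _ (hlt v y hy2) (hlt v z hz2) hyz)
  · intro v w hvw
    by_cases h : ∃ b, (Y.M b).Adj v w
    · obtain ⟨b, hb⟩ := h
      rw [htM v w b hb]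
      exact (Y.Mc b v w hb).symm
    · have h2 : (rest Y).Adj v w := ⟨hvw, fun b' hb' => h ⟨b', hb'⟩⟩
      rw [htR v w h]
      intro he
      exact hφP _ (hlt v w h2) (he ▸ X.cPal v)
  · intro v w hvw
    exact htM v w _ (Y.MK _ (X.KH v w hvw))

end Pool.Agent.Work.MP_db9399_dn.ASM
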