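import Pool.Agent.Work.MP_db9399_dn.ChD

/-! Block CHOOSE of THEOREM DENSE. (helper43) -/

set_option autoImplicit false

namespace Pool.Agent.Work.MP_db9399_dn.CHOOSE

open Finset Classical
open Pool.Agent.Work.MP_db9399_all (nb)

universe u

theorem plan_empty {V : Type u} [Fintype V] [IsEmpty V] {q k : ℕ} (G : SimpleGraph V) (d : ℕ)
    (L B : Finset V) (f : V → Fin q) (δ : ℝ) (hδ : 0 < δ) (UH : Finset V) (c0 : V → Fin k)
    (EH : SimpleGraph V) (t0 : V → V → Fin k) :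
    Nonempty (Plan G d k L B f δ UH c0 EH t0) := by
  refine ⟨{
    Pal := ∅
    c := fun v => isEmptyElim v
    K := fun _ => ⊥
    Miss := fun _ => ∅
    W := ∅
    palcard := by simp; positivity
    cPal := fun v => isEmptyElim v
    cadj := fun v => isEmptyElim v
    cH := fun v => isEmptyElim v
    Kle := fun _ => bot_le
    Kmat := fun _ v => isEmptyElim v
    Kc := fun _ v => isEmptyElim v
    Kd := fun _ _ _ v => isEmptyElim v
    Kpal := fun _ v => isEmptyElim v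
    KH := fun v => isEmptyElim v
    KW := fun v => isEmptyElim v
    MW := fun _ => Finset.Subset.refl _
    Mc := fun _ v => isEmptyElim v
    Md := fun _ _ _ => Finset.disjoint_empty_left _
    Rcard := fun b hb => absurd hb (Finset.notMem_empty b)
    Rpar := fun b hb => absurd hb (Finset.notMem_empty b) }⟩

theorem stmt_CHOOSE : Stmt_CHOOSE.{u} := by
  classical
  intro δ C g γ q0 hδ hC hg hγ hq0
  obtain ⟨Q, hQ⟩ : ∃ Q : ℝ, Q = (q0 : ℝ) := ⟨_, rfl⟩
  have hQ1 : (1 : ℝ) ≤ Q := by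
    rw [hQ]
    exact_mod_cast hq0
  obtain ⟨μ, hμ⟩ : ∃ μ : ℝ, μ = min (min δ g) 1 := ⟨_, rfl⟩
  have hμ0 : 0 < μ := by
    rw [hμ]
    exact lt_min (lt_min hδ hg) one_pos
  have hμδ : μ ≤ δ := by
    rw [hμ]
    exact (min_le_left _ _).trans (min_le_left _ _)
  have hμg : μ ≤ g := by
    rw [hμ]
    exact (min_le_left _ _).trans (min_le_right _ _)
  have hμ1 : μ ≤ 1 := by
    rw [hμ]
    exact min_le_right _ _
  obtain ⟨c1, hc1⟩ : ∃ c1 : ℝ, c1 = μ / (64 * Q ^ 2) := ⟨_, rfl⟩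
  have hc10 : 0 < c1 := by
    rw [hc1]
    positivity
  have hc1μ : 64 * Q ^ 2 * c1 = μ := by
    rw [hc1]
    field_simp
  obtain ⟨c, hc⟩ : ∃ c : ℝ, c = c1 / (4 * Q) := ⟨_, rfl⟩
  have hc0' : 0 < c := by
    rw [hc]
    positivity
  have hcQ : 4 * Q * c = c1 := by
    rw [hc]
    field_simp
  refine ⟨c, ⌈(C / c1 + 2 + Q) / c⌉₊ + 1, hc0', ?_⟩
  intro V _ G d q k L a e ρ P J χ UH c0 EH t0 hd hk hq he hV hdeg hχ hJ hJp hUH hc0 hEG hEm hEH
  rcases isEmpty_or_nonempty V with hVe | hVe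
  · exact plan_empty G d L P.B P.f δ hδ UH c0 EH t0
  have hdR : (C / c1 + 2 + Q) / c ≤ (d : ℝ) := by
    have h1 := Nat.le_ceil ((C / c1 + 2 + Q) / c)
    have h2 : ((⌈(C / c1 + 2 + Q) / c⌉₊ : ℕ) : ℝ) ≤ (d : ℝ) := by
      exact_mod_cast (by omega : ⌈(C / c1 + 2 + Q) / c⌉₊ ≤ d)
    linarith
  have hcd : C / c1 + 2 + Q ≤ c * d := by
    rw [div_le_iff₀ hc0'] at hdR
    linarith
  have hd0 : (0 : ℝ) < d := by
    have : 0 < c * (d : ℝ) := lt_of_lt_of_le (by positivity) hcd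
    exact (mul_pos_iff_of_pos_left hc0').mp this
  have hqQ : (q : ℝ) ≤ Q := by
    rw [hQ]
    exact_mod_cast hq
  obtain ⟨x, hx⟩ : ∃ x : ℝ, x = c1 * d := ⟨_, rfl⟩
  have hx0 : 0 < x := by
    rw [hx]
    positivity
  have hxc : 4 * Q * (c * d) = x := by
    rw [hx, ← hcQ]
    ring
  have hx2 : 4 * Q * (2 + Q) ≤ x := by
    rw [← hxc]
    have h1 : 0 < C / c1 := by positivity
    have h2 : 2 + Q ≤ c * d := by linarith
    exact mul_le_mul_of_nonneg_left h2 (by positivity)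
  have hx3 : 2 * Q + 2 ≤ x := by
    have h1 : 0 ≤ 4 * Q ^ 2 := by positivity
    have h2 : 4 * Q * (2 + Q) = 8 * Q + 4 * Q ^ 2 := by ring
    linarith
  obtain ⟨β, hβ⟩ : ∃ β : ℕ, β = ⌈x⌉₊ := ⟨_, rfl⟩
  have hβ1 : x ≤ (β : ℝ) := by
    rw [hβ]
    exact Nat.le_ceil x
  have hβ2 : (β : ℝ) ≤ x + 1 := by
    rw [hβ]
    exact (Nat.ceil_lt_add_one hx0.le).le
  have hβ0 : 0 < β := by
    have : (0 : ℝ) < β := lt_of_lt_of_le hx0 hβ1
    exact_mod_cast this
  obtain ⟨J', hJ'1, hJ'2, hJ'3⟩ := split J χ β hβ0 hJ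
  obtain ⟨N, hN⟩ : ∃ N : ℕ, N = χ + Fintype.card V / β := ⟨_, rfl⟩
  rw [← hN] at hJ'1
  have hNr : (N : ℝ) ≤ 2 * (c * d) := by
    have h1 : ((Fintype.card V / β : ℕ) : ℝ) ≤ C / c1 := by
      refine (Nat.cast_div_le).trans ?_
      rw [div_le_div_iff₀ (by exact_mod_cast hβ0) hc10]
      calc (Fintype.card V : ℝ) * c1 ≤ (C * d) * c1 := mul_le_mul_of_nonneg_right hV hc10.le
        _ = C * x := by rw [hx]; ring
        _ ≤ C * β := mul_le_mul_of_nonneg_left hβ1 hC.le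
    rw [hN]
    push_cast
    linarith
  have hPP : 2 * (UH.card : ℝ) + N ≤ 4 * (c * d) := by linarith
  have hPP0 : 0 ≤ 2 * (UH.card : ℝ) + N := by positivity
  obtain ⟨w0, hw0⟩ : ∃ w0 : ℕ, w0 = (2 * UH.card + N) * q + β + 1 := ⟨_, rfl⟩
  have hw0r : (w0 : ℝ) ≤ 3 * x := by
    rw [hw0]
    push_cast
    have h1 : (2 * (UH.card : ℝ) + N) * q ≤ (4 * (c * d)) * Q :=
      mul_le_mul hPP hqQ (Nat.cast_nonneg _) (by positivity)
    have h2 : (4 * (c * d)) * Q = x := by rw [← hxc]; ring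
    linarith
  have hqw : (q : ℝ) * w0 ≤ 3 * Q * x := by
    calc (q : ℝ) * w0 ≤ Q * (3 * x) := mul_le_mul hqQ hw0r (Nat.cast_nonneg _) (by positivity)
      _ = 3 * Q * x := by ring
  have hcdx : 4 * (c * d) ≤ x := by
    have h1 : 0 ≤ c * d := by positivity
    have h2 := mul_le_mul_of_nonneg_right hQ1 h1
    have h3 : 4 * Q * (c * d) = 4 * (Q * (c * d)) := by ring
    linarith
  have hQx : x ≤ Q * x := le_mul_of_one_le_left hx0.le hQ1
  have hQQx : Q * x ≤ Q ^ 2 * x := by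
    have h1 := mul_le_mul_of_nonneg_left hQx (zero_le_one.trans hQ1)
    have h2 : Q ^ 2 * x = Q * (Q * x) := by ring
    linarith
  have hμx : 64 * (Q ^ 2 * x) = μ * d := by
    rw [hx, ← hc1μ]
    ring
  have hμd : μ * d ≤ δ * d := mul_le_mul_of_nonneg_right hμδ hd0.le
  have hμgd : μ * d ≤ g * d := mul_le_mul_of_nonneg_right hμg hd0.le
  have hμ1d : μ * d ≤ d := by
    have h1 := mul_le_mul_of_nonneg_right hμ1 hd0.le
    linarith
  have hUx : (UH.card : ℝ) ≤ x := by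
    have : c * d ≤ x := by
      have h1 : 0 < c * d := by positivity
      linarith
    linarith
  have hXi : ∀ i, (XX L P.T P.f i).Nonempty → g * d ≤ ((XX L P.T P.f i).card : ℝ) := by
    intro i hi
    rcases P.big i with h | h
    · obtain ⟨v, hv⟩ := hi
      rw [mem_XX] at hv
      exact absurd hv.2.2 (h v hv.1 hv.2.1)
    · exact h
  refine plan_of G d L P.T P.B P.f δ UH c0 EH t0 N β w0 ⌊e * d⌋₊ P.BT ?_ ?_ J' hJ'1 ?_ hJ'3 hc0
    hEG hEm hEH ?_ ?_ ?_ ?_ ?_
  · intro i hi v hv hvB hfv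
    have hvT : v ∈ P.T := by
      by_contra hvT
      have : v ∈ XX L P.T P.f i := mem_XX.mpr ⟨hv, hvT, hfv⟩
      rw [hi] at this
      exact absurd this (Finset.notMem_empty v)
    have h1 := P.exA v hvT hvB
    have h2 : (nb G v).filter (fun w => P.f w = P.f v ∧ w ∈ L ∧ w ∉ P.T) = ∅ := by
      rw [Finset.filter_eq_empty_iff]
      intro w _ h
      have : w ∈ XX L P.T P.f i := mem_XX.mpr ⟨h.2.1, h.2.2, h.1.trans hfv⟩
      rw [hi] at this
      exact absurd this (Finset.notMem_empty w)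
    rw [h2] at h1
    simp only [card_empty, Nat.cast_zero] at h1
    have h3 : 0 < γ * d := by positivity
    linarith
  · intro v hv hvT
    exact Nat.le_floor (P.typ v hv hvT)
  · intro v w hvw h
    exact hJp v w hvw (hJ'2 v w h)
  · have h1 : ((2 * UH.card + N + q * w0 : ℕ) : ℝ) ≤ (k : ℝ) := by
      push_cast
      have h2 : (d : ℝ) ≤ k := by exact_mod_cast (by omega : d ≤ k)
      linarith
    exact_mod_cast h1
  · omega
  · intro i hi
    have h1 := hXi i hi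
    have h2 : ((q * w0 * q + q * ⌊e * d⌋₊ + (q * w0 + UH.card) : ℕ) : ℝ) < g * d := by
      push_cast
      have h3 : (q : ℝ) * w0 * q ≤ 3 * (Q ^ 2 * x) := by
        calc (q : ℝ) * w0 * q ≤ (3 * Q * x) * Q :=
              mul_le_mul hqw hqQ (Nat.cast_nonneg _) (by positivity)
          _ = 3 * (Q ^ 2 * x) := by ring
      have h4 : (q : ℝ) * (⌊e * d⌋₊ : ℝ) ≤ g * d / 16 := by
        rcases le_or_gt 0 (e * d) with h5 | h5
        · calc (q : ℝ) * (⌊e * d⌋₊ : ℝ) ≤ Q * (e * d) :=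
                mul_le_mul hqQ (Nat.floor_le h5) (Nat.cast_nonneg _) (by positivity)
            _ = (e * (16 * q0)) * d / 16 := by rw [hQ]; ring
            _ ≤ g * d / 16 := by
                have := mul_le_mul_of_nonneg_right he hd0.le
                linarith
        · rw [Nat.floor_of_nonpos h5.le]
          simp only [Nat.cast_zero, mul_zero]
          positivity
      have h6 : 0 < g * d := by positivity
      linarith
    have h3 : ((q * w0 * q + q * ⌊e * d⌋₊ + (q * w0 + UH.card) : ℕ) : ℝ) <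
        ((XX L P.T P.f i).card : ℝ) := lt_of_lt_of_le h2 h1
    exact_mod_cast h3
  · push_cast
    linarith
  · push_cast
    have h1 : (0 : ℝ) < d := hd0
    linarith

end Pool.Agent.Work.MP_db9399_dn.CHOOSE
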