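import Pool.Agent.Work.MP_db9399_dn.Interface

/-! # Block COL (helper50) -/

set_option autoImplicit false

namespace Pool.Agent.Work.MP_db9399_dn.COL

open Finset Classical
open Pool.Agent.Work.MP_db9399_all (nb)
open _root_.MP_db9399_co
open Pool.Agent.Work.MP_db9399_dn

universe u

section
variable {V : Type u} [Fintype V]

lemma mem_nb {G : SimpleGraph V} {v w : V} : w ∈ nb G v ↔ G.Adj v w := by
  simp [nb]

variable {q : ℕ} {G : SimpleGraph V} {d k : ℕ} {L B : Finset V}
    {f : V → Fin q} {δ : ℝ} {UH : Finset V} {c0 : V → Fin k} {EH : SimpleGraph V}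
    {t0 : V → V → Fin k} (X : Plan G d k L B f δ UH c0 EH t0)

structure Inv (S : Finset (Fin k)) where
  M : Fin k → SimpleGraph V
  Mle : ∀ b, M b ≤ G
  Mmat : ∀ b, IsMat (M b)
  MK : ∀ b, X.K b ≤ M b
  Mpal : ∀ b v w, (M b).Adj v w → b ∈ X.Pal
  Mc : ∀ b v w, (M b).Adj v w → X.c v ≠ b
  Md : ∀ b b', b ≠ b' → ∀ v w, (M b).Adj v w → ¬ (M b').Adj v w
  Mcov : ∀ b ∈ S, ∀ v ∈ L, X.c v ≠ b → v ∉ X.Miss b → (nb (M b) v).Nonempty
  Mout : ∀ b, b ∉ S → M b = X.K b

lemma base : Nonempty (Inv X ∅) :=
  ⟨{ M := X.K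
     Mle := X.Kle
     Mmat := X.Kmat
     MK := fun _ => le_refl _
     Mpal := X.Kpal
     Mc := X.Kc
     Md := X.Kd
     Mcov := by intro b hb; simp at hb
     Mout := fun _ _ => rfl }⟩

lemma step (hδ : 0 < δ) (hS : StepProp G d L B f (2 * δ)) (S : Finset (Fin k)) (b : Fin k)
    (hb : b ∈ X.Pal) (hbS : b ∉ S) (I : Inv X S) : Nonempty (Inv X (insert b S)) := by
  let D : SimpleGraph V :=
    { Adj := fun v w => ∃ b', (I.M b').Adj v w
      symm := ⟨fun v w ⟨b', h⟩ => ⟨b', h.symm⟩⟩
      loopless := ⟨fun v ⟨b', h⟩ => (I.M b').loopless.irrefl v h⟩ }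
  let R : Finset V := univ.filter (fun v => X.c v = b ∨ v ∈ X.Miss b ∨ ∃ w, (X.K b).Adj v w)
  have hDcard : ∀ v, ((nb D v).card : ℝ) ≤ 2 * δ * d := by
    intro v
    have h1 : nb D v ⊆ X.Pal.biUnion (fun b' => nb (I.M b') v) := by
      intro w hw
      rw [mem_nb] at hw
      obtain ⟨b', hb'⟩ := hw
      exact mem_biUnion.mpr ⟨b', I.Mpal b' v w hb', mem_nb.mpr hb'⟩
    have h2 : (nb D v).card ≤ X.Pal.card := by
      refine (card_le_card h1).trans ((card_biUnion_le).trans ?_)
      calc ∑ b' ∈ X.Pal, (nb (I.M b') v).card ≤ ∑ b' ∈ X.Pal, 1 :=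
            Finset.sum_le_sum (fun b' _ => I.Mmat b' v)
        _ = X.Pal.card := by simp
    have h3 : ((nb D v).card : ℝ) ≤ X.Pal.card := by exact_mod_cast h2
    have h4 := X.palcard
    have h5 : 0 ≤ δ * d := by positivity
    linarith
  have hRcard : (R.card : ℝ) ≤ 2 * δ * d := by
    have h4 := X.Rcard b hb
    have h5 : 0 ≤ δ * d := by positivity
    show ((univ.filter (fun v => X.c v = b ∨ v ∈ X.Miss b ∨ ∃ w, (X.K b).Adj v w)).card : ℝ) ≤ _
    linarith
  obtain ⟨N, hNG, hNm, hND, hNc⟩ := hS D R hDcard hRcard (X.Rpar b hb)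
  have hRK : ∀ v w, (X.K b).Adj v w → v ∈ R := by
    intro v w h
    simp only [R, mem_filter, mem_univ, true_and]
    exact Or.inr (Or.inr ⟨w, h⟩)
  have hRc : ∀ v, X.c v = b → v ∈ R := by
    intro v h
    simp only [R, mem_filter, mem_univ, true_and]
    exact Or.inl h
  have hMb : I.M b = X.K b := I.Mout b hbS
  refine ⟨{ M := fun b' => if b' = b then X.K b ⊔ N else I.M b'
            Mle := ?_, Mmat := ?_, MK := ?_, Mpal := ?_, Mc := ?_, Md := ?_, Mcov := ?_,
            Mout := ?_ }⟩
  · intro b'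
    by_cases h : b' = b
    · simp only [h, if_true]
      exact sup_le (X.Kle b) hNG
    · simp only [h, if_false]; exact I.Mle b'
  · intro b'
    by_cases h : b' = b
    · simp only [h, if_true]
      intro v
      by_cases hv : v ∈ R
      · refine (card_le_card ?_).trans (X.Kmat b v)
        intro w hw
        rw [mem_nb] at hw ⊢
        rcases hw with hw | hw
        · exact hw
        · exact absurd hv (hND v w hw).2
      · refine (card_le_card ?_).trans (hNm v)
        intro w hw
        rw [mem_nb] at hw ⊢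
        rcases hw with hw | hw
        · exact absurd (hRK v w hw) hv
        · exact hw
    · simp only [h, if_false]; exact I.Mmat b'
  · intro b'
    by_cases h : b' = b
    · simp only [h, if_true]; exact le_sup_left
    · simp only [h, if_false]; exact I.MK b'
  · intro b' v w hvw
    by_cases h : b' = b
    · rw [h]; exact hb
    · simp only [h, if_false] at hvw; exact I.Mpal b' v w hvw
  · intro b' v w hvw
    by_cases h : b' = b
    · simp only [h, if_true] at hvw
      rw [h]
      rcases hvw with hvw | hvw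
      · exact X.Kc b v w hvw
      · intro hc
        exact (hND v w hvw).2 (hRc v hc)
    · simp only [h, if_false] at hvw; exact I.Mc b' v w hvw
  · intro b1 b2 hne v w h1 h2
    have key : ∀ b', b' ≠ b → (X.K b ⊔ N).Adj v w → (I.M b').Adj v w → False := by
      intro b' hb' h3 h4
      rcases h3 with h3 | h3
      · exact I.Md b b' (Ne.symm hb') v w (by rw [hMb]; exact h3) h4
      · exact (hND v w h3).1 ⟨b', h4⟩
    by_cases hb1 : b1 = b
    · have hb2 : b2 ≠ b := fun h => hne (hb1.trans h.symm)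
      simp only [hb1, if_true] at h1
      simp only [hb2, if_false] at h2
      exact key b2 hb2 h1 h2
    · simp only [hb1, if_false] at h1
      by_cases hb2 : b2 = b
      · simp only [hb2, if_true] at h2
        exact key b1 hb1 h2 h1
      · simp only [hb2, if_false] at h2
        exact I.Md b1 b2 hne v w h1 h2
  · intro b' hb' v hv hcv hmiss
    by_cases h : b' = b
    · simp only [h, if_true]
      rw [h] at hcv hmiss
      by_cases hvR : v ∈ R
      · simp only [R, mem_filter, mem_univ, true_and] at hvR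
        rcases hvR with h1 | h1 | ⟨w, h1⟩
        · exact absurd h1 hcv
        · exact absurd h1 hmiss
        · exact ⟨w, mem_nb.mpr (Or.inl h1)⟩
      · obtain ⟨w, hw⟩ := hNc v hv hvR
        exact ⟨w, mem_nb.mpr (Or.inr (mem_nb.mp hw))⟩
    · simp only [h, if_false]
      rcases mem_insert.mp hb' with h1 | h1
      · exact absurd h1 h
      · exact I.Mcov b' h1 v hv hcv hmiss
  · intro b' hb'
    have h : b' ≠ b := fun h => hb' (h ▸ mem_insert_self _ _)
    simp only [h, if_false]
    exact I.Mout b' (fun h1 => hb' (mem_insert_of_mem h1))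

lemma all (hδ : 0 < δ) (hS : StepProp G d L B f (2 * δ)) (S : Finset (Fin k))
    (h : S ⊆ X.Pal) : Nonempty (Inv X S) := by
  induction S using Finset.induction_on with
  | empty => exact base X
  | insert b S hb ih =>
    obtain ⟨I⟩ := ih (fun x hx => h (mem_insert_of_mem hx))
    exact step X hδ hS S b (h (mem_insert_self _ _)) hb I

end

theorem stmt_COL : Stmt_COL.{u} := by
  intro V _ q G d k L B f δ UH c0 EH t0 X hδ hS
  obtain ⟨I⟩ := all X hδ hS X.Pal (le_refl _)
  exact ⟨{ M := I.M, Mle := I.Mle, Mmat := I.Mmat, MK := I.MK, Mpal := I.Mpal, Mc := I.Mc,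
           Md := I.Md, Mcov := I.Mcov }⟩

end Pool.Agent.Work.MP_db9399_dn.COL
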