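import Pool.Agent.Work.MP_db9399_dn.Interface

/-! Block CHOOSE of THEOREM DENSE, part A: general lemmas. (helper43) -/

set_option autoImplicit false

namespace Pool.Agent.Work.MP_db9399_dn.CHOOSE

open Finset Classical
open Pool.Agent.Work.MP_db9399_all (nb)

universe u

theorem mem_nb {V : Type u} [Fintype V] {G : SimpleGraph V} {v w : V} :
    w ∈ nb G v ↔ G.Adj v w := by
  simp [nb]

/-- splitting of the colour classes into parts of size at most `β` -/
theorem split {V : Type u} [Fintype V] (J : V → ℕ) (χ β : ℕ) (hβ : 0 < β) (hJ : ∀ v, J v < χ) :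
    ∃ J' : V → ℕ, (∀ v, J' v < χ + Fintype.card V / β) ∧ (∀ v w, J' v = J' w → J v = J w) ∧
      ∀ j, (univ.filter (fun v => J' v = j)).card ≤ β := by
  classical
  let e := Fintype.equivFin V
  let lt : V → V → Prop := fun w v => J w < J v ∨ (J w = J v ∧ e w < e v)
  have ltt : ∀ a b c, lt a b → lt b c → lt a c := by
    intro a b c hab hbc
    rcases hab with h1 | ⟨h1, h2⟩ <;> rcases hbc with h3 | ⟨h3, h4⟩
    · exact Or.inl (h1.trans h3)
    · exact Or.inl (h3 ▸ h1)
    · exact Or.inl (h1 ▸ h3)
    · exact Or.inr ⟨h1.trans h3, h2.trans h4⟩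
  have lti : ∀ a, ¬ lt a a := by
    intro a h
    rcases h with h | ⟨_, h⟩
    · exact lt_irrefl _ h
    · exact lt_irrefl _ h
  let r : V → ℕ := fun v => (univ.filter (fun w => lt w v)).card
  have rmono : ∀ a b, lt a b → r a < r b := by
    intro a b hab
    apply Finset.card_lt_card
    refine ⟨?_, ?_⟩
    · intro x hx
      simp only [mem_filter, mem_univ, true_and] at hx ⊢
      exact ltt _ _ _ hx hab
    · intro h
      have h1 : a ∈ univ.filter (fun w => lt w b) := by simp [hab]
      have h2 := h h1
      simp only [mem_filter, mem_univ, true_and] at h2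
      exact lti a h2
  have tot : ∀ a b, a ≠ b → lt a b ∨ lt b a := by
    intro a b hab
    rcases lt_trichotomy (J a) (J b) with h | h | h
    · exact Or.inl (Or.inl h)
    · rcases lt_trichotomy (e a) (e b) with h' | h' | h'
      · exact Or.inl (Or.inr ⟨h, h'⟩)
      · exact absurd (e.injective h') hab
      · exact Or.inr (Or.inr ⟨h.symm, h'⟩)
    · exact Or.inr (Or.inl h)
  have rinj : Function.Injective r := by
    intro a b hab
    by_contra hne
    rcases tot a b hne with h | h
    · exact absurd hab (rmono a b h).ne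
    · exact absurd hab.symm (rmono b a h).ne
  have rlt : ∀ v, r v < Fintype.card V := by
    intro v
    rw [← Finset.card_univ]
    apply Finset.card_lt_card
    refine ⟨Finset.subset_univ _, ?_⟩
    intro h
    have h2 := h (mem_univ v)
    simp only [mem_filter, mem_univ, true_and] at h2
    exact lti v h2
  have key : ∀ a b, J a < J b → J a + r a / β < J b + r b / β := by
    intro a b hab
    have h1 := (rmono a b (Or.inl hab)).le
    have h2 := Nat.div_le_div_right (c := β) h1
    omega
  refine ⟨fun v => J v + r v / β, ?_, ?_, ?_⟩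
  · intro v
    have h1 := Nat.div_le_div_right (c := β) (rlt v).le
    have h2 := hJ v
    simp only
    omega
  · intro v w hvw
    simp only at hvw
    by_contra hne
    rcases Nat.lt_or_gt_of_ne hne with h | h
    · exact absurd hvw (key v w h).ne
    · exact absurd hvw.symm (key w v h).ne
  · intro j
    by_cases hem : (univ.filter (fun v => J v + r v / β = j)) = ∅
    · simp only
      rw [hem]
      simp
    · obtain ⟨x, hx⟩ := Finset.nonempty_iff_ne_empty.mpr hem
      simp only [mem_filter, mem_univ, true_and] at hx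
      have hsub : (univ.filter (fun v => J v + r v / β = j)).image r ⊆
          Finset.Ico (β * (r x / β)) (β * (r x / β) + β) := by
        intro y hy
        simp only [mem_image, mem_filter, mem_univ, true_and] at hy
        obtain ⟨v, hv, rfl⟩ := hy
        have hJ' : J v = J x := by
          by_contra hne
          rcases Nat.lt_or_gt_of_ne hne with h | h
          · exact absurd (hv.trans hx.symm) (key v x h).ne
          · exact absurd (hx.trans hv.symm) (key x v h).ne
        have hr : r v / β = r x / β := by omega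
        rw [← hr]
        simp only [mem_Ico]
        have h1 := Nat.div_add_mod (r v) β
        have h2 := Nat.mod_lt (r v) hβ
        constructor <;> omega
      have h3 := Finset.card_le_card hsub
      rw [Finset.card_image_of_injective _ rinj] at h3
      simp only [Nat.card_Ico] at h3
      simp only
      omega

/-- greedy choice -/
theorem greedy {V : Type u} [Fintype V] [Nonempty V] {ι : Type*} (I : Finset ι) (A : ι → Finset V)
    (Rel : ι → ι → V → V → Prop) (n : ι → ι → ℕ)
    (hsym : ∀ x y v w, Rel x y v w → Rel y x w v)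
    (h : ∀ x ∈ I, ∀ y ∈ I, ∀ w ∈ A y, ((A x).filter (fun v => Rel x y v w)).card ≤ n x y)
    (hA : ∀ x ∈ I, ∑ y ∈ I, n x y < (A x).card) :
    ∃ z : ι → V, ∀ x ∈ I, z x ∈ A x ∧ ∀ y ∈ I, y ≠ x → ¬ Rel x y (z x) (z y) := by
  classical
  induction I using Finset.induction_on with
  | empty => exact ⟨fun _ => Classical.arbitrary V, by simp⟩
  | insert a I ha ih =>
    have h1 : ∃ z : ι → V, ∀ x ∈ I, z x ∈ A x ∧ ∀ y ∈ I, y ≠ x → ¬ Rel x y (z x) (z y) := by
      apply ih
      · intro x hx y hy
        exact h x (mem_insert_of_mem hx) y (mem_insert_of_mem hy)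
      · intro x hx
        have h2 := hA x (mem_insert_of_mem hx)
        rw [Finset.sum_insert ha] at h2
        omega
    obtain ⟨z, hz⟩ := h1
    have h2 : ((A a) \ I.biUnion (fun y => (A a).filter (fun v => Rel a y v (z y)))).Nonempty := by
      rw [← Finset.card_pos]
      have h3 := Finset.le_card_sdiff (I.biUnion (fun y => (A a).filter
        (fun v => Rel a y v (z y)))) (A a)
      have h4 : (I.biUnion (fun y => (A a).filter (fun v => Rel a y v (z y)))).card ≤
          ∑ y ∈ I, n a y := by
        refine (Finset.card_biUnion_le).trans ?_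
        apply Finset.sum_le_sum
        intro y hy
        exact h a (mem_insert_self _ _) y (mem_insert_of_mem hy) (z y) (hz y hy).1
      have h5 := hA a (mem_insert_self _ _)
      rw [Finset.sum_insert ha] at h5
      omega
    obtain ⟨v, hv⟩ := h2
    simp only [mem_sdiff, mem_biUnion, mem_filter, not_exists, not_and] at hv
    refine ⟨Function.update z a v, ?_⟩
    intro x hx
    rw [mem_insert] at hx
    rcases hx with rfl | hx
    · refine ⟨by simpa using hv.1, ?_⟩
      intro y hy hyx
      rw [mem_insert] at hy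
      rcases hy with rfl | hy
      · exact absurd rfl hyx
      · rw [Function.update_self, Function.update_of_ne hyx]
        exact hv.2 y hy hv.1
    · have hxa : x ≠ a := by
        rintro rfl
        exact ha hx
      refine ⟨by rw [Function.update_of_ne hxa]; exact (hz x hx).1, ?_⟩
      intro y hy hyx
      rw [mem_insert] at hy
      rcases hy with rfl | hy
      · rw [Function.update_self, Function.update_of_ne hxa]
        intro hr
        exact hv.2 x hx hv.1 (hsym _ _ _ _ hr)
      · have hya : y ≠ a := by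
          rintro rfl
          exact ha hy
        rw [Function.update_of_ne hxa, Function.update_of_ne hya]
        exact (hz x hx).2 y hy hyx

/-- edge colouring of the inner edges of `W` with at least `|W|` colours -/
theorem matchW {V : Type u} [Fintype V] {k : ℕ} (G : SimpleGraph V) (W : Finset V)
    (Q : Finset (Fin k)) (hWQ : W.card ≤ Q.card) :
    ∃ K : Fin k → SimpleGraph V, (∀ b, K b ≤ G) ∧
      (∀ b v w, (K b).Adj v w → v ∈ W ∧ w ∈ W ∧ b ∈ Q) ∧ (∀ b, IsMat (K b)) ∧
      (∀ b b', b ≠ b' → ∀ v w, (K b).Adj v w → ¬ (K b').Adj v w) ∧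
      (∀ v ∈ W, ∀ w ∈ W, G.Adj v w → ∃ b ∈ Q, (K b).Adj v w) := by
  classical
  by_cases hW : W = ∅
  · subst hW
    exact ⟨fun _ => ⊥, fun _ => bot_le, by simp, by simp [IsMat, nb], by simp, by simp⟩
  have hpos : 0 < W.card := Finset.card_pos.mpr (Finset.nonempty_iff_ne_empty.mpr hW)
  obtain ⟨m, hm⟩ : ∃ m, W.card = m + 1 := ⟨W.card - 1, by omega⟩
  obtain ⟨Q', hQ', hcard⟩ := Finset.exists_subset_card_eq (s := Q) (n := W.card) hWQ
  let ι : W ≃ Fin (m + 1) := W.equivFinOfCardEq hm
  let κ : Q' ≃ Fin (m + 1) := Q'.equivFinOfCardEq (hcard.trans hm)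
  let K : Fin k → SimpleGraph V := fun b =>
    { Adj := fun v w => G.Adj v w ∧ ∃ (hv : v ∈ W) (hw : w ∈ W),
        ((κ.symm (ι ⟨v, hv⟩ + ι ⟨w, hw⟩) : Q') : Fin k) = b
      symm := ⟨by
        rintro v w ⟨h1, hv, hw, h2⟩
        exact ⟨h1.symm, hw, hv, by rw [add_comm (ι ⟨w, hw⟩)]; exact h2⟩⟩
      loopless := ⟨by
        rintro v ⟨h1, _⟩
        exact G.loopless.irrefl v h1⟩ }
  refine ⟨K, ?_, ?_, ?_, ?_, ?_⟩
  · intro b v w h
    exact h.1
  · rintro b v w ⟨h1, hv, hw, h2⟩
    refine ⟨hv, hw, hQ' ?_⟩
    rw [← h2]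
    exact (κ.symm _).2
  · intro b v
    rw [Finset.card_le_one]
    intro x hx y hy
    rw [mem_nb] at hx hy
    obtain ⟨h1, hv, hw, h2⟩ := hx
    obtain ⟨h1', hv', hw', h2'⟩ := hy
    have h3 := Subtype.ext (h2.trans h2'.symm)
    have h4 := κ.symm.injective h3
    have h5 := ι.injective (add_left_cancel h4)
    exact congrArg Subtype.val h5
  · rintro b b' hbb v w ⟨h1, hv, hw, h2⟩ ⟨h1', hv', hw', h2'⟩
    exact hbb (h2.symm.trans h2')
  · intro v hv w hw h
    exact ⟨_, hQ' (κ.symm (ι ⟨v, hv⟩ + ι ⟨w, hw⟩)).2, h, hv, hw, rfl⟩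

/-- parity -/
theorem even_erase {V : Type u} (S : Finset V) (x : V) (hx : x ∈ S) (hS : ¬ Even S.card) :
    Even (S.erase x).card := by
  rw [Finset.card_erase_of_mem hx]
  rw [Nat.not_even_iff_odd] at hS
  exact Nat.Odd.sub_odd hS odd_one

end Pool.Agent.Work.MP_db9399_dn.CHOOSE
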