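import Pool.Agent.Work.MP_db9399_dn.ChA

/-! Block CHOOSE of THEOREM DENSE, part B: the vertices `z`, the reserved set `W`. (helper43) -/

set_option autoImplicit false

namespace Pool.Agent.Work.MP_db9399_dn.CHOOSE

open Finset Classical
open Pool.Agent.Work.MP_db9399_all (nb)

universe u

/-- vertex `v` is covered by `K` -/
def cov {V : Type u} (K : SimpleGraph V) (v : V) : Prop := ∃ w, K.Adj v w

/-- the good vertices of piece `i` -/
noncomputable def XX {V : Type u} {q : ℕ} (L T : Finset V) (f : V → Fin q) (i : Fin q) : Finset V :=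
  L.filter (fun v => v ∉ T ∧ f v = i)

theorem mem_XX {V : Type u} {q : ℕ} {L T : Finset V} {f : V → Fin q} {i : Fin q} {v : V} :
    v ∈ XX L T f i ↔ v ∈ L ∧ v ∉ T ∧ f v = i := by
  simp [XX]

/-- the reserved sets -/
theorem exists_W {V : Type u} [Fintype V] {q : ℕ} (X : Fin q → Finset V) (UH : Finset V) (w0 : ℕ)
    (hX : ∀ i, (X i).Nonempty → w0 + UH.card ≤ (X i).card) :
    ∃ Wi : Fin q → Finset V, (∀ i, Wi i ⊆ X i \ UH) ∧ (∀ i, (X i).Nonempty → (Wi i).card = w0) ∧
      (univ.biUnion Wi).card ≤ q * w0 := by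
  classical
  have h : ∀ i, ∃ S : Finset V, S ⊆ X i \ UH ∧ ((X i).Nonempty → S.card = w0) ∧ S.card ≤ w0 := by
    intro i
    by_cases hi : (X i).Nonempty
    · have h1 := hX i hi
      have h2 := Finset.le_card_sdiff UH (X i)
      obtain ⟨S, hS, hc⟩ := Finset.exists_subset_card_eq (s := X i \ UH) (n := w0) (by omega)
      exact ⟨S, hS, fun _ => hc, hc.le⟩
    · exact ⟨∅, by simp, fun h => absurd h hi, by simp⟩
  choose Wi h1 h2 h3 using h
  refine ⟨Wi, h1, h2, ?_⟩
  refine (Finset.card_biUnion_le).trans ?_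
  calc ∑ i : Fin q, (Wi i).card ≤ ∑ _i : Fin q, w0 := Finset.sum_le_sum (fun i _ => h3 i)
    _ = q * w0 := by simp

/-- the vertices `z` -/
theorem exists_z {V : Type u} [Fintype V] [Nonempty V] {q k : ℕ} (G : SimpleGraph V)
    (L T : Finset V) (f : V → Fin q) (Y : Finset V) (Q : Finset (Fin k)) (E : ℕ)
    (hE : ∀ v ∈ L, v ∉ T → ((nb G v).filter (fun w => f w ≠ f v)).card ≤ E)
    (hX : ∀ i, (XX L T f i).Nonempty → Q.card * q + q * E + Y.card < (XX L T f i).card) :
    ∃ z : Fin k → Fin q → V, (∀ b ∈ Q, ∀ i, (XX L T f i).Nonempty → z b i ∈ XX L T f i ∧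
        z b i ∉ Y) ∧
      (∀ b ∈ Q, ∀ b' ∈ Q, ∀ i j, (XX L T f i).Nonempty → (XX L T f j).Nonempty →
        z b i = z b' j → b = b' ∧ i = j) ∧
      (∀ b ∈ Q, ∀ i j, (XX L T f i).Nonempty → (XX L T f j).Nonempty →
        ¬ G.Adj (z b i) (z b j)) := by
  classical
  let I : Finset (Fin k × Fin q) := Q ×ˢ (univ.filter (fun i => (XX L T f i).Nonempty))
  let A : Fin k × Fin q → Finset V := fun x => XX L T f x.2 \ Y
  let Rel : Fin k × Fin q → Fin k × Fin q → V → V → Prop := fun x y v w =>
    v = w ∨ (x.1 = y.1 ∧ x.2 ≠ y.2 ∧ G.Adj v w)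
  let n : Fin k × Fin q → Fin k × Fin q → ℕ := fun x y => 1 + (if y.1 = x.1 then E else 0)
  have hg := greedy I A Rel n ?_ ?_ ?_
  · obtain ⟨z, hz⟩ := hg
    refine ⟨fun b i => z (b, i), ?_, ?_, ?_⟩
    · intro b hb i hi
      have h1 := (hz (b, i) (by simp [I, hb, hi])).1
      simp only [A, mem_sdiff] at h1
      exact h1
    · intro b hb b' hb' i j hi hj hzz
      by_contra hne
      have h1 := (hz (b, i) (by simp [I, hb, hi])).2 (b', j) (by simp [I, hb', hj]) (by
        intro h
        apply hne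
        rw [Prod.mk.injEq] at h
        exact ⟨h.1.symm, h.2.symm⟩)
      exact h1 (Or.inl hzz)
    · intro b hb i j hi hj hadj
      by_cases hij : i = j
      · subst hij
        exact G.loopless.irrefl _ hadj
      · have h1 := (hz (b, i) (by simp [I, hb, hi])).2 (b, j) (by simp [I, hb, hj]) (by
          intro h
          rw [Prod.mk.injEq] at h
          exact hij h.2.symm)
        exact h1 (Or.inr ⟨rfl, hij, hadj⟩)
  · rintro x y v w (h | ⟨h1, h2, h3⟩)
    · exact Or.inl h.symm
    · exact Or.inr ⟨h1.symm, h2.symm, h3.symm⟩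
  · rintro ⟨b, i⟩ hx ⟨b', j⟩ hy w hw
    simp only [A, mem_sdiff, mem_XX] at hw
    refine le_trans (Finset.card_le_card
        (t := {w} ∪ (if b' = b then (nb G w).filter (fun v => f v ≠ f w) else ∅)) ?_) ?_
    · intro v hv
      simp only [A, Rel, mem_filter, mem_sdiff, mem_XX] at hv
      obtain ⟨hv1, hv2⟩ := hv
      rw [mem_union, mem_singleton]
      rcases hv2 with rfl | ⟨h1, h2, h3⟩
      · exact Or.inl rfl
      · right
        rw [if_pos h1.symm, mem_filter, mem_nb]
        refine ⟨h3.symm, ?_⟩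
        rw [hv1.1.2.2, hw.1.2.2]
        exact h2
    refine (Finset.card_union_le _ _).trans ?_
    simp only [n, card_singleton]
    split_ifs with h
    · have := hE w hw.1.1 hw.1.2.1
      omega
    · simp
  · rintro ⟨b, i⟩ hx
    simp only [I, mem_product, mem_filter, mem_univ, true_and] at hx
    have h1 := hX i hx.2
    have h2 := Finset.le_card_sdiff Y (XX L T f i)
    have h3 : ∑ y ∈ I, n (b, i) y ≤ Q.card * q + q * E := by
      calc ∑ y ∈ I, n (b, i) y ≤ ∑ y ∈ Q ×ˢ (univ : Finset (Fin q)), n (b, i) y := by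
            apply Finset.sum_le_sum_of_subset
            exact Finset.product_subset_product_right (Finset.filter_subset _ _)
        _ = ∑ b' ∈ Q, ∑ _j : Fin q, (1 + (if b' = b then E else 0)) := by
            rw [Finset.sum_product]
        _ = ∑ b' ∈ Q, (q * (1 + (if b' = b then E else 0))) := by
            simp
        _ = Q.card * q + q * ∑ b' ∈ Q, (if b' = b then E else 0) := by
            rw [← Finset.mul_sum, Finset.sum_add_distrib, mul_add]
            simp
            ring
        _ ≤ Q.card * q + q * E := by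
            rw [Finset.sum_ite_eq' Q b (fun _ => E)]
            split_ifs <;> simp
    simp only [A]
    omega

/-- the missed vertices -/
theorem exists_m {V : Type u} [Fintype V] [Nonempty V] {q k : ℕ} (X Wi : Fin q → Finset V)
    (P : Finset (Fin k)) (c : V → Fin k) (w0 β : ℕ) (hw : P.card * q + β < w0)
    (hWi : ∀ i, (X i).Nonempty → (Wi i).card = w0)
    (hc : ∀ b i, ((Wi i).filter (fun v => c v = b)).card ≤ β) :
    ∃ m : Fin k → Fin q → V, (∀ b ∈ P, ∀ i, (X i).Nonempty → m b i ∈ Wi i ∧ c (m b i) ≠ b) ∧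
      (∀ b ∈ P, ∀ b' ∈ P, ∀ i j, (X i).Nonempty → (X j).Nonempty →
        m b i = m b' j → b = b' ∧ i = j) := by
  classical
  let I : Finset (Fin k × Fin q) := P ×ˢ (univ.filter (fun i => (X i).Nonempty))
  let A : Fin k × Fin q → Finset V := fun x => (Wi x.2).filter (fun v => c v ≠ x.1)
  let Rel : Fin k × Fin q → Fin k × Fin q → V → V → Prop := fun x y v w => v = w
  let n : Fin k × Fin q → Fin k × Fin q → ℕ := fun x y => 1
  have hg := greedy I A Rel n ?_ ?_ ?_
  · obtain ⟨z, hz⟩ := hg
    refine ⟨fun b i => z (b, i), ?_, ?_⟩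
    · intro b hb i hi
      have h1 := (hz (b, i) (by simp [I, hb, hi])).1
      simp only [A, mem_filter] at h1
      exact h1
    · intro b hb b' hb' i j hi hj hzz
      by_contra hne
      have h1 := (hz (b, i) (by simp [I, hb, hi])).2 (b', j) (by simp [I, hb', hj]) (by
        intro h
        apply hne
        rw [Prod.mk.injEq] at h
        exact ⟨h.1.symm, h.2.symm⟩)
      exact h1 hzz
  · rintro x y v w h
    exact h.symm
  · rintro ⟨b, i⟩ hx ⟨b', j⟩ hy w hw
    simp only [n]
    rw [Finset.card_le_one]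
    intro v hv v' hv'
    simp only [Rel, mem_filter] at hv hv'
    rw [hv.2, hv'.2]
  · rintro ⟨b, i⟩ hx
    simp only [I, mem_product, mem_filter, mem_univ, true_and] at hx
    have h1 := hWi i hx.2
    have h2 := hc b i
    have h4 := Finset.card_filter_add_card_filter_not (s := Wi i) (fun v => c v = b)
    have h3 : ∑ y ∈ I, n (b, i) y ≤ P.card * q := by
      calc ∑ y ∈ I, n (b, i) y ≤ ∑ y ∈ P ×ˢ (univ : Finset (Fin q)), n (b, i) y := by
            apply Finset.sum_le_sum_of_subset
            exact Finset.product_subset_product_right (Finset.filter_subset _ _)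
        _ = P.card * q := by
            simp [n, Finset.card_product]
    simp only [A, ne_eq]
    omega

end Pool.Agent.Work.MP_db9399_dn.CHOOSE
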