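import Pool.Agent.Work.MP_db9399_dn.ChB

/-! Block CHOOSE of THEOREM DENSE, part C: the plan from numbers. (helper43) -/

set_option autoImplicit false

namespace Pool.Agent.Work.MP_db9399_dn.CHOOSE

open Finset Classical
open Pool.Agent.Work.MP_db9399_all (nb)

universe u

/-- the colours used on `H` -/
theorem exists_CH {V : Type u} [Fintype V] {k : ℕ} (UH : Finset V) (c0 : V → Fin k)
    (EH : SimpleGraph V) (t0 : V → V → Fin k) (hm : IsMat EH) (hU : ∀ v w, EH.Adj v w → v ∈ UH) :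
    ∃ CH : Finset (Fin k), CH.card ≤ 2 * UH.card ∧ (∀ v ∈ UH, c0 v ∈ CH) ∧
      ∀ v w, EH.Adj v w → t0 v w ∈ CH := by
  classical
  refine ⟨UH.image c0 ∪ UH.biUnion (fun v => (nb EH v).image (fun w => t0 v w)), ?_, ?_, ?_⟩
  · refine (Finset.card_union_le _ _).trans ?_
    have h1 := Finset.card_image_le (s := UH) (f := c0)
    have h2 : (UH.biUnion (fun v => (nb EH v).image (fun w => t0 v w))).card ≤ UH.card := by
      refine (Finset.card_biUnion_le).trans ?_
      calc ∑ v ∈ UH, ((nb EH v).image (fun w => t0 v w)).card ≤ ∑ _v ∈ UH, 1 :=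
            Finset.sum_le_sum (fun v _ => (Finset.card_image_le).trans (hm v))
        _ = UH.card := by simp
    omega
  · intro v hv
    exact mem_union_left _ (mem_image_of_mem _ hv)
  · intro v w h
    apply mem_union_right
    rw [mem_biUnion]
    exact ⟨v, hU v w h, mem_image_of_mem _ (mem_nb.mpr h)⟩

/-- the palettes -/
theorem exists_pal {k : ℕ} (CH : Finset (Fin k)) (N M : ℕ) (h : CH.card + N + M ≤ k) :
    ∃ (p : Fin N → Fin k) (Q : Finset (Fin k)), Function.Injective p ∧ (∀ j, p j ∉ CH) ∧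
      Q.card = M ∧ (∀ b ∈ Q, b ∉ CH ∧ ∀ j, p j ≠ b) := by
  classical
  obtain ⟨P', hP', hP'c⟩ := Finset.exists_subset_card_eq (s := univ \ CH) (n := N) (by
    have h2 := Finset.le_card_sdiff CH (univ : Finset (Fin k))
    rw [Finset.card_univ, Fintype.card_fin] at h2
    omega)
  obtain ⟨Q, hQ, hQc⟩ := Finset.exists_subset_card_eq (s := univ \ (CH ∪ P')) (n := M) (by
    have h2 := Finset.le_card_sdiff (CH ∪ P') (univ : Finset (Fin k))
    have h3 := Finset.card_union_le CH P'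
    rw [Finset.card_univ, Fintype.card_fin] at h2
    omega)
  let e : P' ≃ Fin N := P'.equivFinOfCardEq hP'c
  refine ⟨fun j => (e.symm j : Fin k), Q, ?_, ?_, hQc, ?_⟩
  · intro a b hab
    exact e.symm.injective (Subtype.ext hab)
  · intro j
    have h1 := hP' (e.symm j).2
    simp only [mem_sdiff, mem_univ, true_and] at h1
    exact h1
  · intro b hb
    have h1 := hQ hb
    simp only [mem_sdiff, mem_univ, true_and, mem_union, not_or] at h1
    refine ⟨h1.1, ?_⟩
    intro j hj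
    apply h1.2
    rw [← hj]
    exact (e.symm j).2

/-- the vertex colouring and its classes -/
theorem exists_c {V : Type u} [Fintype V] {q k : ℕ} (G : SimpleGraph V) (N β : ℕ)
    (UH : Finset V) (c0 : V → Fin k) (CH Q : Finset (Fin k)) (X : Fin q → Finset V)
    (J' : V → ℕ) (hJ' : ∀ v, J' v < N) (hJp : ∀ v w, G.Adj v w → J' v ≠ J' w)
    (hJc : ∀ j, (univ.filter (fun v => J' v = j)).card ≤ β)
    (hc0 : ∀ v ∈ UH, ∀ w ∈ UH, G.Adj v w → c0 v ≠ c0 w) (hCH : ∀ v ∈ UH, c0 v ∈ CH)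
    (p : Fin N → Fin k) (hp : Function.Injective p) (hpC : ∀ j, p j ∉ CH)
    (hQ : ∀ b ∈ Q, b ∉ CH ∧ ∀ j, p j ≠ b)
    (z : Fin k → Fin q → V) (odd : Fin k → Fin q → Prop)
    (hz1 : ∀ b ∈ Q, ∀ i, (X i).Nonempty → z b i ∉ UH)
    (hz2 : ∀ b ∈ Q, ∀ b' ∈ Q, ∀ i j, (X i).Nonempty → (X j).Nonempty → z b i = z b' j →
      b = b' ∧ i = j)
    (hz3 : ∀ b ∈ Q, ∀ i j, (X i).Nonempty → (X j).Nonempty → ¬ G.Adj (z b i) (z b j)) :
    ∃ c : V → Fin k, (∀ v ∈ UH, c v = c0 v) ∧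
      (∀ b ∈ Q, ∀ v, c v = b ↔ ∃ i, (X i).Nonempty ∧ odd b i ∧ z b i = v) ∧
      (∀ v, c v ∈ CH ∪ univ.image p ∪ Q) ∧ (∀ v w, G.Adj v w → c v ≠ c w) ∧
      (∀ b ∈ CH, ∀ v, c v = b → v ∈ UH) ∧
      (∀ b, b ∉ Q → (univ.filter (fun v => v ∉ UH ∧ c v = b)).card ≤ β) := by
  classical
  let Zp : V → Prop := fun v => ∃ b i, b ∈ Q ∧ (X i).Nonempty ∧ odd b i ∧ z b i = v
  let c : V → Fin k := fun v => if v ∈ UH then c0 v else
    if h : Zp v then h.choose else p ⟨J' v, hJ' v⟩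
  have cU : ∀ v ∈ UH, c v = c0 v := by
    intro v hv
    simp only [c, if_pos hv]
  have cZ : ∀ b i, b ∈ Q → (X i).Nonempty → odd b i → c (z b i) = b := by
    intro b i hb hi ho
    have h1 := hz1 b hb i hi
    have h2 : Zp (z b i) := ⟨b, i, hb, hi, ho, rfl⟩
    have h3 : c (z b i) = h2.choose := by
      simp only [c, if_neg h1, dif_pos h2]
    rw [h3]
    obtain ⟨j, h4, h5, h6, h7⟩ := h2.choose_spec
    exact (hz2 _ h4 b hb j i h5 hi h7).1
  have cN : ∀ v, v ∉ UH → ¬ Zp v → c v = p ⟨J' v, hJ' v⟩ := by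
    intro v hv hz
    simp only [c, if_neg hv, dif_neg hz]
  clear_value c
  have cases3 : ∀ v, (v ∈ UH ∧ c v = c0 v ∧ c v ∈ CH) ∨
      (v ∉ UH ∧ ∃ b i, b ∈ Q ∧ (X i).Nonempty ∧ odd b i ∧ z b i = v ∧ c v = b) ∨
      (v ∉ UH ∧ ¬ Zp v ∧ c v = p ⟨J' v, hJ' v⟩) := by
    intro v
    by_cases hv : v ∈ UH
    · exact Or.inl ⟨hv, cU v hv, by rw [cU v hv]; exact hCH v hv⟩
    · by_cases hz : Zp v
      · obtain ⟨b, i, hb, hi, ho, hzv⟩ := hz
        exact Or.inr (Or.inl ⟨hv, b, i, hb, hi, ho, hzv, by rw [← hzv]; exact cZ b i hb hi ho⟩)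
      · exact Or.inr (Or.inr ⟨hv, hz, cN v hv hz⟩)
  refine ⟨c, cU, ?_, ?_, ?_, ?_, ?_⟩
  · intro b hb v
    constructor
    · intro hcv
      rcases cases3 v with ⟨_, _, h3⟩ | ⟨_, b', i, h1, h2, h3, h4, h5⟩ | ⟨_, _, h3⟩
      · rw [hcv] at h3
        exact absurd h3 (hQ b hb).1
      · have : b' = b := by rw [← h5, hcv]
        subst this
        exact ⟨i, h2, h3, h4⟩
      · exact absurd (h3.symm.trans hcv) ((hQ b hb).2 _)
    · rintro ⟨i, h1, h2, h3⟩
      rw [← h3]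
      exact cZ b i hb h1 h2
  · intro v
    rcases cases3 v with ⟨_, _, h3⟩ | ⟨_, b', i, h1, h2, h3, h4, h5⟩ | ⟨_, _, h3⟩
    · exact mem_union_left _ (mem_union_left _ h3)
    · rw [h5]
      exact mem_union_right _ h1
    · rw [h3]
      exact mem_union_left _ (mem_union_right _ (mem_image_of_mem _ (mem_univ _)))
  · intro v w hvw
    have hmain : ∀ v w, G.Adj v w → v ∈ UH → c v ≠ c w := by
      intro v w hvw hv hcc
      rcases cases3 w with ⟨h1, h2, h3⟩ | ⟨_, b', i, h1, h2, h3, h4, h5⟩ | ⟨_, _, h3⟩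
      · rw [cU v hv, h2] at hcc
        exact hc0 v hv w h1 hvw hcc
      · apply (hQ b' h1).1
        rw [← h5, ← hcc, cU v hv]
        exact hCH v hv
      · apply hpC ⟨J' w, hJ' w⟩
        rw [← h3, ← hcc, cU v hv]
        exact hCH v hv
    rcases cases3 v with ⟨h1, _, _⟩ | ⟨_, b, i, h1, h2, h3, h4, h5⟩ | ⟨h0, _, h3⟩
    · exact hmain v w hvw h1
    · rcases cases3 w with ⟨h1', _, _⟩ | ⟨_, b', j, h1', h2', h3', h4', h5'⟩ | ⟨_, _, h3'⟩
      · exact (hmain w v hvw.symm h1').symm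
      · intro hcc
        have : b' = b := by rw [← h5', ← hcc, h5]
        subst this
        rw [← h4, ← h4'] at hvw
        exact hz3 b' h1 i j h2 h2' hvw
      · intro hcc
        apply (hQ b h1).2 ⟨J' w, hJ' w⟩
        rw [← h3', ← hcc, h5]
    · rcases cases3 w with ⟨h1', _, _⟩ | ⟨_, b', j, h1', h2', h3', h4', h5'⟩ | ⟨_, _, h3'⟩
      · exact (hmain w v hvw.symm h1').symm
      · intro hcc
        apply (hQ b' h1').2 ⟨J' v, hJ' v⟩
        rw [← h3, hcc, h5']
      · intro hcc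
        rw [h3, h3'] at hcc
        have h6 := hp hcc
        rw [Fin.mk.injEq] at h6
        exact hJp v w hvw h6
  · intro b hb v hcv
    rcases cases3 v with ⟨h1, _, _⟩ | ⟨_, b', i, h1, h2, h3, h4, h5⟩ | ⟨_, _, h3⟩
    · exact h1
    · exfalso
      apply (hQ b' h1).1
      rw [← h5, hcv]
      exact hb
    · exfalso
      apply hpC ⟨J' v, hJ' v⟩
      rw [← h3, hcv]
      exact hb
  · intro b hb
    by_cases hem : (univ.filter (fun v => v ∉ UH ∧ c v = b)) = ∅
    · rw [hem]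
      simp
    · obtain ⟨x, hx⟩ := Finset.nonempty_iff_ne_empty.mpr hem
      simp only [mem_filter, mem_univ, true_and] at hx
      have h0 : ∀ v, v ∉ UH → c v = b → c v = p ⟨J' v, hJ' v⟩ := by
        intro v hv hcv
        rcases cases3 v with ⟨h1, _, _⟩ | ⟨_, b', i, h1, h2, h3, h4, h5⟩ | ⟨_, _, h3⟩
        · exact absurd h1 hv
        · exfalso
          apply hb
          rw [← hcv, h5]
          exact h1
        · exact h3
      refine le_trans (Finset.card_le_card (t := univ.filter (fun v => J' v = J' x)) ?_) (hJc _)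
      intro v hv
      simp only [mem_filter, mem_univ, true_and] at hv ⊢
      have h1 := h0 v hv.1 hv.2
      have h2 := h0 x hx.1 hx.2
      have h3 := hp (h1.symm.trans (hv.2.trans (hx.2.symm.trans h2)))
      rw [Fin.mk.injEq] at h3
      exact h3

end Pool.Agent.Work.MP_db9399_dn.CHOOSE
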