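import Pool.Agent.Work.MP_db9399_dn.ChC

/-! Block CHOOSE of THEOREM DENSE, part D: the plan from numbers. (helper43) -/

set_option autoImplicit false

namespace Pool.Agent.Work.MP_db9399_dn.CHOOSE

open Finset Classical
open Pool.Agent.Work.MP_db9399_all (nb)

universe u

/-- edges of `H` of colour `b` -/
def K2 {V : Type u} {k : ℕ} (EH : SimpleGraph V) (t0 : V → V → Fin k)
    (hs : ∀ v w, EH.Adj v w → t0 v w = t0 w v) (b : Fin k) : SimpleGraph V where
  Adj v w := EH.Adj v w ∧ t0 v w = b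
  symm := ⟨by
    rintro v w ⟨h1, h2⟩
    exact ⟨h1.symm, by rw [← hs v w h1]; exact h2⟩⟩
  loopless := ⟨by
    rintro v ⟨h1, _⟩
    exact EH.loopless.irrefl v h1⟩

theorem parity_lemma {V : Type u} [Fintype V] (S0 S : Finset V) (x : V)
    (h : (Even S0.card ∧ S = S0) ∨ (¬ Even S0.card ∧ x ∈ S0 ∧ S = S0.erase x)) :
    Even S.card := by
  rcases h with ⟨h1, rfl⟩ | ⟨h1, h2, rfl⟩
  · exact h1
  · exact even_erase S0 x h2 h1

theorem plan_of {V : Type u} [Fintype V] [Nonempty V] {q k : ℕ} (G : SimpleGraph V) (d : ℕ)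
    (L T B : Finset V) (f : V → Fin q) (δ : ℝ) (UH : Finset V) (c0 : V → Fin k)
    (EH : SimpleGraph V) (t0 : V → V → Fin k) (N β w0 E : ℕ) (BT : B ⊆ T)
    (hempty : ∀ i, XX L T f i = ∅ → ∀ v ∈ L, v ∉ B → f v ≠ i)
    (hE : ∀ v ∈ L, v ∉ T → ((nb G v).filter (fun w => f w ≠ f v)).card ≤ E)
    (J' : V → ℕ) (hJ' : ∀ v, J' v < N) (hJp : ∀ v w, G.Adj v w → J' v ≠ J' w)
    (hJc : ∀ j, (univ.filter (fun v => J' v = j)).card ≤ β)
    (hc0 : ∀ v ∈ UH, ∀ w ∈ UH, G.Adj v w → c0 v ≠ c0 w)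
    (hEG : EH ≤ G) (hEm : IsMat EH)
    (hEH : ∀ v w, EH.Adj v w → v ∈ UH ∧ t0 v w ≠ c0 v ∧ t0 v w = t0 w v)
    (hk : 2 * UH.card + N + q * w0 ≤ k) (hw : (2 * UH.card + N) * q + β < w0)
    (hX : ∀ i, (XX L T f i).Nonempty →
      (q * w0) * q + q * E + (q * w0 + UH.card) < (XX L T f i).card)
    (hδ1 : ((2 * UH.card + N + q * w0 : ℕ) : ℝ) ≤ δ * d)
    (hδ2 : ((2 * UH.card + β + 2 * q + q * w0 : ℕ) : ℝ) ≤ δ * d) :
    Nonempty (Plan G d k L B f δ UH c0 EH t0) := by
  classical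
  obtain ⟨CH, hCHc, hCH0, hCHt⟩ := exists_CH UH c0 EH t0 hEm (fun v w h => (hEH v w h).1)
  obtain ⟨p, Q, hp, hpC, hQc, hQ⟩ := exists_pal CH N (q * w0) (by omega)
  obtain ⟨Wi, hWs, hWc, hWW⟩ := exists_W (fun i => XX L T f i) UH w0 (by
    intro i hi
    have h1 := hX i hi
    have h2 : 1 ≤ q := Nat.one_le_of_lt i.2
    have h3 : w0 ≤ q * w0 := Nat.le_mul_of_pos_left w0 h2
    omega)
  obtain ⟨W, hWdef⟩ : ∃ W : Finset V, W = univ.biUnion Wi := ⟨_, rfl⟩
  rw [← hWdef] at hWW
  have hWmem : ∀ v, v ∈ W ↔ ∃ i, v ∈ Wi i := by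
    intro v
    rw [hWdef]
    simp
  have hWiX : ∀ i, ∀ v ∈ Wi i, v ∈ XX L T f i := by
    intro i v hv
    exact (mem_sdiff.mp (hWs i hv)).1
  have hWU : ∀ v ∈ W, v ∉ UH := by
    intro v hv
    obtain ⟨i, hi⟩ := (hWmem v).mp hv
    exact (mem_sdiff.mp (hWs i hi)).2
  obtain ⟨K1, hK1G, hK1W, hK1m, hK1d, hK1c⟩ := matchW G W Q (by rw [hQc]; exact hWW)
  have hYc : (W ∪ UH).card ≤ q * w0 + UH.card := (Finset.card_union_le _ _).trans (by omega)
  obtain ⟨z, hz1, hz2, hz3⟩ := exists_z G L T f (W ∪ UH) Q E hE (by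
    intro i hi
    have h1 := hX i hi
    rw [hQc]
    omega)
  obtain ⟨odd1, hodd1⟩ : ∃ odd1 : Fin k → Fin q → Prop, ∀ b i, odd1 b i ↔
      ¬ Even (L.filter (fun v => v ∉ B ∧ ¬ cov (K1 b) v ∧ f v = i)).card := ⟨_, fun _ _ => Iff.rfl⟩
  obtain ⟨c, cU, cQ, cmem, cadj, cCH, cβ⟩ := exists_c G N β UH c0 CH Q (fun i => XX L T f i) J' hJ'
    hJp hJc hc0 hCH0 p hp hpC hQ z odd1 (by
      intro b hb i hi
      have h1 := (hz1 b hb i hi).2
      rw [mem_union, not_or] at h1
      exact h1.2) hz2 hz3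
  obtain ⟨P, hPdef⟩ : ∃ P : Finset (Fin k), P = CH ∪ univ.image p := ⟨_, rfl⟩
  have hPc : P.card ≤ 2 * UH.card + N := by
    rw [hPdef]
    refine (Finset.card_union_le _ _).trans ?_
    have h1 := Finset.card_image_le (s := (univ : Finset (Fin N))) (f := p)
    rw [Finset.card_univ, Fintype.card_fin] at h1
    omega
  have hPQ : ∀ b ∈ Q, b ∉ P := by
    intro b hb hbP
    rw [hPdef, mem_union, mem_image] at hbP
    rcases hbP with h | ⟨j, _, h⟩
    · exact (hQ b hb).1 h
    · exact (hQ b hb).2 j h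
  have cmem' : ∀ v, c v ∈ P ∪ Q := by
    intro v
    rw [hPdef]
    exact cmem v
  have hWi_c : ∀ b i, ((Wi i).filter (fun v => c v = b)).card ≤ β := by
    intro b i
    by_cases hb : b ∈ Q
    · have h1 : (Wi i).filter (fun v => c v = b) = ∅ := by
        rw [Finset.filter_eq_empty_iff]
        intro v hv hcv
        obtain ⟨j, hj1, hj2, hj3⟩ := (cQ b hb v).mp hcv
        have h2 := (hz1 b hb j hj1).2
        rw [mem_union, not_or] at h2
        apply h2.1
        rw [hj3, hWmem]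
        exact ⟨i, hv⟩
      rw [h1]
      simp
    · refine le_trans (Finset.card_le_card ?_) (cβ b hb)
      intro v hv
      rw [mem_filter] at hv
      simp only [mem_filter, mem_univ, true_and]
      exact ⟨hWU v ((hWmem v).mpr ⟨i, hv.1⟩), hv.2⟩
  obtain ⟨m, hm1, hm2⟩ := exists_m (fun i => XX L T f i) Wi P c w0 β (by
    have h1 := Nat.mul_le_mul_right q hPc
    omega) hWc hWi_c
  have hs0 : ∀ v w, EH.Adj v w → t0 v w = t0 w v := fun v w h => (hEH v w h).2.2
  obtain ⟨K, hKdef⟩ : ∃ K : Fin k → SimpleGraph V, ∀ b, K b = if b ∈ Q then K1 b else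
    K2 EH t0 hs0 b := ⟨_, fun _ => rfl⟩
  have hKQ : ∀ b ∈ Q, K b = K1 b := by
    intro b hb
    rw [hKdef, if_pos hb]
  have hKnQ : ∀ b, b ∉ Q → ∀ v w, (K b).Adj v w ↔ (EH.Adj v w ∧ t0 v w = b) := by
    intro b hb v w
    rw [hKdef, if_neg hb]
    exact Iff.rfl
  have hKcase : ∀ b v w, (K b).Adj v w → (b ∈ Q ∧ (K1 b).Adj v w) ∨
      (b ∉ Q ∧ EH.Adj v w ∧ t0 v w = b) := by
    intro b v w h
    by_cases hb : b ∈ Q
    · rw [hKQ b hb] at h
      exact Or.inl ⟨hb, h⟩
    · exact Or.inr ⟨hb, (hKnQ b hb v w).mp h⟩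
  obtain ⟨odd2, hodd2⟩ : ∃ odd2 : Fin k → Fin q → Prop, ∀ b i, odd2 b i ↔
      ¬ Even (L.filter (fun v => v ∉ B ∧ c v ≠ b ∧ ¬ cov (K b) v ∧ f v = i)).card :=
    ⟨_, fun _ _ => Iff.rfl⟩
  obtain ⟨Miss, hMdef⟩ : ∃ Miss : Fin k → Finset V, ∀ b, Miss b = if b ∈ P then
      (univ.filter (fun i => (XX L T f i).Nonempty ∧ odd2 b i)).image (fun i => m b i) else ∅ :=
    ⟨_, fun _ => rfl⟩
  have hMmem : ∀ b v, v ∈ Miss b ↔ b ∈ P ∧ ∃ i, (XX L T f i).Nonempty ∧ odd2 b i ∧ m b i = v := by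
    intro b v
    rw [hMdef]
    by_cases hb : b ∈ P
    · rw [if_pos hb, mem_image]
      simp only [mem_filter, mem_univ, true_and, hb]
      constructor
      · rintro ⟨i, ⟨h1, h2⟩, h3⟩
        exact ⟨i, h1, h2, h3⟩
      · rintro ⟨i, h1, h2, h3⟩
        exact ⟨i, ⟨h1, h2⟩, h3⟩
    · rw [if_neg hb]
      simp [hb]
  have hMW : ∀ b, ∀ v ∈ Miss b, v ∈ W ∧ c v ≠ b ∧ b ∈ P := by
    intro b v hv
    obtain ⟨hb, i, h1, h2, h3⟩ := (hMmem b v).mp hv
    have h4 := hm1 b hb i h1
    rw [h3] at h4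
    exact ⟨(hWmem v).mpr ⟨i, h4.1⟩, h4.2, hb⟩
  have hMcov : ∀ b, ∀ v ∈ Miss b, ∀ w, ¬ (K b).Adj v w := by
    intro b v hv w hadj
    obtain ⟨h1, h2, h3⟩ := hMW b v hv
    rcases hKcase b v w hadj with ⟨h4, _⟩ | ⟨h4, h5, _⟩
    · exact hPQ b h4 h3
    · exact hWU v h1 (hEH v w h5).1
  refine ⟨{
    Pal := P ∪ Q
    c := c
    K := K
    Miss := Miss
    W := W
    palcard := ?_
    cPal := cmem'
    cadj := cadj
    cH := cU
    Kle := ?_
    Kmat := ?_
    Kc := ?_
    Kd := ?_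
    Kpal := ?_
    KH := ?_
    KW := ?_
    MW := fun b v hv => (hMW b v hv).1
    Mc := fun b v hv => ⟨(hMW b v hv).2.1, hMcov b v hv⟩
    Md := ?_
    Rcard := ?_
    Rpar := ?_ }⟩
  · -- palcard
    have h1 : (P ∪ Q).card ≤ 2 * UH.card + N + q * w0 := by
      refine (Finset.card_union_le _ _).trans ?_
      omega
    exact le_trans (by exact_mod_cast h1) hδ1
  · -- Kle
    intro b v w h
    rcases hKcase b v w h with ⟨_, h1⟩ | ⟨_, h1, _⟩
    · exact hK1G b h1
    · exact hEG h1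
  · -- Kmat
    intro b v
    by_cases hb : b ∈ Q
    · rw [hKQ b hb]
      exact hK1m b v
    · refine le_trans (Finset.card_le_card ?_) (hEm v)
      intro w hw
      rw [mem_nb] at hw ⊢
      exact ((hKnQ b hb v w).mp hw).1
  · -- Kc
    intro b v w h hcv
    rcases hKcase b v w h with ⟨hb, h1⟩ | ⟨_, h1, h2⟩
    · obtain ⟨j, hj1, hj2, hj3⟩ := (cQ b hb v).mp hcv
      have h2 := (hz1 b hb j hj1).2
      rw [mem_union, not_or] at h2
      apply h2.1
      rw [hj3]
      exact (hK1W b v w h1).1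
    · obtain ⟨h3, h4, _⟩ := hEH v w h1
      apply h4
      rw [h2, ← hcv, cU v h3]
  · -- Kd
    intro b b' hbb v w h h'
    rcases hKcase b v w h with ⟨hb, h1⟩ | ⟨hb, h1, h2⟩
    · rcases hKcase b' v w h' with ⟨hb', h1'⟩ | ⟨hb', h1', h2'⟩
      · exact hK1d b b' hbb v w h1 h1'
      · exact hWU v (hK1W b v w h1).1 (hEH v w h1').1
    · rcases hKcase b' v w h' with ⟨hb', h1'⟩ | ⟨hb', h1', h2'⟩
      · exact hWU v (hK1W b' v w h1').1 (hEH v w h1).1
      · exact hbb (h2.symm.trans h2')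
  · -- Kpal
    intro b v w h
    rcases hKcase b v w h with ⟨hb, h1⟩ | ⟨hb, h1, h2⟩
    · exact mem_union_right _ hb
    · rw [← h2, hPdef]
      exact mem_union_left _ (mem_union_left _ (hCHt v w h1))
  · -- KH
    intro v w h
    have h1 : t0 v w ∉ Q := fun hq => (hQ _ hq).1 (hCHt v w h)
    rw [hKnQ _ h1]
    exact ⟨h, rfl⟩
  · -- KW
    intro v hv w hw hadj
    obtain ⟨b, hb, h1⟩ := hK1c v hv w hw hadj
    refine ⟨b, ?_⟩
    rw [hKQ b hb]
    exact h1
  · -- Md
    intro b b' hbb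
    rw [Finset.disjoint_left]
    intro v hv hv'
    obtain ⟨hb, i, h1, h2, h3⟩ := (hMmem b v).mp hv
    obtain ⟨hb', j, h1', h2', h3'⟩ := (hMmem b' v).mp hv'
    exact hbb (hm2 b hb b' hb' i j h1 h1' (h3.trans h3'.symm)).1
  · -- Rcard
    intro b hb
    refine le_trans ?_ hδ2
    have hsub : univ.filter (fun v => c v = b ∨ v ∈ Miss b ∨ ∃ w, (K b).Adj v w) ⊆
        ((UH ∪ univ.filter (fun v => v ∉ UH ∧ c v = b ∧ b ∉ Q)) ∪
          (univ.image (fun i => z b i))) ∪ ((univ.image (fun i => m b i)) ∪ (UH ∪ W)) := by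
      intro v hv
      simp only [mem_filter, mem_univ, true_and] at hv
      simp only [mem_union, mem_filter, mem_univ, true_and, mem_image]
      rcases hv with hv | hv | ⟨w, hv⟩
      · by_cases hb' : b ∈ Q
        · obtain ⟨j, hj1, hj2, hj3⟩ := (cQ b hb' v).mp hv
          exact Or.inl (Or.inr ⟨j, hj3⟩)
        · by_cases hu : v ∈ UH
          · exact Or.inl (Or.inl (Or.inl hu))
          · exact Or.inl (Or.inl (Or.inr ⟨hu, hv, hb'⟩))
      · obtain ⟨hb', i, h1, h2, h3⟩ := (hMmem b v).mp hv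
        exact Or.inr (Or.inl ⟨i, h3⟩)
      · rcases hKcase b v w hv with ⟨hb', h1⟩ | ⟨hb', h1, h2⟩
        · exact Or.inr (Or.inr (Or.inr (hK1W b v w h1).1))
        · exact Or.inr (Or.inr (Or.inl (hEH v w h1).1))
    have h1 := Finset.card_le_card hsub
    have h2 : (univ.filter (fun v => v ∉ UH ∧ c v = b ∧ b ∉ Q)).card ≤ β := by
      by_cases hb' : b ∈ Q
      · have : univ.filter (fun v => v ∉ UH ∧ c v = b ∧ b ∉ Q) = ∅ := by
          rw [Finset.filter_eq_empty_iff]
          intro v _ h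
          exact h.2.2 hb'
        rw [this]
        simp
      · refine le_trans (Finset.card_le_card ?_) (cβ b hb')
        intro v hv
        simp only [mem_filter, mem_univ, true_and] at hv ⊢
        exact ⟨hv.1, hv.2.1⟩
    have h3 := Finset.card_image_le (s := (univ : Finset (Fin q))) (f := fun i => z b i)
    have h4 := Finset.card_image_le (s := (univ : Finset (Fin q))) (f := fun i => m b i)
    rw [Finset.card_univ, Fintype.card_fin] at h3 h4
    have h5 := Finset.card_union_le ((UH ∪ univ.filter (fun v => v ∉ UH ∧ c v = b ∧ b ∉ Q)) ∪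
          (univ.image (fun i => z b i))) ((univ.image (fun i => m b i)) ∪ (UH ∪ W))
    have h6 := Finset.card_union_le (UH ∪ univ.filter (fun v => v ∉ UH ∧ c v = b ∧ b ∉ Q))
          (univ.image (fun i => z b i))
    have h7 := Finset.card_union_le UH (univ.filter (fun v => v ∉ UH ∧ c v = b ∧ b ∉ Q))
    have h8 := Finset.card_union_le (univ.image (fun i => m b i)) (UH ∪ W)
    have h9 := Finset.card_union_le UH W
    have h10 : (univ.filter (fun v => c v = b ∨ v ∈ Miss b ∨ ∃ w, (K b).Adj v w)).card ≤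
        2 * UH.card + β + 2 * q + q * w0 := by
      omega
    exact_mod_cast h10
  · -- Rpar
    intro b hb i
    by_cases hi : (XX L T f i).Nonempty
    swap
    · have h1 : L.filter (fun v => v ∉ B ∧
          v ∉ univ.filter (fun v => c v = b ∨ v ∈ Miss b ∨ ∃ w, (K b).Adj v w) ∧ f v = i) = ∅ := by
        rw [Finset.filter_eq_empty_iff]
        intro v hv h
        exact hempty i (Finset.not_nonempty_iff_eq_empty.mp hi) v hv h.1 h.2.2
      rw [h1]
      simp
    · by_cases hbQ : b ∈ Q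
      · -- b in Q
        have hb0 : ∀ v, v ∉ Miss b := by
          intro v hv
          exact hPQ b hbQ (hMW b v hv).2.2
        apply parity_lemma (L.filter (fun v => v ∉ B ∧ ¬ cov (K1 b) v ∧ f v = i)) _ (z b i)
        by_cases ho : Even (L.filter (fun v => v ∉ B ∧ ¬ cov (K1 b) v ∧ f v = i)).card
        · left
          refine ⟨ho, ?_⟩
          ext v
          simp only [mem_filter, mem_univ, true_and, not_or, hKQ b hbQ]
          constructor
          · rintro ⟨h1, h2, ⟨h3, h4, h5⟩, h6⟩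
            exact ⟨h1, h2, h5, h6⟩
          · rintro ⟨h1, h2, h3, h4⟩
            refine ⟨h1, h2, ⟨?_, hb0 v, h3⟩, h4⟩
            intro hcv
            obtain ⟨j, hj1, hj2, hj3⟩ := (cQ b hbQ v).mp hcv
            have h5 := (mem_XX.mp (hz1 b hbQ j hj1).1).2.2
            rw [hj3, h4] at h5
            subst h5
            exact (hodd1 b i).mp hj2 ho
        · right
          obtain ⟨hzX, hzY⟩ := hz1 b hbQ i hi
          rw [mem_XX] at hzX
          rw [mem_union, not_or] at hzY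
          refine ⟨ho, ?_, ?_⟩
          · rw [mem_filter]
            refine ⟨hzX.1, fun h => hzX.2.1 (BT h), ?_, hzX.2.2⟩
            rintro ⟨w, hw⟩
            exact hzY.1 (hK1W b _ w hw).1
          · ext v
            simp only [mem_filter, mem_univ, true_and, not_or, hKQ b hbQ, mem_erase]
            constructor
            · rintro ⟨h1, h2, ⟨h3, h4, h5⟩, h6⟩
              refine ⟨?_, h1, h2, h5, h6⟩
              intro hvz
              apply h3
              rw [cQ b hbQ v]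
              exact ⟨i, hi, (hodd1 b i).mpr ho, hvz.symm⟩
            · rintro ⟨h0, h1, h2, h3, h4⟩
              refine ⟨h1, h2, ⟨?_, hb0 v, h3⟩, h4⟩
              intro hcv
              obtain ⟨j, hj1, hj2, hj3⟩ := (cQ b hbQ v).mp hcv
              have h5 := (mem_XX.mp (hz1 b hbQ j hj1).1).2.2
              rw [hj3, h4] at h5
              subst h5
              exact h0 hj3.symm
      · -- b in P
        have hbP : b ∈ P := by
          rw [mem_union] at hb
          rcases hb with h | h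
          · exact h
          · exact absurd h hbQ
        apply parity_lemma (L.filter (fun v => v ∉ B ∧ c v ≠ b ∧ ¬ cov (K b) v ∧ f v = i)) _ (m b i)
        have hmiss : ∀ v, f v = i → (v ∈ Miss b ↔ odd2 b i ∧ v = m b i) := by
          intro v hv
          rw [hMmem]
          constructor
          · rintro ⟨_, j, hj1, hj2, hj3⟩
            have h4 := hWiX j _ (hm1 b hbP j hj1).1
            rw [hj3, mem_XX, hv] at h4
            have h5 := h4.2.2
            subst h5
            exact ⟨hj2, hj3.symm⟩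
          · rintro ⟨h1, h2⟩
            exact ⟨hbP, i, hi, h1, h2.symm⟩
        by_cases ho : Even (L.filter (fun v => v ∉ B ∧ c v ≠ b ∧ ¬ cov (K b) v ∧ f v = i)).card
        · left
          refine ⟨ho, ?_⟩
          ext v
          simp only [mem_filter, mem_univ, true_and, not_or]
          constructor
          · rintro ⟨h1, h2, ⟨h3, h4, h5⟩, h6⟩
            exact ⟨h1, h2, h3, h5, h6⟩
          · rintro ⟨h1, h2, h3, h4, h5⟩
            refine ⟨h1, h2, ⟨h3, ?_, h4⟩, h5⟩
            rw [hmiss v h5]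
            rintro ⟨h6, _⟩
            exact (hodd2 b i).mp h6 ho
        · right
          have hmW := hm1 b hbP i hi
          have hmX := hWiX i _ hmW.1
          rw [mem_XX] at hmX
          have hmm : m b i ∈ Miss b := (hmiss _ hmX.2.2).mpr ⟨(hodd2 b i).mpr ho, rfl⟩
          refine ⟨ho, ?_, ?_⟩
          · rw [mem_filter]
            refine ⟨hmX.1, fun h => hmX.2.1 (BT h), hmW.2, ?_, hmX.2.2⟩
            rintro ⟨w, hw⟩
            exact hMcov b _ hmm w hw
          · ext v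
            simp only [mem_filter, mem_univ, true_and, not_or, mem_erase]
            constructor
            · rintro ⟨h1, h2, ⟨h3, h4, h5⟩, h6⟩
              refine ⟨?_, h1, h2, h3, h5, h6⟩
              rintro rfl
              exact h4 hmm
            · rintro ⟨h0, h1, h2, h3, h4, h5⟩
              refine ⟨h1, h2, ⟨h3, ?_, h4⟩, h5⟩
              rw [hmiss v h5]
              rintro ⟨_, h6⟩
              exact h0 h6

end Pool.Agent.Work.MP_db9399_dn.CHOOSE
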