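import Pool.Agent.Work.MP_db9399_dn.Interface

/-!
# MP_db9399, THEOREM DENSE, block DEC: the partition into well connected pieces (helper59)
-/

set_option autoImplicit false

namespace Pool.Agent.Work.MP_db9399_dn.DEC

open Finset Classical
open Pool.Agent.Work.MP_db9399_all (nb)

universe u

section pairs
variable {V : Type u} [Fintype V]

lemma mem_nb {G : SimpleGraph V} {v w : V} : w ∈ nb G v ↔ G.Adj v w := by simp [nb]

/-- number of ordered crossing adjacent pairs -/
noncomputable def cr {q : ℕ} (G : SimpleGraph V) (f : V → Fin q) : ℕ :=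
  ∑ v, ((nb G v).filter (fun w => f w ≠ f v)).card

/-- number of adjacent pairs from `X` to `Y` -/
noncomputable def ee (G : SimpleGraph V) (X Y : Finset V) : ℕ :=
  ∑ x ∈ X, (nb G x ∩ Y).card

lemma ee_comm (G : SimpleGraph V) (X Y : Finset V) : ee G X Y = ee G Y X := by
  have h := Finset.sum_card_bipartiteAbove_eq_sum_card_bipartiteBelow (s := X) (t := Y) G.Adj
  have h1 : ∀ x, nb G x ∩ Y = Y.bipartiteAbove G.Adj x := by
    intro x; ext w; simp [Finset.bipartiteAbove, mem_nb, and_comm]
  have h2 : ∀ y, nb G y ∩ X = X.bipartiteBelow G.Adj y := by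
    intro y; ext w; simp [Finset.bipartiteBelow, mem_nb, and_comm, G.adj_comm]
  unfold ee
  simp only [h1, h2]
  exact h

lemma ee_le (G : SimpleGraph V) (X Y : Finset V) {d : ℕ} (hd : ∀ v, (nb G v).card ≤ d) :
    ee G X Y ≤ X.card * d := by
  unfold ee
  calc ∑ x ∈ X, (nb G x ∩ Y).card ≤ ∑ _x ∈ X, d :=
        Finset.sum_le_sum (fun x _ => (Finset.card_le_card Finset.inter_subset_left).trans (hd x))
    _ = X.card * d := by simp

lemma ee_union (G : SimpleGraph V) (X Y Z W : Finset V) (h : W ⊆ Y ∪ Z) :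
    ee G X W ≤ ee G X Y + ee G X Z := by
  unfold ee
  rw [← Finset.sum_add_distrib]
  refine Finset.sum_le_sum (fun x _ => ?_)
  refine (Finset.card_le_card ?_).trans (Finset.card_union_le _ _)
  intro w hw
  simp only [Finset.mem_inter, Finset.mem_union] at hw ⊢
  rcases Finset.mem_union.1 (h hw.2) with h1 | h1
  · exact Or.inl ⟨hw.1, h1⟩
  · exact Or.inr ⟨hw.1, h1⟩

/-- splitting the class of `i` by `X` -/
noncomputable def spl {q : ℕ} (f : V → Fin q) (X : Finset V) : V → Fin (q + 1) :=
  fun v => if v ∈ X then Fin.last q else (f v).castSucc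

lemma cr_spl {q : ℕ} (G : SimpleGraph V) (f : V → Fin q) (X : Finset V) (i : Fin q)
    (hX : ∀ x ∈ X, f x = i) :
    cr G (spl f X) ≤ cr G f + 2 * ee G X (univ.filter (fun w => f w = i ∧ w ∉ X)) := by
  set Y := univ.filter (fun w => f w = i ∧ w ∉ X) with hY
  have key : ∀ v, ((nb G v).filter (fun w => spl f X w ≠ spl f X v)).card ≤
      ((nb G v).filter (fun w => f w ≠ f v)).card + (if v ∈ X then (nb G v ∩ Y).card else 0)
        + (if v ∈ Y then (nb G v ∩ X).card else 0) := by
    intro v
    have hsub : (nb G v).filter (fun w => spl f X w ≠ spl f X v) ⊆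
        ((nb G v).filter (fun w => f w ≠ f v) ∪ (if v ∈ X then (nb G v ∩ Y) else ∅))
          ∪ (if v ∈ Y then (nb G v ∩ X) else ∅) := by
      intro w hw
      rw [Finset.mem_filter] at hw
      obtain ⟨hw1, hw2⟩ := hw
      by_cases hf : f w = f v
      · by_cases hv : v ∈ X
        · by_cases hwX : w ∈ X
          · exact absurd (by simp [spl, hv, hwX]) hw2
          · have : w ∈ Y := by
              rw [hY, Finset.mem_filter]
              exact ⟨Finset.mem_univ _, by rw [hf, hX v hv], hwX⟩
            apply Finset.mem_union_left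
            apply Finset.mem_union_right
            rw [if_pos hv]
            exact Finset.mem_inter.2 ⟨hw1, this⟩
        · by_cases hwX : w ∈ X
          · have : v ∈ Y := by
              rw [hY, Finset.mem_filter]
              exact ⟨Finset.mem_univ _, by rw [← hf, hX w hwX], hv⟩
            apply Finset.mem_union_right
            rw [if_pos this]
            exact Finset.mem_inter.2 ⟨hw1, hwX⟩
          · exact absurd (by simp [spl, hv, hwX, hf]) hw2
      · apply Finset.mem_union_left
        apply Finset.mem_union_left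
        exact Finset.mem_filter.2 ⟨hw1, hf⟩
    refine (Finset.card_le_card hsub).trans ?_
    refine (Finset.card_union_le _ _).trans ?_
    refine add_le_add ((Finset.card_union_le _ _).trans (add_le_add le_rfl ?_)) ?_
    · split_ifs <;> simp
    · split_ifs <;> simp
  unfold cr
  refine (Finset.sum_le_sum (fun v _ => key v)).trans ?_
  rw [Finset.sum_add_distrib, Finset.sum_add_distrib]
  have h1 : ∑ v, (if v ∈ X then (nb G v ∩ Y).card else 0) = ee G X Y := by
    unfold ee
    rw [← Finset.sum_filter]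
    congr 1
    ext v; simp
  have h2 : ∑ v, (if v ∈ Y then (nb G v ∩ X).card else 0) = ee G X Y := by
    rw [ee_comm]
    unfold ee
    rw [← Finset.sum_filter]
    congr 1
    ext v; simp
  rw [h1, h2]
  omega

lemma spl_last {q : ℕ} (f : V → Fin q) (X : Finset V) :
    univ.filter (fun v => spl f X v = Fin.last q) = X := by
  ext v
  simp only [Finset.mem_filter, Finset.mem_univ, true_and, spl]
  constructor
  · intro h
    by_contra hv
    rw [if_neg hv] at h
    exact (Fin.castSucc_lt_last (f v)).ne h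
  · intro h
    rw [if_pos h]

lemma spl_cast {q : ℕ} (f : V → Fin q) (X : Finset V) (j : Fin q) :
    univ.filter (fun v => spl f X v = j.castSucc) = univ.filter (fun v => f v = j ∧ v ∉ X) := by
  ext v
  simp only [Finset.mem_filter, Finset.mem_univ, true_and, spl]
  constructor
  · intro h
    by_cases hv : v ∈ X
    · rw [if_pos hv] at h
      exact absurd h.symm (Fin.castSucc_lt_last j).ne
    · rw [if_neg hv] at h
      exact ⟨Fin.castSucc_injective _ h, hv⟩
  · rintro ⟨h1, h2⟩
    rw [if_neg h2, h1]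

end pairs

section build
variable {V : Type u} [Fintype V]

lemma build {G : SimpleGraph V} {d q q0 : ℕ} {L : Finset V} {C h r : ℝ} (hC : 1 ≤ C) (hd : 1 ≤ d)
    (hq : 1 ≤ q) (hq0 : q ≤ q0) (hq3 : (q : ℝ) ≤ 3 * C)
    (hdeg : ∀ v, (nb G v).card ≤ d)
    (hL : ∀ v ∈ L, (3 : ℝ) / 4 * d ≤ ((nb G v).card : ℝ)) (hh : 0 < h) (hh1 : h ≤ 1 / (32 * C))
    (hr : 0 < r) (f0 : V → Fin q)
    (hcr : (cr G f0 : ℝ) ≤ ((h / (64 * (q0 : ℝ) ^ 2)) / 2) *
      min ((h / (64 * (q0 : ℝ) ^ 2)) / 2) (min (h / 8) (r / 32)) * (d : ℝ) ^ 2)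
    (hmax : ∀ (X : Finset V) (i : Fin q), (∀ x ∈ X, f0 x = i) → (d : ℝ) / 3 ≤ X.card →
      (d : ℝ) / 3 ≤ ((univ.filter (fun w => f0 w = i ∧ w ∉ X)).card : ℝ) →
      r / 4 * (d : ℝ) ^ 2 ≤ (ee G X (univ.filter (fun w => f0 w = i ∧ w ∉ X)) : ℝ)) :
    Nonempty (Pieces G d q L h (h / (64 * (q0 : ℝ) ^ 2)) (1 / (16 * C)) (h / (4 * q0)) (r / 8)) := by
  set e : ℝ := h / (64 * (q0 : ℝ) ^ 2) with he
  set t : ℝ := min (e / 2) (min (h / 8) (r / 32)) with ht
  have hdR : (1 : ℝ) ≤ (d : ℝ) := by exact_mod_cast hd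
  have hd0 : (0 : ℝ) < (d : ℝ) := by linarith
  have hqR : (1 : ℝ) ≤ (q : ℝ) := by exact_mod_cast hq
  have hq0R : (q : ℝ) ≤ (q0 : ℝ) := by exact_mod_cast hq0
  have hq01 : (1 : ℝ) ≤ (q0 : ℝ) := hqR.trans hq0R
  have he0 : 0 < e := by positivity
  have ht0 : 0 < t := by
    rw [ht]; refine lt_min (by positivity) (lt_min (by positivity) (by positivity))
  have hte : t ≤ e / 2 := min_le_left _ _
  have hth : t ≤ h / 8 := (min_le_right _ _).trans (min_le_left _ _)
  have htr : t ≤ r / 32 := (min_le_right _ _).trans (min_le_right _ _)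
  have hC0 : 0 < C := by linarith
  have hhC : h * (32 * C) ≤ 1 := by
    rw [le_div_iff₀ (by positivity)] at hh1
    exact hh1
  have hh32 : h ≤ 1 / 32 := by nlinarith
  have heh : e ≤ h / 64 := by
    rw [he]
    apply div_le_div_of_nonneg_left hh.le (by norm_num)
    nlinarith
  -- the exceptional vertices
  set T0 : Finset V := L.filter (fun v => e / 2 * d <
    (((nb G v).filter (fun w => f0 w ≠ f0 v)).card : ℝ)) with hT0
  have hT0c : (T0.card : ℝ) ≤ t * d := by
    have h1 : (T0.card : ℝ) * (e / 2 * d) ≤ (cr G f0 : ℝ) := by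
      calc (T0.card : ℝ) * (e / 2 * d) = ∑ _v ∈ T0, (e / 2 * d) := by
            rw [Finset.sum_const, nsmul_eq_mul]
        _ ≤ ∑ v ∈ T0, (((nb G v).filter (fun w => f0 w ≠ f0 v)).card : ℝ) :=
            Finset.sum_le_sum (fun v hv => (Finset.mem_filter.1 hv).2.le)
        _ ≤ ∑ v, (((nb G v).filter (fun w => f0 w ≠ f0 v)).card : ℝ) :=
            Finset.sum_le_sum_of_subset_of_nonneg (Finset.subset_univ _) (fun _ _ _ => by positivity)
        _ = (cr G f0 : ℝ) := by unfold cr; push_cast; rfl
    have h2 : (T0.card : ℝ) * (e / 2 * d) ≤ (t * d) * (e / 2 * d) := by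
      refine h1.trans (hcr.trans (le_of_eq ?_))
      ring
    exact le_of_mul_le_mul_right h2 (by positivity)
  -- the best piece
  have hbest : ∀ v, v ∈ T0 → ∃ i : Fin q, ((3 : ℝ) / 4 * d - t * d) / q ≤
      (((nb G v \ T0).filter (fun w => f0 w = i)).card : ℝ) := by
    intro v hv
    have hvL : v ∈ L := (Finset.mem_filter.1 hv).1
    have h1 : ((3 : ℝ) / 4 * d - t * d) ≤ ((nb G v \ T0).card : ℝ) := by
      have h2 : (nb G v).card ≤ (nb G v \ T0).card + T0.card := by
        have := Finset.le_card_sdiff T0 (nb G v)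
        omega
      have h3 : ((nb G v).card : ℝ) ≤ ((nb G v \ T0).card : ℝ) + (T0.card : ℝ) := by
        exact_mod_cast h2
      have := hL v hvL
      linarith
    have h4 : ((nb G v \ T0).card : ℝ) =
        ∑ i : Fin q, (((nb G v \ T0).filter (fun w => f0 w = i)).card : ℝ) := by
      have := Finset.card_eq_sum_card_fiberwise (f := f0) (s := nb G v \ T0)
        (t := (Finset.univ : Finset (Fin q))) (fun _ _ => Finset.mem_univ _)
      rw [this]; push_cast; rfl
    have hne : (Finset.univ : Finset (Fin q)).Nonempty := ⟨⟨0, hq⟩, Finset.mem_univ _⟩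
    obtain ⟨i, -, hi⟩ := Finset.exists_le_of_sum_le
      (f := fun _ : Fin q => ((3 : ℝ) / 4 * d - t * d) / q)
      (g := fun i : Fin q => (((nb G v \ T0).filter (fun w => f0 w = i)).card : ℝ)) hne (by
        rw [Finset.sum_const, ← h4, nsmul_eq_mul, Finset.card_univ, Fintype.card_fin]
        rw [mul_div_cancel₀ _ (by positivity)]
        exact h1)
    exact ⟨i, hi⟩
  have : Nonempty (Fin q) := ⟨⟨0, hq⟩⟩
  choose! bst hbst using hbest
  set f : V → Fin q := fun v => if v ∈ T0 then bst v else f0 v with hf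
  have hfn : ∀ v, v ∉ T0 → f v = f0 v := fun v hv => by rw [hf]; exact if_neg hv
  have hfT : ∀ v ∈ T0, ((3 : ℝ) / 4 * d - t * d) / q ≤
      (((nb G v \ T0).filter (fun w => f0 w = f v)).card : ℝ) := by
    intro v hv
    have : f v = bst v := by rw [hf]; exact if_pos hv
    rw [this]; exact hbst v hv
  set g : ℝ := h / (4 * q0) with hg
  have hg0 : 0 < g := by rw [hg]; positivity
  set T : Finset V := L.filter (fun v => v ∈ T0 ∨
    ((L.filter (fun w => w ∉ T0 ∧ f w = f v)).card : ℝ) < g * d) with hT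
  have hT0T : T0 ⊆ T := by
    intro v hv
    rw [hT, Finset.mem_filter]
    exact ⟨(Finset.mem_filter.1 hv).1, Or.inl hv⟩
  have hTc : (T.card : ℝ) ≤ 3 / 8 * h * d := by
    have hsub : T ⊆ T0 ∪ (univ.filter (fun i : Fin q =>
        ((L.filter (fun w => w ∉ T0 ∧ f w = i)).card : ℝ) < g * d)).biUnion
          (fun i => L.filter (fun w => w ∉ T0 ∧ f w = i)) := by
      intro v hv
      rw [hT, Finset.mem_filter] at hv
      by_cases hv0 : v ∈ T0
      · exact Finset.mem_union_left _ hv0
      · apply Finset.mem_union_right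
        rw [Finset.mem_biUnion]
        refine ⟨f v, ?_, ?_⟩
        · rw [Finset.mem_filter]
          exact ⟨Finset.mem_univ _, hv.2.resolve_left hv0⟩
        · rw [Finset.mem_filter]
          exact ⟨hv.1, hv0, rfl⟩
    have h1 : T.card ≤ T0.card + ∑ i ∈ univ.filter (fun i : Fin q =>
        ((L.filter (fun w => w ∉ T0 ∧ f w = i)).card : ℝ) < g * d),
          (L.filter (fun w => w ∉ T0 ∧ f w = i)).card :=
      (Finset.card_le_card hsub).trans ((Finset.card_union_le _ _).trans
        (add_le_add le_rfl Finset.card_biUnion_le))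
    have h2 : (T.card : ℝ) ≤ (T0.card : ℝ) + ∑ i ∈ univ.filter (fun i : Fin q =>
        ((L.filter (fun w => w ∉ T0 ∧ f w = i)).card : ℝ) < g * d),
          ((L.filter (fun w => w ∉ T0 ∧ f w = i)).card : ℝ) := by exact_mod_cast h1
    have h3 : ∑ i ∈ univ.filter (fun i : Fin q =>
        ((L.filter (fun w => w ∉ T0 ∧ f w = i)).card : ℝ) < g * d),
          ((L.filter (fun w => w ∉ T0 ∧ f w = i)).card : ℝ) ≤ q * (g * d) := by
      calc _ ≤ ∑ _i ∈ univ.filter (fun i : Fin q =>
        ((L.filter (fun w => w ∉ T0 ∧ f w = i)).card : ℝ) < g * d), (g * d) :=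
            Finset.sum_le_sum (fun i hi => (Finset.mem_filter.1 hi).2.le)
        _ ≤ ∑ _i : Fin q, (g * d) :=
            Finset.sum_le_sum_of_subset_of_nonneg (Finset.subset_univ _) (fun _ _ _ => by positivity)
        _ = q * (g * d) := by
            rw [Finset.sum_const, nsmul_eq_mul, Finset.card_univ, Fintype.card_fin]
    have h4 : (q : ℝ) * g ≤ h / 4 := by
      rw [hg, mul_div_assoc', div_le_div_iff₀ (by positivity) (by norm_num)]
      nlinarith
    have h5 : (q : ℝ) * (g * d) ≤ h / 4 * d := by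
      calc (q : ℝ) * (g * d) = (q * g) * d := by ring
        _ ≤ h / 4 * d := by gcongr
    have h6 : t * d ≤ h / 8 * d := by gcongr
    linarith
  set γ : ℝ := 1 / (16 * C) with hγ
  set B : Finset V := T.filter (fun v => ¬ (γ * d ≤
    (((nb G v).filter (fun w => f w = f v ∧ w ∈ L ∧ w ∉ T)).card : ℝ))) with hB
  have hTL : T ⊆ L := Finset.filter_subset _ _
  -- crossing degrees outside T0
  have htyp : ∀ v ∈ L, v ∉ T0 →
      (((nb G v).filter (fun w => f w ≠ f v)).card : ℝ) ≤ e * d := by
    intro v hvL hv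
    have h1 : ¬ (e / 2 * d < (((nb G v).filter (fun w => f0 w ≠ f0 v)).card : ℝ)) := by
      intro hlt
      exact hv (Finset.mem_filter.2 ⟨hvL, hlt⟩)
    have hsub : (nb G v).filter (fun w => f w ≠ f v) ⊆
        (nb G v).filter (fun w => f0 w ≠ f0 v) ∪ T0 := by
      intro w hw
      rw [Finset.mem_filter] at hw
      by_cases hw0 : w ∈ T0
      · exact Finset.mem_union_right _ hw0
      · apply Finset.mem_union_left
        rw [Finset.mem_filter]
        refine ⟨hw.1, ?_⟩
        have := hw.2
        rwa [hfn w hw0, hfn v hv] at this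
    have h2 : (((nb G v).filter (fun w => f w ≠ f v)).card : ℝ) ≤
        (((nb G v).filter (fun w => f0 w ≠ f0 v)).card : ℝ) + (T0.card : ℝ) := by
      exact_mod_cast (Finset.card_le_card hsub).trans (Finset.card_union_le _ _)
    have h3 : t * d ≤ e / 2 * d := by gcongr
    push Not at h1
    linarith
  -- own piece
  have hown : ∀ v ∈ T, (2 : ℝ) * (γ * d) + 3 / 8 * h * d ≤
      (((nb G v).filter (fun w => f w = f v)).card : ℝ) := by
    intro v hv
    have hγC : γ * C = 1 / 16 := by
      rw [hγ]; field_simp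
    have hγ1 : γ ≤ 1 / 16 := by
      rw [hγ]
      apply div_le_div_of_nonneg_left (by norm_num) (by norm_num)
      linarith
    by_cases hv0 : v ∈ T0
    · have h1 := hfT v hv0
      have hsub : (nb G v \ T0).filter (fun w => f0 w = f v) ⊆
          (nb G v).filter (fun w => f w = f v) := by
        intro w hw
        rw [Finset.mem_filter, Finset.mem_sdiff] at hw
        rw [Finset.mem_filter]
        exact ⟨hw.1.1, by rw [hfn w hw.1.2]; exact hw.2⟩
      have h2 : (((nb G v \ T0).filter (fun w => f0 w = f v)).card : ℝ) ≤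
          (((nb G v).filter (fun w => f w = f v)).card : ℝ) := by
        exact_mod_cast Finset.card_le_card hsub
      refine le_trans ?_ (h1.trans h2)
      have h3 : ((3 : ℝ) / 4 * d - t * d) / (3 * C) ≤ ((3 : ℝ) / 4 * d - t * d) / q := by
        apply div_le_div_of_nonneg_left _ (by positivity) hq3
        have : t ≤ 1 / 256 := by linarith
        nlinarith
      refine le_trans ?_ h3
      rw [le_div_iff₀ (by positivity)]
      have h4 : (2 * (γ * d) + 3 / 8 * h * d) * (3 * C) =
          6 * (γ * C) * d + 9 / 8 * (h * C) * d := by ring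
      rw [h4, hγC]
      have h5 : h * C ≤ 1 / 32 := by linarith
      have h6 : h * C * d ≤ 1 / 32 * d := by gcongr
      have h7 : t * d ≤ 1 / 256 * d := by
        have : t ≤ 1 / 256 := by linarith
        gcongr
      linarith
    · have hvL := hTL hv
      have h1 := htyp v hvL hv0
      have h2 : (nb G v).card = ((nb G v).filter (fun w => f w = f v)).card +
          ((nb G v).filter (fun w => f w ≠ f v)).card := by
        rw [← Finset.card_filter_add_card_filter_not (s := nb G v) (fun w => f w = f v)]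
      have h3 : ((nb G v).card : ℝ) = (((nb G v).filter (fun w => f w = f v)).card : ℝ) +
          (((nb G v).filter (fun w => f w ≠ f v)).card : ℝ) := by exact_mod_cast h2
      have h4 := hL v hvL
      have h5 : γ * d ≤ 1 / 16 * d := by gcongr
      have h6 : h * d ≤ 1 / 32 * d := by gcongr
      have h7 : e * d ≤ 1 / 2048 * d := by
        have : e ≤ 1 / 2048 := by linarith
        gcongr
      linarith
  refine ⟨⟨f, T, B, hTL, Finset.filter_subset _ _, ?_, ?_, ?_, ?_, ?_, ?_⟩⟩
  · -- Tcard
    have : (0 : ℝ) ≤ h * d := by positivity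
    linarith
  · -- typ
    intro v hvL hv
    exact htyp v hvL (fun hv0 => hv (hT0T hv0))
  · -- exA
    intro v hv hvB
    by_contra hcon
    exact hvB (Finset.mem_filter.2 ⟨hv, hcon⟩)
  · -- exB
    intro v hv
    rw [hB, Finset.mem_filter] at hv
    obtain ⟨hvT, hvn⟩ := hv
    push Not at hvn
    have h1 := hown v hvT
    have hsub : (nb G v).filter (fun w => f w = f v) ⊆
        ((nb G v).filter (fun w => f w = f v ∧ w ∈ L ∧ w ∉ T) ∪
          (nb G v).filter (fun w => f w = f v ∧ w ∉ L)) ∪ T := by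
      intro w hw
      rw [Finset.mem_filter] at hw
      by_cases hwT : w ∈ T
      · exact Finset.mem_union_right _ hwT
      · apply Finset.mem_union_left
        by_cases hwL : w ∈ L
        · exact Finset.mem_union_left _ (Finset.mem_filter.2 ⟨hw.1, hw.2, hwL, hwT⟩)
        · exact Finset.mem_union_right _ (Finset.mem_filter.2 ⟨hw.1, hw.2, hwL⟩)
    have h2 : (((nb G v).filter (fun w => f w = f v)).card : ℝ) ≤
        (((nb G v).filter (fun w => f w = f v ∧ w ∈ L ∧ w ∉ T)).card : ℝ) +
          (((nb G v).filter (fun w => f w = f v ∧ w ∉ L)).card : ℝ) + (T.card : ℝ) := by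
      exact_mod_cast (Finset.card_le_card hsub).trans ((Finset.card_union_le _ _).trans
        (add_le_add (Finset.card_union_le _ _) le_rfl))
    linarith
  · -- cut
    intro i X hX hX1 hX2
    set X' := X \ T0 with hX'
    set Y := univ.filter (fun w => f w = i ∧ w ∉ X) with hY
    set Y' := univ.filter (fun w => f0 w = i ∧ w ∉ X') with hY'
    have ht256 : t * d ≤ 1 / 256 * d := by
      have : t ≤ 1 / 256 := by linarith
      gcongr
    have hX'f : ∀ x ∈ X', f0 x = i := by
      intro x hx
      rw [hX', Finset.mem_sdiff] at hx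
      rw [← hfn x hx.2]; exact hX x hx.1
    have hX'c : (d : ℝ) / 3 ≤ X'.card := by
      have h1 : X.card ≤ X'.card + T0.card := by
        have := Finset.le_card_sdiff T0 X
        rw [← hX'] at this
        omega
      have h2 : (X.card : ℝ) ≤ X'.card + T0.card := by exact_mod_cast h1
      linarith
    have hY'c : (d : ℝ) / 3 ≤ Y'.card := by
      have hsub : Y \ T0 ⊆ Y' := by
        intro w hw
        rw [Finset.mem_sdiff, hY, Finset.mem_filter] at hw
        rw [hY', Finset.mem_filter]
        refine ⟨Finset.mem_univ _, ?_, ?_⟩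
        · rw [← hfn w hw.2]; exact hw.1.2.1
        · intro hw'
          rw [hX', Finset.mem_sdiff] at hw'
          exact hw.1.2.2 hw'.1
      have h1 : Y.card ≤ Y'.card + T0.card := by
        have := Finset.le_card_sdiff T0 Y
        have := Finset.card_le_card hsub
        omega
      have h2 : (Y.card : ℝ) ≤ Y'.card + T0.card := by exact_mod_cast h1
      linarith
    have hm := hmax X' i hX'f hX'c hY'c
    have hYsub : Y' ⊆ Y ∪ T0 := by
      intro w hw
      rw [hY', Finset.mem_filter] at hw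
      by_cases hw0 : w ∈ T0
      · exact Finset.mem_union_right _ hw0
      · apply Finset.mem_union_left
        rw [hY, Finset.mem_filter]
        refine ⟨Finset.mem_univ _, by rw [hfn w hw0]; exact hw.2.1, ?_⟩
        intro hwX
        exact hw.2.2 (Finset.mem_sdiff.2 ⟨hwX, hw0⟩)
    have h1 : (ee G X' Y' : ℝ) ≤ (ee G X' Y : ℝ) + (ee G X' T0 : ℝ) := by
      exact_mod_cast ee_union G X' Y T0 Y' hYsub
    have h2 : (ee G X' T0 : ℝ) ≤ (T0.card : ℝ) * d := by
      rw [ee_comm]
      exact_mod_cast ee_le G T0 X' hdeg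
    have h3 : (ee G X' Y : ℝ) ≤
        ∑ x ∈ X, (((nb G x).filter (fun w => f w = i ∧ w ∉ X)).card : ℝ) := by
      unfold ee
      push_cast
      calc ∑ x ∈ X', ((nb G x ∩ Y).card : ℝ)
          ≤ ∑ x ∈ X, ((nb G x ∩ Y).card : ℝ) :=
            Finset.sum_le_sum_of_subset_of_nonneg Finset.sdiff_subset (fun _ _ _ => by positivity)
        _ = ∑ x ∈ X, (((nb G x).filter (fun w => f w = i ∧ w ∉ X)).card : ℝ) := by
            refine Finset.sum_congr rfl (fun x _ => ?_)
            congr 2
            ext w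
            simp [hY]
    have h4 : (T0.card : ℝ) * d ≤ r / 32 * (d : ℝ) ^ 2 := by
      calc (T0.card : ℝ) * d ≤ (t * d) * d := by gcongr
        _ ≤ (r / 32 * d) * d := by gcongr
        _ = r / 32 * (d : ℝ) ^ 2 := by ring
    have h5 : 0 ≤ r * (d : ℝ) ^ 2 := by positivity
    nlinarith
  · -- big
    intro i
    by_cases hi : ((L.filter (fun w => w ∉ T0 ∧ f w = i)).card : ℝ) < g * d
    · left
      intro v hvL hvT hvi
      apply hvT
      rw [hT, Finset.mem_filter]
      refine ⟨hvL, Or.inr ?_⟩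
      rw [hvi]; exact hi
    · right
      push Not at hi
      have : L.filter (fun v => v ∉ T ∧ f v = i) = L.filter (fun w => w ∉ T0 ∧ f w = i) := by
        ext v
        simp only [Finset.mem_filter]
        constructor
        · rintro ⟨h1, h2, h3⟩
          exact ⟨h1, fun h => h2 (hT0T h), h3⟩
        · rintro ⟨h1, h2, h3⟩
          refine ⟨h1, ?_, h3⟩
          intro hvT
          rw [hT, Finset.mem_filter] at hvT
          rcases hvT.2 with h4 | h4
          · exact h2 h4
          · rw [h3] at h4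
            exact absurd hi (not_le.2 h4)
      rw [this]
      exact hi

end build

/-- the scales -/
noncomputable def sc (h : ℝ → ℝ) (q0 : ℕ) : ℕ → ℝ
  | 0 => 1
  | k + 1 => min (sc h q0 k / 2) (((h (sc h q0 k / 8) / (64 * (q0 : ℝ) ^ 2)) / 2) *
      min ((h (sc h q0 k / 8) / (64 * (q0 : ℝ) ^ 2)) / 2)
        (min (h (sc h q0 k / 8) / 8) (sc h q0 k / 32)))

lemma sc_pos (h : ℝ → ℝ) (q0 : ℕ) (hq : 0 < q0) (hh : ∀ x, 0 < x → 0 < h x) (k : ℕ) :
    0 < sc h q0 k := by
  induction k with
  | zero => simp [sc]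
  | succ k ih =>
    have h1 : 0 < h (sc h q0 k / 8) := hh _ (by positivity)
    have h2 : (0 : ℝ) < q0 := by exact_mod_cast hq
    simp only [sc]
    refine lt_min (by positivity) (mul_pos (by positivity) (lt_min (by positivity)
      (lt_min (by positivity) (by positivity))))

theorem stmt_DEC : Stmt_DEC.{u} := by
  intro C h hC hh
  have hC0 : 0 < C := by linarith
  set q0 : ℕ := ⌈3 * C⌉₊ with hq0
  have hq0p : 0 < q0 := Nat.ceil_pos.2 (by linarith)
  have hq0C : 3 * C ≤ (q0 : ℝ) := Nat.le_ceil _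
  have hpos : ∀ k, 0 < sc h q0 k := sc_pos h q0 hq0p (fun x hx => (hh x hx).1)
  refine ⟨q0, (Finset.range (q0 + 1)).image (fun k => sc h q0 k / 8), 1, hq0p, ?_, ?_⟩
  · intro ρ hρ
    obtain ⟨k, -, rfl⟩ := Finset.mem_image.1 hρ
    have := hpos k
    positivity
  intro V _ G d L hd hdn hn hdeg hL
  have hdR : (1 : ℝ) ≤ (d : ℝ) := by exact_mod_cast hd
  have hd0 : (0 : ℝ) < (d : ℝ) := by linarith
  -- class sizes bound the number of classes
  have hsize : ∀ (q : ℕ) (f : V → Fin q),
      (∀ i, (d : ℝ) / 3 ≤ ((univ.filter (fun v => f v = i)).card : ℝ)) → (q : ℝ) ≤ 3 * C := by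
    intro q f hf
    have h1 : (Fintype.card V : ℝ) = ∑ i : Fin q, ((univ.filter (fun v => f v = i)).card : ℝ) := by
      have := Finset.card_eq_sum_card_fiberwise (f := f) (s := (Finset.univ : Finset V))
        (t := (Finset.univ : Finset (Fin q))) (fun _ _ => Finset.mem_univ _)
      rw [← Finset.card_univ, this]; push_cast; rfl
    have h2 : (q : ℝ) * (d / 3) ≤ (Fintype.card V : ℝ) := by
      rw [h1]
      calc (q : ℝ) * (d / 3) = ∑ _i : Fin q, (d / 3 : ℝ) := by
            rw [Finset.sum_const, nsmul_eq_mul, Finset.card_univ, Fintype.card_fin]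
        _ ≤ _ := Finset.sum_le_sum (fun i _ => hf i)
    have h3 : (q : ℝ) * (d / 3) ≤ C * d := h2.trans hn
    have h4 : (q : ℝ) * d ≤ (3 * C) * d := by linarith
    exact le_of_mul_le_mul_right h4 hd0
  let P : ℕ → Prop := fun m => ∃ f : V → Fin (m + 1),
    (∀ i, (d : ℝ) / 3 ≤ ((univ.filter (fun v => f v = i)).card : ℝ)) ∧
      (cr G f : ℝ) ≤ sc h q0 (q0 - m) * (d : ℝ) ^ 2
  have hP0 : P 0 := by
    refine ⟨fun _ => 0, ?_, ?_⟩
    · intro i
      have : univ.filter (fun _ : V => (0 : Fin 1) = i) = univ := by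
        ext v; simp [Subsingleton.elim (0 : Fin 1) i]
      rw [this, Finset.card_univ]
      have h1 : (d : ℝ) ≤ (Fintype.card V : ℝ) := by exact_mod_cast hdn
      linarith
    · have : cr G (fun _ : V => (0 : Fin (0 + 1))) = 0 := by simp [cr]
      rw [this]
      have := hpos (q0 - 0)
      push_cast
      positivity
  have hPq : ¬ P q0 := by
    rintro ⟨f, hf, -⟩
    have := hsize _ f hf
    push_cast at this
    linarith
  have hex : ∃ m, ¬ P m := ⟨q0, hPq⟩
  have hfind := Nat.find_spec hex
  set m1 := Nat.find hex with hm1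
  have hm1q : m1 ≤ q0 := Nat.find_min' hex hPq
  have hm10 : m1 ≠ 0 := fun h0 => by rw [h0] at hfind; exact hfind hP0
  obtain ⟨m, hm⟩ : ∃ m, m1 = m + 1 := ⟨m1 - 1, by omega⟩
  have hPm : P m := by
    by_contra hcon
    have := Nat.find_min' hex hcon
    omega
  rw [hm] at hfind
  obtain ⟨f0, hf0, hcr0⟩ := hPm
  have hidx : q0 - m = (q0 - (m + 1)) + 1 := by omega
  rw [hidx] at hcr0
  set k := q0 - (m + 1) with hk
  set r := sc h q0 k with hr
  have hrp : 0 < r := hpos k
  refine ⟨r / 8, Finset.mem_image.2 ⟨k, Finset.mem_range.2 (by omega), rfl⟩, m + 1, by omega, ?_⟩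
  have hs1 : sc h q0 (k + 1) ≤ r / 2 := by
    simp only [sc]
    exact min_le_left _ _
  have hs2 : sc h q0 (k + 1) ≤ ((h (r / 8) / (64 * (q0 : ℝ) ^ 2)) / 2) *
      min ((h (r / 8) / (64 * (q0 : ℝ) ^ 2)) / 2) (min (h (r / 8) / 8) (r / 32)) := by
    simp only [sc]
    exact min_le_right _ _
  have hh8 := hh (r / 8) (by positivity)
  refine build (q0 := q0) (C := C) hC hd (by omega) (by omega) (hsize _ f0 hf0) hdeg hL hh8.1 hh8.2
    hrp f0 (hcr0.trans (by gcongr)) ?_
  intro X i hX hX1 hX2
  by_contra hcon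
  push Not at hcon
  apply hfind
  refine ⟨spl f0 X, ?_, ?_⟩
  · intro j
    refine Fin.lastCases ?_ (fun j' => ?_) j
    · rw [spl_last]; exact hX1
    · rw [spl_cast]
      by_cases hj : j' = i
      · rw [hj]; exact hX2
      · have : univ.filter (fun v => f0 v = j' ∧ v ∉ X) = univ.filter (fun v => f0 v = j') := by
          ext v
          simp only [Finset.mem_filter, Finset.mem_univ, true_and, and_iff_left_iff_imp]
          intro hv hvX
          exact hj (by rw [← hv, hX v hvX])
        rw [this]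
        exact hf0 j'
  · have h1 : (cr G (spl f0 X) : ℝ) ≤ (cr G f0 : ℝ) +
        2 * (ee G X (univ.filter (fun w => f0 w = i ∧ w ∉ X)) : ℝ) := by
      exact_mod_cast cr_spl G f0 X i hX
    have h2 : (cr G f0 : ℝ) ≤ r / 2 * (d : ℝ) ^ 2 := hcr0.trans (by gcongr)
    have h3 : sc h q0 (q0 - (m + 1)) = r := rfl
    rw [h3]
    linarith

end Pool.Agent.Work.MP_db9399_dn.DEC
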