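import Pool.Agent.Work.MP_db9399_dn.Interface

/-! Block FIND: the theorem from STEP, DEC, CHOOSE, COL, ASM (helper25). -/

set_option autoImplicit false

namespace Pool.Agent.Work.MP_db9399_dn.FIND

open Finset Classical
open Pool.Agent.Work.MP_db9399_all (nb)
open _root_.MP_db9399_co

universe u

section aux
variable {V : Type u} [Fintype V]

lemma mem_nb (G : SimpleGraph V) (v w : V) : w ∈ nb G v ↔ G.Adj v w := by
  unfold nb; simp

lemma card_nb (G : SimpleGraph V) [DecidableRel G.Adj] (v : V) : (nb G v).card = G.degree v := by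
  rw [← SimpleGraph.card_neighborFinset_eq_degree]
  congr 1
  ext w
  rw [mem_nb]
  simp

lemma sum_nb_sdiff (G : SimpleGraph V) [DecidableRel G.Adj] (A S : Finset V) :
    (∑ a ∈ A, ((nb G a \ S).card : ℝ)) = ((G.interedges A (univ \ S)).card : ℝ) := by
  have h : (G.interedges A (univ \ S)).card = ∑ a ∈ A, (nb G a \ S).card := by
    rw [SimpleGraph.interedges_def, card_filter, sum_product]
    refine sum_congr rfl fun a _ => ?_
    rw [← card_filter]
    congr 1
    ext w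
    simp [mem_nb, and_comm]
  rw [h]
  push_cast
  rfl

/-- monotonicity of `StepProp` -/
lemma step_mono {q : ℕ} {G : SimpleGraph V} {d : ℕ} {L B : Finset V} {f : V → Fin q} {δ δ' : ℝ}
    (h : StepProp G d L B f δ) (hd : δ' ≤ δ) : StepProp G d L B f δ' := by
  intro D R h1 h2 h3
  have h0 : δ' * (d : ℝ) ≤ δ * d := mul_le_mul_of_nonneg_right hd (Nat.cast_nonneg d)
  exact h D R (fun v => (h1 v).trans h0) (h2.trans h0) h3

/-- a matching has at most twice as many vertices as edges -/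
lemma card_verts_le {G : SimpleGraph V} (H : G.Subgraph) (hM : H.IsMatching) :
    (univ.filter (fun v => v ∈ H.verts)).card ≤ 2 * H.edgeSet.ncard := by
  have h1 := SimpleGraph.sum_degrees_eq_twice_card_edges H.spanningCoe
  have h2 : H.edgeSet.ncard = #H.spanningCoe.edgeFinset := by
    rw [← Set.ncard_coe_finset]
    congr 1
    ext e
    simp
  rw [h2, ← h1, card_filter]
  refine sum_le_sum fun v _ => ?_
  split_ifs with hv
  · obtain ⟨w, hw, _⟩ := hM hv
    have : 0 < H.spanningCoe.degree v := by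
      rw [SimpleGraph.degree_pos_iff_exists_adj]
      exact ⟨w, by simpa using hw⟩
    omega
  · exact Nat.zero_le _

end aux

/-- constants: a positive lower bound of a positive function on a finite set -/
lemma exists_min (R : Finset ℝ) (f : ℝ → ℝ) (h : ∀ r ∈ R, 0 < f r) :
    ∃ m : ℝ, 0 < m ∧ ∀ r ∈ R, m ≤ f r := by
  induction R using Finset.induction_on with
  | empty => exact ⟨1, one_pos, by simp⟩
  | insert a s ha ih =>
    obtain ⟨m, hm, hm2⟩ := ih (fun r hr => h r (mem_insert_of_mem hr))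
    refine ⟨min m (f a), lt_min hm (h a (mem_insert_self a s)), ?_⟩
    intro r hr
    rcases mem_insert.1 hr with rfl | hr
    · exact min_le_right _ _
    · exact (min_le_left _ _).trans (hm2 r hr)

/-- Block FIND. -/
theorem stmt_FIND : Stmt_FIND.{u} := by
  intro hSTEP hDEC hCHOOSE hCOL hASM η hη
  rcases le_or_gt 1 η with h1 | h1
  · -- void
    refine ⟨1, 1, one_pos, ?_⟩
    intro V _ G _ k m hn hmax
    exfalso
    have hne : Nonempty V := Fintype.card_pos_iff.1 (by omega)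
    have h2 : G.maxDegree < Fintype.card V := SimpleGraph.maxDegree_lt_card_verts G
    have h3 : (G.maxDegree : ℝ) < Fintype.card V := by exact_mod_cast h2
    have h4 : (Fintype.card V : ℝ) ≤ η * Fintype.card V := by
      have : (0 : ℝ) ≤ Fintype.card V := Nat.cast_nonneg _
      nlinarith
    linarith
  -- constants
  set C : ℝ := 1 / η with hC
  have hC1 : 1 ≤ C := by rw [hC, le_div_iff₀ hη]; linarith
  have hC0 : 0 < C := by linarith
  have hCη : C * η = 1 := by rw [hC]; field_simp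
  set γ : ℝ := 1 / (16 * C) with hγ
  have hγ0 : 0 < γ := by rw [hγ]; positivity
  have hS : ∀ ρ : ℝ, ∃ (δ : ℝ) (d0 : ℕ), 0 < ρ → 0 < δ ∧
    ∀ {V : Type u} [Fintype V] (G : SimpleGraph V) (d q : ℕ) (L : Finset V) (a e g : ℝ)
      (P : Pieces G d q L a e γ g ρ), d0 ≤ d → a ≤ δ → e ≤ δ → (Fintype.card V : ℝ) ≤ C * d →
      (∀ v, (nb G v).card ≤ d) → (∀ v ∈ L, (1 - η / 16) * d ≤ ((nb G v).card : ℝ)) →
      NB η G d L → StepProp G d L P.B P.f δ := by
    intro ρ
    rcases le_or_gt ρ 0 with hρ | hρ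
    · exact ⟨0, 0, fun h => absurd h (not_lt.2 hρ)⟩
    · obtain ⟨δ, d0, h2, h3⟩ := hSTEP η γ ρ C hη h1.le hγ0 hρ hC0
      exact ⟨δ, d0, fun _ => ⟨h2, h3⟩⟩
  choose δS dS hS using hS
  set h : ℝ → ℝ := fun ρ => min (δS ρ) (1 / (32 * C)) with hh
  have hh1 : ∀ x, 0 < x → 0 < h x ∧ h x ≤ 1 / (32 * C) := by
    intro x hx
    exact ⟨lt_min (hS x hx).1 (by positivity), min_le_right _ _⟩
  obtain ⟨q0, Rs, dD, hq0, hRs, hD⟩ := hDEC C h hC1 hh1
  obtain ⟨m1, hm1, hm1'⟩ := exists_min Rs h (fun r hr => (hh1 r (hRs r hr)).1)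
  set δ : ℝ := min (m1 / 2) (η / 16) with hδ
  have hδ0 : 0 < δ := lt_min (by positivity) (by positivity)
  have hδ1 : ∀ ρ ∈ Rs, 2 * δ ≤ δS ρ := by
    intro ρ hρ
    have a1 : δ ≤ m1 / 2 := min_le_left _ _
    have a2 := hm1' ρ hρ
    have a3 : h ρ ≤ δS ρ := min_le_left _ _
    linarith
  have hδ2 : δ ≤ η / 16 := min_le_right _ _
  have hq0r : (1 : ℝ) ≤ q0 := by exact_mod_cast hq0
  -- CHOOSE
  have hCh : ∀ ρ : ℝ, ∃ (c : ℝ) (d0 : ℕ), 0 < ρ → 0 < c ∧
    ∀ {V : Type u} [Fintype V] (G : SimpleGraph V) (d q k : ℕ) (L : Finset V) (a e ρ' : ℝ)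
      (P : Pieces G d q L a e γ (h ρ / (4 * q0)) ρ') (J : V → ℕ) (χ : ℕ) (UH : Finset V)
      (c0 : V → Fin k)
      (EH : SimpleGraph V) (t0 : V → V → Fin k), d0 ≤ d → d + 2 ≤ k → q ≤ q0 →
      e * (16 * q0) ≤ h ρ / (4 * q0) →
      (Fintype.card V : ℝ) ≤ C * d → (∀ v, (nb G v).card ≤ d) →
      (χ : ℝ) ≤ c * d → (∀ v, J v < χ) → (∀ v w, G.Adj v w → J v ≠ J w) →
      (UH.card : ℝ) ≤ c * d → (∀ v ∈ UH, ∀ w ∈ UH, G.Adj v w → c0 v ≠ c0 w) →
      EH ≤ G → IsMat EH →
      (∀ v w, EH.Adj v w → v ∈ UH ∧ t0 v w ≠ c0 v ∧ t0 v w = t0 w v) →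
      Nonempty (Plan G d k L P.B P.f δ UH c0 EH t0) := by
    intro ρ
    rcases le_or_gt ρ 0 with hρ | hρ
    · exact ⟨0, 0, fun h => absurd h (not_lt.2 hρ)⟩
    · have a1 : 0 < h ρ / (4 * q0) := by
        have := (hh1 ρ hρ).1
        positivity
      obtain ⟨c, d0, h2, h3⟩ := hCHOOSE δ C (h ρ / (4 * q0)) γ q0 hδ0 hC0 a1 hγ0 hq0
      exact ⟨c, d0, fun _ => ⟨h2, h3⟩⟩
  choose cC dC hCh using hCh
  obtain ⟨m2, hm2, hm2'⟩ := exists_min Rs cC (fun r hr => (hCh r (hRs r hr)).1)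
  -- the final constants
  set N1 : ℕ := dD + ∑ r ∈ Rs, dS r + ∑ r ∈ Rs, dC r with hN1
  refine ⟨m2 / (2 * C), ⌈(N1 : ℝ) * C⌉₊ + 1, by positivity, ?_⟩
  intro V _ G _ k m hn hmax hcol hm hNB hk H hH hHe c₀ t₀ h₀
  set n : ℕ := Fintype.card V with hnV
  set d : ℕ := G.maxDegree with hd
  have hn1 : (N1 : ℝ) * C ≤ n := by
    have a1 : (⌈(N1 : ℝ) * C⌉₊ : ℝ) ≤ n := by
      have : ⌈(N1 : ℝ) * C⌉₊ ≤ n := by omega
      exact_mod_cast this
    exact (Nat.le_ceil _).trans a1
  have hnC : (n : ℝ) ≤ C * d := by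
    have : C * (η * n) ≤ C * d := mul_le_mul_of_nonneg_left hmax hC0.le
    rw [← mul_assoc, hCη, one_mul] at this
    exact this
  have hdN : N1 ≤ d := by
    have a1 : (N1 : ℝ) * C ≤ d * C := by linarith
    have a2 : (N1 : ℝ) ≤ d := le_of_mul_le_mul_right a1 hC0
    exact_mod_cast a2
  have hdn : d ≤ n := by
    have hne : Nonempty V := Fintype.card_pos_iff.1 (by omega)
    exact (SimpleGraph.maxDegree_lt_card_verts G).le
  have hdeg : ∀ v, (nb G v).card ≤ d := by
    intro v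
    rw [card_nb]
    exact G.degree_le_maxDegree v
  set L : Finset V := univ.filter (fun v => (1 - η / 16) * d ≤ ((nb G v).card : ℝ)) with hL
  have hLm : ∀ v, v ∈ L ↔ (1 - η / 16) * d ≤ ((nb G v).card : ℝ) := by
    intro v; rw [hL]; simp
  have hd0 : (0 : ℝ) ≤ d := Nat.cast_nonneg d
  obtain ⟨ρ, hρ, q, hq, ⟨P⟩⟩ := hD G d L (by omega) hdn hnC hdeg (by
    intro v hv
    refine le_trans ?_ ((hLm v).1 hv)
    apply mul_le_mul_of_nonneg_right _ hd0
    linarith)
  have hρ0 := hRs ρ hρ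
  have hdS : dS ρ ≤ ∑ r ∈ Rs, dS r := single_le_sum (f := dS) (fun _ _ => Nat.zero_le _) hρ
  have hdC : dC ρ ≤ ∑ r ∈ Rs, dC r := single_le_sum (f := dC) (fun _ _ => Nat.zero_le _) hρ
  have hhρ := (hh1 ρ hρ0).1
  have hhS : h ρ ≤ δS ρ := min_le_left _ _
  have he : h ρ / (64 * (q0 : ℝ) ^ 2) ≤ δS ρ := by
    refine le_trans ?_ hhS
    apply div_le_self hhρ.le
    nlinarith
  have hNB' : NB η G d L := by
    intro S T hST hTL hc
    rw [sum_nb_sdiff]
    refine hNB S T hST ?_ hc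
    intro t ht
    have a1 := (hLm t).1 (hTL ht)
    rw [card_nb] at a1
    refine le_trans ?_ a1
    apply mul_le_mul_of_nonneg_right _ hd0
    linarith
  have hStep : StepProp G d L P.B P.f (2 * δ) :=
    step_mono ((hS ρ hρ0).2 G d q L _ _ _ P (by omega) hhS he hnC hdeg
      (fun v hv => (hLm v).1 hv) hNB') (hδ1 ρ hρ)
  -- the precolouring
  obtain ⟨hM, hdist⟩ := hH
  set U : Finset V := univ.filter (fun v => v ∈ H.verts) with hU
  have hUmem : ∀ v, v ∈ U ↔ v ∈ H.verts := by intro v; rw [hU]; simp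
  have hF2 : ∀ u ∈ U, ∀ v ∈ U, G.Adj u v → H.Adj u v := by
    intro u hu v hv huv
    by_contra hn
    have h1 := hdist u ((hUmem u).1 hu) v ((hUmem v).1 hv) huv.ne hn
    have h3 : G.edist u v ≤ ((SimpleGraph.Walk.cons huv SimpleGraph.Walk.nil).length : ℕ∞) :=
      SimpleGraph.edist_le _
    simp only [SimpleGraph.Walk.length_cons, SimpleGraph.Walk.length_nil] at h3
    have h4 := h1.trans h3
    norm_num at h4
  have hF4 : ∀ u v v', H.Adj u v → H.Adj u v' → v = v' := by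
    intro u v v' h1 h2
    exact (hM h1.fst_mem).unique h1 h2
  have hUadj : ∀ a b, H.Adj a b → a ∈ U := fun a b h => (hUmem a).2 h.fst_mem
  have hm2ρ : m2 ≤ cC ρ := hm2' ρ hρ
  have hcd : m2 / (2 * C) * n ≤ m2 / 2 * d := by
    have : m2 / (2 * C) * n ≤ m2 / (2 * C) * (C * d) :=
      mul_le_mul_of_nonneg_left hnC (by positivity)
    refine this.trans (le_of_eq ?_)
    field_simp
  have hcd2 : m2 * d ≤ cC ρ * d := mul_le_mul_of_nonneg_right hm2ρ hd0
  have hm2d : 0 ≤ m2 * d := by positivity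
  obtain ⟨J⟩ := hcol
  obtain ⟨X⟩ := (hCh ρ hρ0).2 G d q k L _ _ ρ P (fun v => (J v : ℕ)) m U c₀ H.spanningCoe
    (fun v w => t₀ s(v, w)) (by omega) hk hq
    (by
      refine le_of_eq ?_
      field_simp
      ring)
    hnC hdeg (by linarith) (fun v => (J v).2)
    (fun v w hvw h => J.valid hvw (Fin.ext h))
    (by
      have a1 := card_verts_le H hM
      have a2 : (U.card : ℝ) ≤ 2 * (H.edgeSet.ncard : ℝ) := by exact_mod_cast a1
      linarith)
    (fun v hv w hw hvw => h₀.vertex v w (by simpa using hF2 v hv w hw hvw))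
    (by
      intro v w hvw
      have : H.Adj v w := by simpa using hvw
      exact this.adj_sub)
    (by
      intro v
      rw [card_le_one]
      intro a ha b hb
      rw [mem_nb] at ha hb
      exact hF4 v a b (by simpa using ha) (by simpa using hb))
    (by
      intro v w hvw
      have hvw' : H.Adj v w := by simpa using hvw
      refine ⟨hUadj v w hvw', ?_, ?_⟩
      · exact h₀.incidence v w hvw
      · rw [Sym2.eq_swap])
  obtain ⟨Mt⟩ := hCOL X hδ0 hStep
  obtain ⟨t, ⟨g1, g2, g3, g4⟩, g5⟩ := hASM X Mt hk hdeg (by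
      intro v hv
      have a1 : ((nb G v).card : ℝ) < (1 - η / 16) * d := by
        by_contra hcon
        exact hv ((hLm v).2 (not_lt.1 hcon))
      have a2 := X.palcard
      have a3 : δ * d ≤ η / 16 * d := mul_le_mul_of_nonneg_right hδ2 hd0
      have a4 : ((nb G v).card : ℝ) + X.Pal.card ≤ d + 1 := by linarith
      exact_mod_cast a4)
    (fun v w _ => by simp only [Sym2.eq_swap])
  refine ⟨X.c, Sym2.lift ⟨fun a b => t a b, fun a b => g2 a b⟩, ⟨?_, ?_, ?_⟩, ?_, ?_⟩
  · exact g1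
  · intro u v w huv huw hvw heq
    apply hvw
    exact g3 u (by rw [Finset.mem_coe, mem_nb]; exact huv) (by rw [Finset.mem_coe, mem_nb]; exact huw)
      heq
  · intro u v huv
    exact g4 u v huv
  · intro v hv
    exact X.cH v ((hUmem v).2 hv)
  · intro e he
    induction e using Sym2.ind with
    | _ a b =>
      have : H.Adj a b := by simpa using he
      exact g5 a b (by simpa using this)

end Pool.Agent.Work.MP_db9399_dn.FIND
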