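import Pool.Agent.Work.MP_db9399_dn.Interface

/-!
# MP_db9399: block STEP of THEOREM DENSE (helper34)
-/

set_option autoImplicit false

namespace Pool.Agent.Work.MP_db9399_dn

open Finset Classical
open Pool.Agent.Work.MP_db9399_all (nb)

universe u

namespace StepAux

variable {V : Type u} [Fintype V]

lemma mem_nb {G : SimpleGraph V} {v w : V} : w ∈ nb G v ↔ G.Adj v w := by simp [nb]

/-- the graph `G` without the edges of `D` -/
abbrev del (G D : SimpleGraph V) : SimpleGraph V := G \ D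

lemma del_adj {G D : SimpleGraph V} {v w : V} : (del G D).Adj v w ↔ G.Adj v w ∧ ¬ D.Adj v w := by
  simp [del]

lemma isMat_of {M : SimpleGraph V} (h : ∀ v w w', M.Adj v w → M.Adj v w' → w = w') : IsMat M := by
  intro v
  rw [Finset.card_le_one]
  intro a ha b hb
  exact h v a b (mem_nb.1 ha) (mem_nb.1 hb)

lemma IsMat.eq {M : SimpleGraph V} (h : IsMat M) {v w w' : V} (h1 : M.Adj v w)
    (h2 : M.Adj v w') : w = w' :=
  Finset.card_le_one.1 (h v) w (mem_nb.2 h1) w' (mem_nb.2 h2)

/-- Greedy choice of partners. -/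
lemma partners {T : Finset V} (A : V → Finset V) (h : ∀ t ∈ T, T.card ≤ (A t).card) :
    ∃ p : V → V, (∀ t ∈ T, p t ∈ A t) ∧ ∀ t ∈ T, ∀ t' ∈ T, p t = p t' → t = t' := by
  have hall := (Finset.all_card_le_biUnion_card_iff_exists_injective
    (fun t : T => A t.1)).1 (by
      intro s
      rcases s.eq_empty_or_nonempty with rfl | ⟨t, ht⟩
      · simp
      · have h1 : s.card ≤ T.card := by
          have := Finset.card_le_univ s
          rwa [Fintype.card_coe] at this
        have h2 : (A t.1).card ≤ (s.biUnion fun t : T => A t.1).card :=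
          Finset.card_le_card (Finset.subset_biUnion_of_mem (fun t : T => A t.1) ht)
        exact h1.trans ((h t.1 t.2).trans h2))
  obtain ⟨f, hf, hfA⟩ := hall
  refine ⟨fun v => if hv : v ∈ T then f ⟨v, hv⟩ else v, ?_, ?_⟩
  · intro t ht
    simp only [dif_pos ht]
    exact hfA ⟨t, ht⟩
  · intro t ht t' ht' h
    simp only [dif_pos ht, dif_pos ht'] at h
    have := hf h
    exact congrArg Subtype.val this

end StepAux

open StepAux

theorem stmt_STEP (hML : Stmt_ML.{u}) : Stmt_STEP.{u} := by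
  intro η γ ρ C hη hη1 hγ hρ hC
  obtain ⟨d0, hd0⟩ := hML η (ρ / 2) C hη hη1 (by positivity)
  set δ : ℝ := min (γ / 3) (min (η / 80) (ρ / (8 * C))) with hδdef
  have hδ : 0 < δ := by
    rw [hδdef]
    exact lt_min (by positivity) (lt_min (by positivity) (by positivity))
  have hδ1 : 3 * δ ≤ γ := by
    have : δ ≤ γ / 3 := min_le_left _ _
    linarith
  have hδ2 : 5 * δ ≤ η / 16 := by
    have : δ ≤ η / 80 := (min_le_right _ _).trans (min_le_left _ _)
    linarith
  have hδ3 : 4 * C * δ ≤ ρ / 2 := by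
    have h : δ ≤ ρ / (8 * C) := (min_le_right _ _).trans (min_le_right _ _)
    rw [le_div_iff₀ (by positivity)] at h
    linarith
  refine ⟨δ, max d0 1, hδ, ?_⟩
  intro V _ G d q L a e g P hd ha he hCV hdeg hL hNB D R hD hR hpar
  have hd0' : d0 ≤ d := (le_max_left _ _).trans hd
  have hd1 : (0 : ℝ) < d := by
    have : 1 ≤ d := (le_max_right _ _).trans hd
    exact_mod_cast this
  set T := P.T with hT
  set B := P.B with hB
  set f := P.f with hf
  have hTc : (T.card : ℝ) ≤ δ * d := P.Tcard.trans (by gcongr)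
  -- partners of the exceptional vertices
  set A : V → Finset V := fun t => (nb G t).filter fun w =>
    f w = f t ∧ w ∉ R ∧ ¬ D.Adj t w ∧ (if t ∈ B then w ∉ L else w ∈ L ∧ w ∉ T) with hA
  have hAcard : ∀ t ∈ T, T.card ≤ (A t).card := by
    intro t ht
    have key : ∀ S : Finset V, γ * d ≤ (S.card : ℝ) → S \ (R ∪ nb D t) ⊆ A t →
        T.card ≤ (A t).card := by
      intro S hS hsub
      have h1 : (S.card : ℝ) ≤ (A t).card + R.card + (nb D t).card := by
        have h2 : S ⊆ A t ∪ (R ∪ nb D t) := by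
          intro x hx
          by_cases h3 : x ∈ R ∪ nb D t
          · exact Finset.mem_union_right _ h3
          · exact Finset.mem_union_left _ (hsub (Finset.mem_sdiff.2 ⟨hx, h3⟩))
        have h3 := (Finset.card_le_card h2).trans ((Finset.card_union_le _ _).trans
          (Nat.add_le_add_left (Finset.card_union_le _ _) _))
        have h4 : S.card ≤ (A t).card + R.card + (nb D t).card := by omega
        exact_mod_cast h4
      have h2 := hD t
      have h3 : (3 * δ) * d ≤ γ * d := by gcongr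
      have h4 : (T.card : ℝ) ≤ (A t).card := by linarith
      exact_mod_cast h4
    by_cases htB : t ∈ B
    · refine key _ (P.exB t htB) ?_
      intro w hw
      simp only [Finset.mem_sdiff, Finset.mem_filter, Finset.mem_union, mem_nb, not_or] at hw
      obtain ⟨⟨h1, h2, h3⟩, h4, h5⟩ := hw
      simp only [hA, Finset.mem_filter, mem_nb, if_pos htB]
      exact ⟨h1, h2, h4, h5, h3⟩
    · refine key _ (P.exA t ht htB) ?_
      intro w hw
      simp only [Finset.mem_sdiff, Finset.mem_filter, Finset.mem_union, mem_nb, not_or] at hw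
      obtain ⟨⟨h1, h2, h3, h3'⟩, h4, h5⟩ := hw
      simp only [hA, Finset.mem_filter, mem_nb, if_neg htB]
      exact ⟨h1, h2, h4, h5, h3, h3'⟩
  obtain ⟨p, hpA, hpinj⟩ := partners A hAcard
  have hp : ∀ t ∈ T, G.Adj t (p t) ∧ f (p t) = f t ∧ p t ∉ R ∧ ¬ D.Adj t (p t) ∧ p t ∉ T ∧
      (p t ∈ L ↔ t ∉ B) := by
    intro t ht
    have h := hpA t ht
    simp only [hA, Finset.mem_filter, mem_nb] at h
    obtain ⟨h1, h2, h3, h4, h5⟩ := h
    by_cases htB : t ∈ B
    · rw [if_pos htB] at h5
      exact ⟨h1, h2, h3, h4, fun h => h5 (P.TL h), by simp [htB, h5]⟩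
    · rw [if_neg htB] at h5
      exact ⟨h1, h2, h3, h4, h5.2, by simp [htB, h5.1]⟩
  set T1 : Finset V := T \ R with hT1
  set Q : Finset V := T1.image p with hQ
  have hQc : (Q.card : ℝ) ≤ δ * d := by
    have h1 : Q.card ≤ T.card := Finset.card_image_le.trans (Finset.card_le_card Finset.sdiff_subset)
    have h2 : (Q.card : ℝ) ≤ T.card := by exact_mod_cast h1
    linarith
  have hQT : ∀ x ∈ Q, x ∉ T := by
    intro x hx
    obtain ⟨t, ht, rfl⟩ := Finset.mem_image.1 hx
    exact (hp t (Finset.mem_sdiff.1 ht).1).2.2.2.2.1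
  -- the pieces
  set U : Fin q → Finset V := fun i => univ.filter fun v => f v = i ∧ v ∉ R ∧ v ∉ T ∧ v ∉ Q with hU
  have memU : ∀ {i : Fin q} {v : V}, v ∈ U i ↔ f v = i ∧ v ∉ R ∧ v ∉ T ∧ v ∉ Q := by
    intro i v; simp [hU]
  set G' : SimpleGraph V := del G D with hG'
  have hG'le : G' ≤ G := fun v w h => (del_adj.1 h).1
  -- what is lost at a typical vertex
  have lost : ∀ v ∈ L, v ∉ T → (((nb G v) \ (nb G' v ∩ U (f v))).card : ℝ) ≤ 5 * δ * d := by
    intro v hv hvT
    have hsub : (nb G v) \ (nb G' v ∩ U (f v)) ⊆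
        (((nb D v ∪ (nb G v).filter (fun w => f w ≠ f v)) ∪ R) ∪ T) ∪ Q := by
      intro w hw
      rw [Finset.mem_sdiff, Finset.mem_inter, mem_nb, mem_nb, memU] at hw
      obtain ⟨h1, h2⟩ := hw
      simp only [Finset.mem_union, Finset.mem_filter, mem_nb]
      by_contra hcon
      push Not at hcon
      obtain ⟨⟨⟨⟨h3, h4⟩, h5⟩, h6⟩, h7⟩ := hcon
      exact h2 ⟨del_adj.2 ⟨h1, h3⟩, h4 h1, h5, h6, h7⟩
    have h1 := Finset.card_le_card hsub
    have h2 : ((nb G v) \ (nb G' v ∩ U (f v))).card ≤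
        (nb D v).card + ((nb G v).filter (fun w => f w ≠ f v)).card + R.card + T.card + Q.card := by
      refine h1.trans ((Finset.card_union_le _ _).trans ?_)
      refine Nat.add_le_add_right ((Finset.card_union_le _ _).trans ?_) _
      refine Nat.add_le_add_right ((Finset.card_union_le _ _).trans ?_) _
      exact Nat.add_le_add_right (Finset.card_union_le _ _) _
    have h3 : (((nb G v) \ (nb G' v ∩ U (f v))).card : ℝ) ≤
        (nb D v).card + ((nb G v).filter (fun w => f w ≠ f v)).card + R.card + T.card + Q.card := by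
      exact_mod_cast h2
    have h4 := P.typ v hv hvT
    have h5 : e * d ≤ δ * d := by gcongr
    have h6 := hD v
    linarith
  -- the matching inside a piece
  have piece : ∀ i : Fin q, ∃ M : SimpleGraph V, M ≤ G' ∧ IsMat M ∧ (∀ v w, M.Adj v w → v ∈ U i) ∧
      ∀ v ∈ L ∩ U i, (nb M v).Nonempty := by
    intro i
    refine hd0 G' d (U i) (L ∩ U i) hd0' Finset.inter_subset_right ?_ ?_ ?_ ?_ ?_ ?_
    · refine le_trans ?_ hCV
      exact_mod_cast Finset.card_le_univ _
    · intro v
      refine le_trans (Finset.card_le_card ?_) (hdeg v)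
      intro w hw
      exact mem_nb.2 (hG'le (mem_nb.1 hw))
    · intro v hv
      obtain ⟨hvL, hvU⟩ := Finset.mem_inter.1 hv
      have hvU' := memU.1 hvU
      have h1 := lost v hvL hvU'.2.2.1
      rw [hvU'.1] at h1
      have h2 := hL v hvL
      have h3 : ((nb G v).card : ℝ) ≤ ((nb G v) \ (nb G' v ∩ U i)).card +
          (nb G' v ∩ U i).card := by
        have := Finset.card_le_card_sdiff_add_card (s := nb G v) (t := nb G' v ∩ U i)
        exact_mod_cast this
      have h4 : 5 * δ * d ≤ η / 16 * d := by gcongr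
      linarith
    · intro S T' hSU hT'L hdisj hTS
      by_contra hcon
      push Not at hcon
      have hT'0 : (0 : ℝ) < T'.card := by
        have h0 : (0 : ℝ) ≤ S.card := by positivity
        by_contra h
        have h' : (T'.card : ℝ) = 0 := le_antisymm (not_lt.1 h) (by positivity)
        rw [h'] at hcon
        linarith
      have h1 := hNB S T' hdisj (hT'L.trans Finset.inter_subset_left) hcon.le
      have h2 : ∑ t ∈ T', ((nb G t \ S).card : ℝ) ≤ ∑ _t ∈ T', 5 * δ * d := by
        refine Finset.sum_le_sum fun t ht => ?_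
        obtain ⟨htL, htU⟩ := Finset.mem_inter.1 (hT'L ht)
        have htU' := memU.1 htU
        refine le_trans ?_ (lost t htL htU'.2.2.1)
        have h3 : nb G t \ S ⊆ nb G t \ (nb G' t ∩ U (f t)) := by
          rw [htU'.1]
          exact Finset.sdiff_subset_sdiff (Finset.Subset.refl _) (hTS t ht)
        exact_mod_cast Finset.card_le_card h3
      rw [Finset.sum_const, nsmul_eq_mul] at h2
      have h3 : η * d * T'.card ≤ T'.card * (5 * δ * d) := h1.trans h2
      have h4 : η * (d * T'.card) ≤ (5 * δ) * (d * T'.card) := by linarith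
      have h5 : 0 < (d : ℝ) * T'.card := mul_pos hd1 hT'0
      have h6 := le_of_mul_le_mul_right h4 h5
      linarith
    · intro X hXL hX1 hX2
      have hXi : ∀ x ∈ X, f x = i := fun x hx => (memU.1 (Finset.mem_inter.1 (hXL hx)).2).1
      have h1 := P.cut i X hXi hX1 (by
        refine hX2.trans ?_
        have : U i \ X ⊆ univ.filter (fun w => f w = i ∧ w ∉ X) := by
          intro w hw
          obtain ⟨h1, h2⟩ := Finset.mem_sdiff.1 hw
          exact Finset.mem_filter.2 ⟨Finset.mem_univ _, (memU.1 h1).1, h2⟩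
        exact_mod_cast Finset.card_le_card this)
      have h2 : ∑ x ∈ X, (((nb G x).filter (fun w => f w = i ∧ w ∉ X)).card : ℝ) ≤
          ∑ x ∈ X, (((nb G' x ∩ (U i \ X)).card : ℝ) + 4 * δ * d) := by
        refine Finset.sum_le_sum fun x _ => ?_
        have hsub : (nb G x).filter (fun w => f w = i ∧ w ∉ X) ⊆
            (((nb G' x ∩ (U i \ X) ∪ nb D x) ∪ R) ∪ T) ∪ Q := by
          intro w hw
          rw [Finset.mem_filter, mem_nb] at hw
          obtain ⟨h1, h2, h3⟩ := hw
          simp only [Finset.mem_union, Finset.mem_inter, Finset.mem_sdiff, mem_nb, memU]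
          by_contra hcon
          push Not at hcon
          obtain ⟨⟨⟨⟨h4, h5⟩, h6⟩, h7⟩, h8⟩ := hcon
          exact h3 (h4 (del_adj.2 ⟨h1, h5⟩) ⟨h2, h6, h7, h8⟩)
        have h3 : ((nb G x).filter (fun w => f w = i ∧ w ∉ X)).card ≤
            (nb G' x ∩ (U i \ X)).card + (nb D x).card + R.card + T.card + Q.card := by
          refine (Finset.card_le_card hsub).trans ((Finset.card_union_le _ _).trans ?_)
          refine Nat.add_le_add_right ((Finset.card_union_le _ _).trans ?_) _
          refine Nat.add_le_add_right ((Finset.card_union_le _ _).trans ?_) _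
          exact Nat.add_le_add_right (Finset.card_union_le _ _) _
        have h4 : (((nb G x).filter (fun w => f w = i ∧ w ∉ X)).card : ℝ) ≤
            (nb G' x ∩ (U i \ X)).card + (nb D x).card + R.card + T.card + Q.card := by
          exact_mod_cast h3
        have h5 := hD x
        linarith
      rw [Finset.sum_add_distrib, Finset.sum_const, nsmul_eq_mul] at h2
      have h3 : (X.card : ℝ) ≤ C * d := by
        refine le_trans ?_ hCV
        exact_mod_cast Finset.card_le_univ _
      have h4 : (X.card : ℝ) * (4 * δ * d) ≤ C * d * (4 * δ * d) := by gcongr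
      have h5 : C * d * (4 * δ * d) = (4 * C * δ) * (d : ℝ) ^ 2 := by ring
      have h6 : (4 * C * δ) * (d : ℝ) ^ 2 ≤ ρ / 2 * (d : ℝ) ^ 2 := by gcongr
      linarith
    · -- parity
      have hev := hpar i
      have e1 : L.filter (fun v => v ∉ B ∧ v ∉ R ∧ f v = i) =
          ((L ∩ U i) ∪ ((T \ B).filter fun t => t ∉ R ∧ f t = i).image p) ∪
            ((T \ B).filter fun t => t ∉ R ∧ f t = i) := by
        ext v
        simp only [Finset.mem_filter, Finset.mem_union, Finset.mem_inter, Finset.mem_image,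
          Finset.mem_sdiff, memU]
        constructor
        · rintro ⟨hvL, hvB, hvR, hvi⟩
          by_cases hvT : v ∈ T
          · exact Or.inr ⟨⟨hvT, hvB⟩, hvR, hvi⟩
          · by_cases hvQ : v ∈ Q
            · obtain ⟨t, ht, rfl⟩ := Finset.mem_image.1 hvQ
              obtain ⟨htT, htR⟩ := Finset.mem_sdiff.1 ht
              have h := hp t htT
              refine Or.inl (Or.inr ⟨t, ⟨⟨htT, h.2.2.2.2.2.1 hvL⟩, htR, ?_⟩, rfl⟩)
              rw [← hvi, h.2.1]
            · exact Or.inl (Or.inl ⟨hvL, hvi, hvR, hvT, hvQ⟩)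
        · rintro ((⟨hvL, hvi, hvR, hvT, hvQ⟩ | ⟨t, ⟨⟨htT, htB⟩, htR, hti⟩, rfl⟩) |
            ⟨⟨hvT, hvB⟩, hvR, hvi⟩)
          · exact ⟨hvL, fun h => hvT (P.BT h), hvR, hvi⟩
          · have h := hp t htT
            exact ⟨h.2.2.2.2.2.2 htB, fun h' => h.2.2.2.2.1 (P.BT h'), h.2.2.1, h.2.1.trans hti⟩
          · exact ⟨P.TL hvT, hvB, hvR, hvi⟩
      have d1 : Disjoint ((L ∩ U i) ∪ ((T \ B).filter fun t => t ∉ R ∧ f t = i).image p)
          ((T \ B).filter fun t => t ∉ R ∧ f t = i) := by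
        rw [Finset.disjoint_left]
        intro v hv hv'
        have hvT : v ∈ T := (Finset.mem_sdiff.1 (Finset.mem_filter.1 hv').1).1
        rcases Finset.mem_union.1 hv with h | h
        · exact (memU.1 (Finset.mem_inter.1 h).2).2.2.1 hvT
        · obtain ⟨t, ht, rfl⟩ := Finset.mem_image.1 h
          have htT : t ∈ T := (Finset.mem_sdiff.1 (Finset.mem_filter.1 ht).1).1
          exact (hp t htT).2.2.2.2.1 hvT
      have d2 : Disjoint (L ∩ U i) (((T \ B).filter fun t => t ∉ R ∧ f t = i).image p) := by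
        rw [Finset.disjoint_left]
        intro v hv hv'
        obtain ⟨t, ht, rfl⟩ := Finset.mem_image.1 hv'
        obtain ⟨h1, h2, _⟩ := Finset.mem_filter.1 ht
        have htT : t ∈ T := (Finset.mem_sdiff.1 h1).1
        exact (memU.1 (Finset.mem_inter.1 hv).2).2.2.2
          (Finset.mem_image_of_mem p (Finset.mem_sdiff.2 ⟨htT, h2⟩))
      have c1 : (((T \ B).filter fun t => t ∉ R ∧ f t = i).image p).card =
          ((T \ B).filter fun t => t ∉ R ∧ f t = i).card := by
        refine Finset.card_image_of_injOn ?_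
        intro t ht t' ht' h
        have h1 := (Finset.mem_sdiff.1 (Finset.mem_filter.1 (Finset.mem_coe.1 ht)).1).1
        have h2 := (Finset.mem_sdiff.1 (Finset.mem_filter.1 (Finset.mem_coe.1 ht')).1).1
        exact hpinj t h1 t' h2 h
      rw [e1, Finset.card_union_of_disjoint d1, Finset.card_union_of_disjoint d2, c1] at hev
      rw [add_assoc, ← two_mul] at hev
      rw [Nat.even_add] at hev
      exact hev.2 (even_two_mul _)
  choose Mi hMle hMmat hMU hMcov using piece
  -- the matching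
  set M : SimpleGraph V :=
    { Adj := fun v w => (∃ i, (Mi i).Adj v w) ∨ (v ∈ T1 ∧ w = p v) ∨ (w ∈ T1 ∧ v = p w)
      symm := ⟨fun v w h => by
        rcases h with ⟨i, h⟩ | h | h
        · exact Or.inl ⟨i, h.symm⟩
        · exact Or.inr (Or.inr h)
        · exact Or.inr (Or.inl h)⟩
      loopless := ⟨fun v h => by
        rcases h with ⟨i, h⟩ | ⟨h1, h2⟩ | ⟨h1, h2⟩
        · exact h.ne rfl
        · exact (hp v (Finset.mem_sdiff.1 h1).1).1.ne h2
        · exact (hp v (Finset.mem_sdiff.1 h1).1).1.ne h2⟩ } with hM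
  have Madj : ∀ {v w : V}, M.Adj v w ↔
      (∃ i, (Mi i).Adj v w) ∨ (v ∈ T1 ∧ w = p v) ∨ (w ∈ T1 ∧ v = p w) := Iff.rfl
  have hT1T : ∀ {t}, t ∈ T1 → t ∈ T := fun h => (Finset.mem_sdiff.1 h).1
  have hT1R : ∀ {t}, t ∈ T1 → t ∉ R := fun h => (Finset.mem_sdiff.1 h).2
  refine ⟨M, ?_, ?_, ?_, ?_⟩
  · intro v w h
    rcases Madj.1 h with ⟨i, h⟩ | ⟨h1, rfl⟩ | ⟨h1, rfl⟩
    · exact hG'le (hMle i h)
    · exact (hp v (hT1T h1)).1
    · exact (hp w (hT1T h1)).1.symm
  · apply isMat_of
    intro v w w' h h'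
    rcases Madj.1 h with ⟨i, h⟩ | ⟨h1, h2⟩ | ⟨h1, h2⟩ <;>
      rcases Madj.1 h' with ⟨j, h'⟩ | ⟨h1', h2'⟩ | ⟨h1', h2'⟩
    · have a1 := memU.1 (hMU i v w h)
      have a2 := memU.1 (hMU j v w' h')
      have : i = j := a1.1.symm.trans a2.1
      subst this
      exact IsMat.eq (hMmat i) h h'
    · exact absurd (hT1T h1') (memU.1 (hMU i v w h)).2.2.1
    · exact absurd (Finset.mem_image.2 ⟨w', h1', h2'.symm⟩) (memU.1 (hMU i v w h)).2.2.2
    · exact absurd (hT1T h1) (memU.1 (hMU j v w' h')).2.2.1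
    · rw [h2, h2']
    · exact absurd (hT1T h1) (by rw [h2']; exact (hp w' (hT1T h1')).2.2.2.2.1)
    · exact absurd (Finset.mem_image.2 ⟨w, h1, h2.symm⟩) (memU.1 (hMU j v w' h')).2.2.2
    · exact absurd (hT1T h1') (by rw [h2]; exact (hp w (hT1T h1)).2.2.2.2.1)
    · exact hpinj w (hT1T h1) w' (hT1T h1') (h2.symm.trans h2')
  · intro v w h
    rcases Madj.1 h with ⟨i, h⟩ | ⟨h1, rfl⟩ | ⟨h1, rfl⟩
    · exact ⟨(del_adj.1 (hMle i h)).2, (memU.1 (hMU i v w h)).2.1⟩
    · exact ⟨(hp v (hT1T h1)).2.2.2.1, hT1R h1⟩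
    · exact ⟨fun h' => (hp w (hT1T h1)).2.2.2.1 h'.symm, (hp w (hT1T h1)).2.2.1⟩
  · intro v hvL hvR
    by_cases hvT : v ∈ T
    · exact ⟨p v, mem_nb.2 (Madj.2 (Or.inr (Or.inl ⟨Finset.mem_sdiff.2 ⟨hvT, hvR⟩, rfl⟩)))⟩
    · by_cases hvQ : v ∈ Q
      · obtain ⟨t, ht, h⟩ := Finset.mem_image.1 hvQ
        exact ⟨t, mem_nb.2 (Madj.2 (Or.inr (Or.inr ⟨ht, h.symm⟩)))⟩
      · obtain ⟨w, hw⟩ := hMcov (f v) v (Finset.mem_inter.2 ⟨hvL, memU.2 ⟨rfl, hvR, hvT, hvQ⟩⟩)
        exact ⟨w, mem_nb.2 (Madj.2 (Or.inl ⟨f v, mem_nb.1 hw⟩))⟩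

end Pool.Agent.Work.MP_db9399_dn
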