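import Pool.Agent.Work.MP_db9399_dn.MLB
import Pool.Agent.Work.MP_db9399_dn.STEP
import Pool.Agent.Work.MP_db9399_dn.DEC
import Pool.Agent.Work.MP_db9399_dn.CORE
import Pool.Agent.Work.MP_db9399_dn.CHOOSE
import Pool.Agent.Work.MP_db9399_dn.COL
import Pool.Agent.Work.MP_db9399_dn.ASM
import Pool.Agent.Work.MP_db9399_dn.FIND

/-!
# MP_db9399: assembly of the theorem on dense graphs with small chromatic number
-/

set_option autoImplicit false

namespace Pool.Agent.Work.MP_db9399_dn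

universe u

theorem stmt_MAIN : Stmt_MAIN.{u} :=
  FIND.stmt_FIND.{u} (stmt_STEP.{u} ML.stmt_ML.{u}) DEC.stmt_DEC.{u} CHOOSE.stmt_CHOOSE.{u}
    COL.stmt_COL.{u} ASM.stmt_ASM.{u}

end Pool.Agent.Work.MP_db9399_dn
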